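import Pool.Agent.H67.CT.Base

/-!
# LR: labelling all the remaining leaves by Hall's theorem, without parity assumption on `E`

Proof.  `J := Fin k → ZMod 2`, `hlab` gives `g` with `g r = 0`, injective on `E`, and
`E.image (v ↦ g v + g (p v)) = E.image g`.
1. `∑_{v ∈ E} g (p v) = 0`: the map `v ↦ g v + g (p v)` is injective on `E` (card of the image is
   `E.card`), so `∑_{v∈E} (g v + g (p v)) = ∑_{x ∈ E.image g} x = ∑_{v∈E} g v`.
2. `∑_{v ∈ E'} g (p v) = 0`: group by `w = p v` (`Finset.sum_comp`): for `w ≠ r` the fibre is even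
   (`hE'.even`), so its contribution vanishes (exponent two); for `w = r` the value is `g r = 0`.
3. Hence for `U = E' \ E`: `∑_{v∈U} g (p v) = 0`.
4. If `k' = k` then `E' = E` (cards).  Otherwise put `Q = Fin (k'-k) → ZMod 2`,
   `card U = card J * (card Q - 1)` with `card Q ≥ 2`.
   `exists_evenInterior` gives an even part `B` of `U`, `(U \ B).card ≤ E.card = card J`.
   The class of a first `q1 ≠ 0` is `(U \ B) ∪ Y` with `Y ⊆ B` even, the rest `B \ Y` is even.
5. On each class apply `hall_finset`.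
-/

set_option autoImplicit false

open Finset

namespace Pool.Agent.H67.CT

open Pool.Agent.H57.SS

/-- The extension lemma with prescribed classes. -/
theorem LR_classes {V : Type*} [DecidableEq V] {J : Type*} [AddCommGroup J] [DecidableEq J]
    [Fintype J] {Q : Type*} [AddCommGroup Q] [DecidableEq Q]
    [Fintype Q] {p : V → V} {r : V} {E E' : Finset V} (hEE' : E ⊆ E') (hr : r ∈ E)
    (hpE : ∀ v ∈ E', p v ∈ E) (g : V → J) (hg0 : g r = 0) (hginj : Set.InjOn g E)
    (hgim : E.image (fun v => g v + g (p v)) = E.image g)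
    (c : V → Q) (hc1 : ∀ v ∈ E' \ E, c v ≠ 0)
    (hc2 : ∀ q : Q, q ≠ 0 → ((E' \ E).filter (fun v => c v = q)).card = Fintype.card J ∧
      ∑ v ∈ (E' \ E).filter (fun v => c v = q), g (p v) = 0)
    (hcard : E'.card = Fintype.card J * Fintype.card Q) : PLab p r E' (J × Q) := by
  have hA : ∀ q : Q, ∃ a : V → J, q ≠ 0 →
      Set.InjOn a ((E' \ E).filter (fun v => c v = q)) ∧
      Set.InjOn (fun v => a v + g (p v)) ((E' \ E).filter (fun v => c v = q)) := by
    intro q
    by_cases hq : q = 0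
    · exact ⟨fun _ => 0, fun h => (h hq).elim⟩
    · obtain ⟨h1, h2⟩ := hc2 q hq
      obtain ⟨a, ha1, ha2⟩ := hall_finset _ (fun v => g (p v)) h1 h2
      exact ⟨a, fun _ => ⟨ha1, ha2⟩⟩
  choose a ha using hA
  have hsumE : Set.InjOn (fun v => g v + g (p v)) E := by
    rw [← card_image_iff, hgim, card_image_iff]
    exact hginj
  let g' : V → J × Q := fun v => if v ∈ E then (g v, 0) else (a (c v) v, c v)
  have hg'E : ∀ v ∈ E, g' v = (g v, 0) := fun v hv => by simp [g', hv]
  have hg'U : ∀ v, v ∉ E → g' v = (a (c v) v, c v) := fun v hv => by simp [g', hv]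
  have hcU : ∀ v ∈ E', v ∉ E → c v ≠ 0 := by
    intro v hv hvE
    exact hc1 v (mem_sdiff.2 ⟨hv, hvE⟩)
  have hinj1 : Set.InjOn g' E' := by
    intro u hu v hv huv
    rw [mem_coe] at hu hv
    by_cases huE : u ∈ E
    · by_cases hvE : v ∈ E
      · rw [hg'E u huE, hg'E v hvE, Prod.mk.injEq] at huv
        exact hginj huE hvE huv.1
      · rw [hg'E u huE, hg'U v hvE, Prod.mk.injEq] at huv
        exact (hcU v hv hvE huv.2.symm).elim
    · by_cases hvE : v ∈ E
      · rw [hg'U u huE, hg'E v hvE, Prod.mk.injEq] at huv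
        exact (hcU u hu huE huv.2).elim
      · rw [hg'U u huE, hg'U v hvE, Prod.mk.injEq] at huv
        obtain ⟨h1, h2⟩ := huv
        rw [← h2] at h1
        refine (ha (c u) (hcU u hu huE)).1 ?_ ?_ h1
        · exact mem_coe.2 (mem_filter.2 ⟨mem_sdiff.2 ⟨hu, huE⟩, rfl⟩)
        · exact mem_coe.2 (mem_filter.2 ⟨mem_sdiff.2 ⟨hv, hvE⟩, h2.symm⟩)
  have hs1 : ∀ v ∈ E, g' v + g' (p v) = (g v + g (p v), 0) := by
    intro v hv
    rw [hg'E v hv, hg'E (p v) (hpE v (hEE' hv))]; simp
  have hs2 : ∀ v ∈ E', v ∉ E → g' v + g' (p v) = (a (c v) v + g (p v), c v) := by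
    intro v hv hvE
    rw [hg'U v hvE, hg'E (p v) (hpE v hv)]; simp
  have hinj2 : Set.InjOn (fun v => g' v + g' (p v)) E' := by
    intro u hu v hv huv
    rw [mem_coe] at hu hv
    simp only at huv
    by_cases huE : u ∈ E
    · by_cases hvE : v ∈ E
      · rw [hs1 u huE, hs1 v hvE, Prod.mk.injEq] at huv
        exact hsumE huE hvE huv.1
      · rw [hs1 u huE, hs2 v hv hvE, Prod.mk.injEq] at huv
        exact (hcU v hv hvE huv.2.symm).elim
    · by_cases hvE : v ∈ E
      · rw [hs2 u hu huE, hs1 v hvE, Prod.mk.injEq] at huv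
        exact (hcU u hu huE huv.2).elim
      · rw [hs2 u hu huE, hs2 v hv hvE, Prod.mk.injEq] at huv
        obtain ⟨h1, h2⟩ := huv
        rw [← h2] at h1
        refine (ha (c u) (hcU u hu huE)).2 ?_ ?_ h1
        · exact mem_coe.2 (mem_filter.2 ⟨mem_sdiff.2 ⟨hu, huE⟩, rfl⟩)
        · exact mem_coe.2 (mem_filter.2 ⟨mem_sdiff.2 ⟨hv, hvE⟩, h2.symm⟩)
  have huniv : ∀ f : V → J × Q, Set.InjOn f E' → E'.image f = univ := by
    intro f hf
    rw [← card_eq_iff_eq_univ, card_image_of_injOn hf, hcard, Fintype.card_prod]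
  refine ⟨g', by rw [hg'E r hr, hg0]; rfl, hinj1, ?_⟩
  rw [huniv _ hinj1, huniv _ hinj2]

/-- A total sum over a closed set vanishes. -/
theorem LR_sum_closed {V : Type*} [DecidableEq V] {J : Type*} [AddCommGroup J]
    (hJ : ∀ x : J, x + x = 0) {p : V → V} {r : V} {E' : Finset V} (hE' : Closed p r E')
    (g : V → J) (hg0 : g r = 0) : ∑ v ∈ E', g (p v) = 0 := by
  rw [Finset.sum_comp g p]
  apply sum_eq_zero
  intro w _
  by_cases hw : w = r
  · rw [hw, hg0, smul_zero]
  · obtain ⟨k, hk⟩ := hE'.even w hw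
    rw [hk, add_smul, ← smul_add, hJ, smul_zero]

theorem LR_core {V : Type*} [DecidableEq V] {J : Type*} [AddCommGroup J] [DecidableEq J]
    [Fintype J] (hJ : ∀ x : J, x + x = 0) {Q : Type*} [AddCommGroup Q] [DecidableEq Q]
    [Fintype Q] {p : V → V} {r : V} {E E' : Finset V} (hEE' : E ⊆ E') (hr : r ∈ E)
    (hpE : ∀ v ∈ E', p v ∈ E) (hE' : Closed p r E') (hlab : PLab p r E J)
    (hfull : E.card = Fintype.card J) (hJe : Even (Fintype.card J)) (hQ : 2 ≤ Fintype.card Q)
    (hcard : E'.card = Fintype.card J * Fintype.card Q) : PLab p r E' (J × Q) := by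
  obtain ⟨g, hg0, hginj, hgim⟩ := hlab
  have hsumE : Set.InjOn (fun v => g v + g (p v)) E := by
    rw [← card_image_iff, hgim, card_image_iff]
    exact hginj
  have hS1 : ∑ v ∈ E, g (p v) = 0 := by
    have h1 : ∑ v ∈ E, (g v + g (p v)) = ∑ v ∈ E, g v := by
      rw [← sum_image (f := fun x => x) (g := fun v => g v + g (p v)) (s := E) (fun a ha b hb h => hsumE ha hb h),
        hgim, sum_image (fun a ha b hb h => hginj ha hb h)]
    rw [sum_add_distrib] at h1
    exact left_eq_add.1 h1.symm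
  have hS2 := LR_sum_closed hJ hE' g hg0
  set U := E' \ E with hU
  have hS3 : ∑ v ∈ U, g (p v) = 0 := by
    have h1 := sum_sdiff hEE' (f := fun v => g (p v))
    rw [hS1, hS2, add_zero] at h1
    exact h1
  set N := Fintype.card J with hN
  have hNpos : 0 < N := Fintype.card_pos_iff.2 ⟨0⟩
  have hUc : U.card = N * Fintype.card Q - N := by
    rw [hU, card_sdiff_of_subset hEE', hcard, hfull]
  obtain ⟨B, hBU, hBe, hBc, _⟩ := exists_evenInterior (p := p) U
  have hodd : oddPar p U ⊆ E := by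
    intro w hw
    rw [mem_oddPar] at hw
    obtain ⟨v, hv⟩ := card_pos.1 hw.pos
    rw [mem_filter] at hv
    rw [← hv.2]
    exact hpE v (mem_sdiff.1 hv.1).1
  have hoc : (oddPar p U).card ≤ N := hfull ▸ card_le_card hodd
  have hUB : (U \ B).card = (oddPar p U).card := by
    rw [card_sdiff_of_subset hBU]; omega
  -- parity
  obtain ⟨n1, hn1⟩ := hJe
  obtain ⟨b1, hb1⟩ := hBe.card_even
  have hUN : U.card = N * (Fintype.card Q - 1) := by
    rw [hUc, Nat.mul_sub, mul_one]
  have hUge : N ≤ U.card := by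
    rw [hUN]
    exact Nat.le_mul_of_pos_right N (by omega)
  have hUev : Even U.card := by
    rw [hUN, hn1]
    exact ⟨n1 * (Fintype.card Q - 1), by ring⟩
  obtain ⟨u1, hu1⟩ := hUev
  obtain ⟨Y, hYB, hYc, hYe⟩ := exists_evenFib_subset hBe ((N - (U \ B).card) / 2) (by omega)
  have hYc' : Y.card = N - (U \ B).card := by omega
  have hYU : Y ⊆ U := hYB.trans hBU
  -- the first class
  have hdisY : Disjoint (U \ B) Y := by
    rw [Finset.disjoint_left]
    intro v hv hvY
    exact (mem_sdiff.1 hv).2 (hYB hvY)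
  have hC1c : ((U \ B) ∪ Y).card = N := by
    rw [card_union_of_disjoint hdisY, hYc']; omega
  have hrest : EvenFib p (B \ Y) := hBe.sdiff hYe hYB
  obtain ⟨q1, hq1⟩ : ∃ q1 : Q, q1 ≠ 0 := by
    have : Nontrivial Q := Fintype.one_lt_card_iff_nontrivial.1 (by omega)
    exact exists_ne 0
  set K := ((univ : Finset Q).erase 0).erase q1 with hK
  have hKc : K.card = Fintype.card Q - 2 := by
    rw [hK, card_erase_of_mem (mem_erase.2 ⟨hq1, mem_univ _⟩), card_erase_of_mem (mem_univ _),
      card_univ]; omega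
  have hrc : (B \ Y).card = K.card * N := by
    rw [card_sdiff_of_subset hYB, hKc]
    have h1 : U.card = (Fintype.card Q - 2) * N + N := by
      rw [hUN]
      obtain ⟨x, hx⟩ : ∃ x, Fintype.card Q = x + 2 := ⟨Fintype.card Q - 2, by omega⟩
      rw [hx, Nat.add_sub_cancel, show x + 2 - 1 = x + 1 by omega]
      ring
    omega
  have : Inhabited Q := ⟨0⟩
  obtain ⟨c, hc1, hc2⟩ := exists_partition (p := p) (⟨n1, hn1⟩ : Even N) K (B \ Y) hrest hrc
  let c' : V → Q := fun v => if v ∈ (U \ B) ∪ Y then q1 else c v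
  have hsplit : ∀ v ∈ U, v ∉ (U \ B) ∪ Y → v ∈ B \ Y := by
    intro v hv hv'
    rw [mem_union, mem_sdiff, not_or] at hv'
    rw [mem_sdiff]
    constructor
    · by_contra h
      exact hv'.1 ⟨hv, h⟩
    · exact hv'.2
  have hcl1 : U.filter (fun v => c' v = q1) = (U \ B) ∪ Y := by
    ext v
    rw [mem_filter]
    constructor
    · rintro ⟨hv, h⟩
      by_contra hcon
      have h1 : c' v = c v := by simp only [c', if_neg hcon]
      have h2 := hc1 v (hsplit v hv hcon)
      rw [← h1, h, hK] at h2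
      exact (mem_erase.1 h2).1 rfl
    · intro hv
      refine ⟨?_, by simp only [c', if_pos hv]⟩
      rw [mem_union] at hv
      rcases hv with hv | hv
      · exact (mem_sdiff.1 hv).1
      · exact hYU hv
  have hcl2 : ∀ q ∈ K, U.filter (fun v => c' v = q) = (B \ Y).filter (fun v => c v = q) := by
    intro q hq
    have hqq : q ≠ q1 := (mem_erase.1 hq).1
    ext v
    rw [mem_filter, mem_filter]
    constructor
    · rintro ⟨hv, h⟩
      have hcon : v ∉ (U \ B) ∪ Y := by
        intro hcon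
        simp only [c', if_pos hcon] at h
        exact hqq h.symm
      refine ⟨hsplit v hv hcon, ?_⟩
      simpa only [c', if_neg hcon] using h
    · rintro ⟨hv, h⟩
      rw [mem_sdiff] at hv
      have hcon : v ∉ (U \ B) ∪ Y := by
        rw [mem_union, mem_sdiff, not_or]
        exact ⟨fun h => h.2 hv.1, hv.2⟩
      exact ⟨hBU hv.1, by simpa only [c', if_neg hcon] using h⟩
  have hS4 : ∑ v ∈ (U \ B) ∪ Y, g (p v) = 0 := by
    have h1 : ((U \ B) ∪ Y) ⊆ U := by
      rw [← hcl1]; exact filter_subset _ _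
    have h2 := sum_sdiff h1 (f := fun v => g (p v))
    have h3 : U \ ((U \ B) ∪ Y) = B \ Y := by
      ext v
      constructor
      · intro hv
        rw [mem_sdiff] at hv
        exact hsplit v hv.1 hv.2
      · intro hv
        rw [mem_sdiff] at hv
        refine mem_sdiff.2 ⟨hBU hv.1, ?_⟩
        rw [mem_union, mem_sdiff, not_or]
        exact ⟨fun h => h.2 hv.1, hv.2⟩
    rw [h3, sum_evenFib_eq_zero hJ hrest g, zero_add, hS3] at h2
    exact h2
  refine LR_classes hEE' hr hpE g hg0 hginj hgim c' ?_ ?_ hcard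
  · intro v hv
    by_cases hcon : v ∈ (U \ B) ∪ Y
    · simp only [c', if_pos hcon]; exact hq1
    · simp only [c', if_neg hcon]
      have h2 := hc1 v (hsplit v hv hcon)
      exact (mem_erase.1 (mem_erase.1 h2).2).1
  · intro q hq
    by_cases hqq : q = q1
    · subst hqq
      rw [hcl1]
      exact ⟨hC1c, hS4⟩
    · have hqK : q ∈ K := mem_erase.2 ⟨hqq, mem_erase.2 ⟨hq, mem_univ _⟩⟩
      rw [hcl2 q hqK]
      obtain ⟨h1, h2⟩ := hc2 q hqK
      exact ⟨h1, sum_evenFib_eq_zero hJ h2 g⟩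

theorem plab_lr {V : Type*} [DecidableEq V] {p : V → V} {r : V} {E E' : Finset V} (hr : r ∈ E)
    (hE' : Closed p r E') (hEE' : E ⊆ E') {k k' : ℕ} (hk : 1 ≤ k) (hcE : E.card = 2 ^ k)
    (hcE' : E'.card = 2 ^ k') (hpE : ∀ v ∈ E', p v ∈ E)
    (hlab : PLab p r E (Fin k → ZMod 2)) : PLab p r E' (Fin k' → ZMod 2) := by
  have hkk : k ≤ k' := by
    have := card_le_card hEE'
    rw [hcE, hcE'] at this
    exact (Nat.pow_le_pow_iff_right (by norm_num)).1 this
  rcases hkk.eq_or_lt with rfl | hlt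
  · have : E = E' := eq_of_subset_of_card_le hEE' (by rw [hcE, hcE'])
    rw [← this]; exact hlab
  have he : Even (2 ^ k) := (Nat.even_pow.2 ⟨even_two, by omega⟩)
  have hcJ : Fintype.card (Fin k → ZMod 2) = 2 ^ k := by simp
  have hcQ : Fintype.card (Fin (k' - k) → ZMod 2) = 2 ^ (k' - k) := by simp
  have hQ2 : 2 ^ 1 ≤ 2 ^ (k' - k) := Nat.pow_le_pow_right (by norm_num) (by omega)
  have h1 := LR_core (J := Fin k → ZMod 2) (add_self_fin k) (Q := Fin (k' - k) → ZMod 2)
    hEE' hr hpE hE' hlab (by rw [hcJ, hcE]) (by rw [hcJ]; exact he) (by rw [hcQ]; omega)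
    (by
      rw [hcJ, hcQ, hcE', ← pow_add]; congr 1; omega)
  obtain ⟨e⟩ := exists_addEquiv ((Fin k → ZMod 2) × (Fin (k' - k) → ZMod 2))
    (fun x => Prod.ext (add_self_fin k x.1) (add_self_fin (k' - k) x.2)) k' (by
      rw [Fintype.card_prod, hcJ, hcQ, ← pow_add]; congr 1; omega)
  exact h1.congr e

end Pool.Agent.H67.CT
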