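import Mathlib

/-!
# Arithmetic
-/

set_option autoImplicit false

namespace Pool.H67.CT

theorem ari_key (x r N : ℕ) (hx : 2 ≤ x) (hr : 2 ≤ r) (hxr : ¬ (x = 2 ∧ r = 2))
    (h : N * (x - 1) * (x * r) ^ 2 ≤ (x * r - 1) * ((x * r) ^ 2 + x ^ 4)) : N * r + 3 < (x * r) ^ 2 := by
  have h1 : 2 * (x ^ 2 + r ^ 2) + 3 ≤ (x * r) ^ 2 := by
    rcases Nat.lt_or_ge x 3 with h3 | h3
    · have hx2 : x = 2 := by omega
      have hr3 : 3 ≤ r := by
        rcases Nat.lt_or_ge r 3 with h4 | h4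
        · exact absurd ⟨hx2, by omega⟩ hxr
        · exact h4
      subst hx2
      nlinarith
    · have h5 : 9 ≤ x ^ 2 := by nlinarith
      have h6 : 4 ≤ r ^ 2 := by nlinarith
      obtain ⟨u, hu⟩ := Nat.exists_eq_add_of_le h5
      obtain ⟨v, hv⟩ := Nat.exists_eq_add_of_le h6
      rw [mul_pow, hu, hv]
      nlinarith [Nat.zero_le (u * v)]
  have h2 : N * (x - 1) * r ^ 2 ≤ (x * r - 1) * (r ^ 2 + x ^ 2) := by
    have hx0 : 0 < x ^ 2 := by positivity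
    have h7 : x ^ 2 * (N * (x - 1) * r ^ 2) ≤ x ^ 2 * ((x * r - 1) * (r ^ 2 + x ^ 2)) := by
      calc x ^ 2 * (N * (x - 1) * r ^ 2) = N * (x - 1) * (x * r) ^ 2 := by ring
        _ ≤ (x * r - 1) * ((x * r) ^ 2 + x ^ 4) := h
        _ = x ^ 2 * ((x * r - 1) * (r ^ 2 + x ^ 2)) := by ring
    exact Nat.le_of_mul_le_mul_left h7 hx0
  by_contra hcon
  have h3 : 2 * (x ^ 2 + r ^ 2) ≤ N * r := by omega
  obtain ⟨t, rfl⟩ : ∃ t, x = t + 1 := ⟨x - 1, by omega⟩
  rw [Nat.add_sub_cancel] at h2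
  have h4 : (t + 1) * r * ((t + 1) ^ 2 + r ^ 2) ≤ N * t * r ^ 2 := by
    calc (t + 1) * r * ((t + 1) ^ 2 + r ^ 2) ≤ (2 * t) * r * ((t + 1) ^ 2 + r ^ 2) := by
          apply Nat.mul_le_mul_right
          apply Nat.mul_le_mul_right
          omega
      _ = t * r * (2 * ((t + 1) ^ 2 + r ^ 2)) := by ring
      _ ≤ t * r * (N * r) := Nat.mul_le_mul_left _ h3
      _ = N * t * r ^ 2 := by ring
  have h5 : ((t + 1) * r - 1) * (r ^ 2 + (t + 1) ^ 2) < (t + 1) * r * ((t + 1) ^ 2 + r ^ 2) := by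
    have h6 : (t + 1) * r - 1 < (t + 1) * r := by
      have : 0 < (t + 1) * r := by positivity
      omega
    have h7 : 0 < r ^ 2 + (t + 1) ^ 2 := by positivity
    rw [add_comm ((t + 1) ^ 2) (r ^ 2)]
    exact Nat.mul_lt_mul_of_pos_right h6 h7
  omega

theorem ari_primes (p α r : ℕ) (hp : p.Prime) (hr2 : 2 ≤ r) : (p ^ α * r).primeFactors.card ≤ r := by
  have h1 : (p ^ α * r).primeFactors ⊆ insert p (Finset.Icc 2 r) := by
    intro s hs
    have h2 := Nat.prime_of_mem_primeFactors hs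
    have h3 := Nat.dvd_of_mem_primeFactors hs
    rcases (Nat.Prime.dvd_mul h2).1 h3 with h4 | h4
    · have h5 := h2.dvd_of_dvd_pow h4
      rw [(Nat.prime_dvd_prime_iff_eq h2 hp).1 h5]
      exact Finset.mem_insert_self _ _
    · exact Finset.mem_insert_of_mem (Finset.mem_Icc.2 ⟨h2.two_le, Nat.le_of_dvd (by omega) h4⟩)
  calc (p ^ α * r).primeFactors.card ≤ (insert p (Finset.Icc 2 r)).card := Finset.card_le_card h1
    _ ≤ (Finset.Icc 2 r).card + 1 := Finset.card_insert_le _ _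
    _ = r := by rw [Nat.card_Icc]; omega

end Pool.H67.CT
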