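import Pool.Agent.H67.CT.Fam

/-!
# FamA: the family `a = 2`

`ladder_family` with `a = 2`, `B0 = {0, -1, ..., -(t-2)}` (image of `range (t-1)` under `j ↦ -j`),
`c0 = 1`, `S = (m - t - 1) / 2` (or `S = 0` if `w ≤ 3`).
* `LadHyp B0 1 2 t`: `step`: `g = -j`, `1 ≤ j ≤ t-2`: `g + 2 = -(j-2) ∈ B0` if `j ≥ 2`, `= 1` if `j = 1`.
  `s1`: `2 - t = -(t-2) ∈ B0`.  `s2`: `3 - t = -(t-3) ∈ B0` if `t ≥ 3`, `= 1` if `t = 2`.
  `n1, n2`: `-t, 1 - t = -(t-1)` are not of the form `-j`, `j ≤ t-2` (`t < m`).  `cut`: `1 ≠ -j` since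
  `j + 1 < m`.  `ha`: `2 ≠ 0` as `m ≥ 3`.
* `c_j = 1 + 2 j ≤ 1 + 2 S ≤ m - t` as natural numbers, the elements of `B0` are `0` and
  `m - t + 2, ..., m - 1`: `hf, hd`; `-t = m - t`, `1 - t = m - t + 1` and `c_j ≤ m - t - 2` for
  `j < S`: `he`.
* `chg B0 1 ≤ 1`: if `g ≠ 1, 2` and exactly one of `g - 1, g` is in `B0` then `g = 2 - t`
  (as a number `m - t + 2`, or `0` if `t = 2`).
* `chg B_S c_S ≥ max 1 (2 S)`: `g = 2 - t` counts (`g - 1 = 1 - t ∉ B_S`, `g ∈ B0`,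
  `g ≠ c_S, c_S + 1` because `c_S + 1 ≤ m - t + 1`); for `1 ≤ i ≤ S` the number `g = 2 i` counts
  (`g - 1 = c_{i-1} ∈ B_S`, `g ∉ B_S`, `g < c_S`), for `1 ≤ i ≤ S - 1` the number `g = 2 i + 1` counts
  (`g - 1 = 2i ∉ B_S`, `g = c_i ∈ B_S`, `g < c_S`).
* So `w ≤ max 1 (2S) + 2`; `2 S = m - t - 1` if `t` is even (`m - t` odd), `2 S = m - t - 2` if `t` is odd.
(Everything checked by computer.)  It is convenient to work with representatives `< m`
(`ZMod.natCast_zmod_val`, `ZMod.natCast_eq_natCast_iff`, `ZMod.natCast_self`).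
-/

set_option autoImplicit false

open Finset

namespace Pool.Agent.H67.CT

theorem FamA_wrap {m x : ℕ} (h : m ≤ x) : ((x : ℕ) : ZMod m) = ((x - m : ℕ) : ZMod m) := by
  rw [Nat.cast_sub h]; simp

theorem FamA_pred {m x : ℕ} (h : 1 ≤ x) : ((x : ℕ) : ZMod m) - 1 = ((x - 1 : ℕ) : ZMod m) := by
  rw [Nat.cast_sub h]; simp

theorem FamA_cast_inj {m x y : ℕ} (hx : x < m) (hy : y < m)
    (h : ((x : ℕ) : ZMod m) = ((y : ℕ) : ZMod m)) : x = y := by
  rw [← ZMod.val_natCast_of_lt hx, ← ZMod.val_natCast_of_lt hy, h]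

/-- the block `{0, -1, ..., -(t-2)}` -/
def FamA_B0 (m t : ℕ) [NeZero m] : Finset (ZMod m) :=
  univ.filter (fun g : ZMod m => g.val = 0 ∨ m + 2 ≤ g.val + t)

theorem FamA_mem {m t : ℕ} [NeZero m] {x : ℕ} (hx : x < m) :
    ((x : ℕ) : ZMod m) ∈ FamA_B0 m t ↔ x = 0 ∨ m + 2 ≤ x + t := by
  rw [FamA_B0, mem_filter, ZMod.val_natCast_of_lt hx]
  simp

theorem FamA_rep {m : ℕ} [NeZero m] (g : ZMod m) : ∃ x < m, ((x : ℕ) : ZMod m) = g :=
  ⟨g.val, ZMod.val_lt g, ZMod.natCast_zmod_val g⟩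

theorem FamA_hyp {m : ℕ} [NeZero m] (hm : 3 ≤ m) {t : ℕ} (ht2 : 2 ≤ t) (htm : t < m) :
    LadHyp (FamA_B0 m t) (1 : ZMod m) 2 (t : ZMod m) := by
  have e1 : (1 : ZMod m) = ((1 : ℕ) : ZMod m) := by simp
  have e2 : (2 : ZMod m) = ((2 : ℕ) : ZMod m) := by simp
  have e0 : (0 : ZMod m) = ((0 : ℕ) : ZMod m) := by simp
  refine ⟨?_, ?_, ?_, ?_, ?_, ?_, ?_, ?_⟩
  · rw [e0, FamA_mem (by omega)]; exact Or.inl rfl
  · rw [e1, FamA_mem (by omega)]; omega
  · intro g hg hg0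
    obtain ⟨x, hx, rfl⟩ := FamA_rep g
    rw [FamA_mem hx] at hg
    have hx0 : x ≠ 0 := by rintro rfl; exact hg0 (by simp)
    have h1 : m + 2 ≤ x + t := by omega
    have h2 : ((x : ℕ) : ZMod m) + 2 = ((x + 2 : ℕ) : ZMod m) := by push_cast; ring
    rw [h2]
    rcases Nat.lt_or_ge (x + 2) m with h3 | h3
    · left; rw [FamA_mem h3]; omega
    · rw [FamA_wrap h3]
      rcases Nat.lt_or_ge (x + 2) (m + 1) with h4 | h4
      · left; rw [FamA_mem (by omega)]; left; omega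
      · right; rw [e1]; congr 1; omega
  · have h2 : (2 : ZMod m) - (t : ZMod m) = ((m + 2 - t : ℕ) : ZMod m) := by
      rw [Nat.cast_sub (by omega)]; simp
    left
    rw [h2]
    rcases Nat.lt_or_ge (m + 2 - t) m with h3 | h3
    · rw [FamA_mem h3]; omega
    · rw [FamA_wrap h3, FamA_mem (by omega)]; left; omega
  · have h2 : (2 : ZMod m) - (t : ZMod m) + 1 = ((m + 3 - t : ℕ) : ZMod m) := by
      rw [Nat.cast_sub (by omega)]; push_cast; simp; ring
    rw [h2]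
    rcases Nat.lt_or_ge (m + 3 - t) m with h3 | h3
    · left; rw [FamA_mem h3]; omega
    · rw [FamA_wrap h3]
      rcases Nat.lt_or_ge (m + 3 - t) (m + 1) with h4 | h4
      · left; rw [FamA_mem (by omega)]; left; omega
      · right; rw [e1]; congr 1; omega
  · have h2 : -(t : ZMod m) = ((m - t : ℕ) : ZMod m) := by
      rw [Nat.cast_sub (by omega)]; simp
    rw [h2, FamA_mem (by omega)]; omega
  · have h2 : (1 : ZMod m) - (t : ZMod m) = ((m + 1 - t : ℕ) : ZMod m) := by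
      rw [Nat.cast_sub (by omega)]; simp
    rw [h2, FamA_mem (by omega)]; omega
  · rw [e2, e0]
    intro h
    have := FamA_cast_inj (by omega) (by omega) h
    omega

theorem FamA_chg0 {m : ℕ} [NeZero m] (hm : 3 ≤ m) {t : ℕ} (ht2 : 2 ≤ t) (htm : t < m) :
    chg (FamA_B0 m t) (1 : ZMod m) ≤ 1 := by
  have e1 : (1 : ZMod m) = ((1 : ℕ) : ZMod m) := by simp
  unfold chg
  have hsub : univ.filter (fun g : ZMod m => g ≠ 1 ∧ g ≠ 1 + 1 ∧
        ¬ (g - 1 ∈ FamA_B0 m t ↔ g ∈ FamA_B0 m t)) ⊆ {((m + 2 - t : ℕ) : ZMod m)} := by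
    intro g hg
    rw [mem_filter] at hg
    rw [mem_singleton]
    obtain ⟨_, h1, h2, h3⟩ := hg
    obtain ⟨x, hx, rfl⟩ := FamA_rep g
    rcases Nat.eq_zero_or_pos x with h0 | h0
    · subst h0
      have h4 : ((0 : ℕ) : ZMod m) - 1 = ((m - 1 : ℕ) : ZMod m) := by
        rw [Nat.cast_sub (by omega)]; simp
      rw [h4, FamA_mem (by omega), FamA_mem (by omega)] at h3
      have h5 : t = 2 := by omega
      rw [h5, show m + 2 - 2 = m by omega]; simp
    · rw [FamA_pred h0, FamA_mem (by omega), FamA_mem hx] at h3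
      have hx1 : x ≠ 1 := by rintro rfl; exact h1 (by simp)
      have h5 : x = m + 2 - t := by omega
      rw [h5]
  exact (card_le_card hsub).trans (by simp)

theorem FamA_chgS {m : ℕ} [NeZero m] (hm : 3 ≤ m) (hodd : Odd m) {t S : ℕ} (ht2 : 2 ≤ t)
    (htm : t < m) (hS : 1 + 2 * S + t ≤ m) :
    2 * S ≤ chg (FamA_B0 m t ∪ (range S).image (fun j : ℕ => (1 : ZMod m) + (j : ZMod m) * 2))
      ((1 : ZMod m) + (S : ZMod m) * 2) ∧
    1 ≤ chg (FamA_B0 m t ∪ (range S).image (fun j : ℕ => (1 : ZMod m) + (j : ZMod m) * 2))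
      ((1 : ZMod m) + (S : ZMod m) * 2) := by
  obtain ⟨k, hk⟩ := hodd
  set B := FamA_B0 m t ∪ (range S).image (fun j : ℕ => (1 : ZMod m) + (j : ZMod m) * 2) with hB
  have hcj : ∀ j : ℕ, (1 : ZMod m) + (j : ZMod m) * 2 = ((1 + 2 * j : ℕ) : ZMod m) := by
    intro j; push_cast; ring
  have hBm : ∀ x < m, (((x : ℕ) : ZMod m) ∈ B ↔
      (x = 0 ∨ m + 2 ≤ x + t) ∨ (x % 2 = 1 ∧ x < 1 + 2 * S)) := by
    intro x hx
    rw [hB, mem_union, FamA_mem hx, mem_image]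
    apply or_congr Iff.rfl
    constructor
    · rintro ⟨j, hj, hjx⟩
      rw [mem_range] at hj
      rw [hcj] at hjx
      have := FamA_cast_inj (by omega) hx hjx
      omega
    · rintro ⟨h1, h2⟩
      refine ⟨x / 2, mem_range.2 (by omega), ?_⟩
      rw [hcj]; congr 1; omega
  have hc1 : ((1 : ZMod m) + (S : ZMod m) * 2) = ((1 + 2 * S : ℕ) : ZMod m) := hcj S
  have hc2 : ((1 : ZMod m) + (S : ZMod m) * 2) + 1 = ((2 + 2 * S : ℕ) : ZMod m) := by
    push_cast; ring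
  set F := univ.filter (fun g : ZMod m => g ≠ (1 : ZMod m) + (S : ZMod m) * 2 ∧
    g ≠ (1 : ZMod m) + (S : ZMod m) * 2 + 1 ∧ ¬ (g - 1 ∈ B ↔ g ∈ B)) with hF
  have hchg : chg B ((1 : ZMod m) + (S : ZMod m) * 2) = F.card := rfl
  rw [hchg]
  -- membership in F for representatives ≥ 1
  have hFm : ∀ x, 1 ≤ x → x < m → x ≠ 1 + 2 * S → x ≠ 2 + 2 * S →
      ¬ (((x - 1 : ℕ) : ZMod m) ∈ B ↔ ((x : ℕ) : ZMod m) ∈ B) → ((x : ℕ) : ZMod m) ∈ F := by
    intro x h1 hx h2 h3 h4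
    rw [hF, mem_filter]
    refine ⟨mem_univ _, ?_, ?_, ?_⟩
    · rw [hc1]; intro h; exact h2 (FamA_cast_inj hx (by omega) h)
    · rw [hc2]; intro h; exact h3 (FamA_cast_inj hx (by omega) h)
    · rw [FamA_pred h1]; exact h4
  have hg0 : ((m + 2 - t : ℕ) : ZMod m) ∈ F := by
    rcases Nat.lt_or_ge (m + 2 - t) m with h3 | h3
    · apply hFm _ (by omega) h3 (by omega) (by omega)
      rw [hBm _ (by omega), hBm _ h3]
      omega
    · rw [FamA_wrap h3, show m + 2 - t - m = 0 by omega]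
      rw [hF, mem_filter]
      have h4 : ((0 : ℕ) : ZMod m) - 1 = ((m - 1 : ℕ) : ZMod m) := by
        rw [Nat.cast_sub (by omega)]; simp
      refine ⟨mem_univ _, ?_, ?_, ?_⟩
      · rw [hc1]; intro h
        have := FamA_cast_inj (by omega) (by omega) h
        omega
      · rw [hc2]; intro h
        have := FamA_cast_inj (by omega) (by omega) h
        omega
      · rw [h4, hBm _ (by omega), hBm _ (by omega)]
        omega
  have hy : ∀ y, 2 ≤ y → y ≤ 2 * S → ((y : ℕ) : ZMod m) ∈ F := by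
    intro y h1 h2
    apply hFm _ (by omega) (by omega) (by omega) (by omega)
    rw [hBm _ (by omega), hBm _ (by omega)]
    omega
  constructor
  · rcases Nat.eq_zero_or_pos S with h0 | h0
    · rw [h0]; simp
    · have hsub : insert ((m + 2 - t : ℕ) : ZMod m)
          ((Icc 2 (2 * S)).image (fun y : ℕ => ((y : ℕ) : ZMod m))) ⊆ F := by
        intro g hg
        rw [mem_insert, mem_image] at hg
        rcases hg with rfl | ⟨y, hy1, rfl⟩
        · exact hg0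
        · rw [mem_Icc] at hy1
          exact hy y hy1.1 hy1.2
      have h1 := card_le_card hsub
      rw [card_insert_of_notMem, card_image_of_injOn] at h1
      · rw [Nat.card_Icc] at h1; omega
      · intro a ha b hb hab
        rw [mem_coe, mem_Icc] at ha hb
        exact FamA_cast_inj (by omega) (by omega) hab
      · rw [mem_image]
        rintro ⟨y, hy1, hy2⟩
        rw [mem_Icc] at hy1
        rcases Nat.lt_or_ge (m + 2 - t) m with h3 | h3
        · have := FamA_cast_inj (by omega) h3 hy2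
          omega
        · rw [FamA_wrap h3] at hy2
          have := FamA_cast_inj (by omega) (by omega) hy2
          omega
  · exact card_pos.2 ⟨_, hg0⟩

theorem FamA_S {m : ℕ} [NeZero m] (hm : 3 ≤ m) (hodd : Odd m) {K : Type} [Field K]
    {pw : ZMod m → K} (hpw : PW m K pw) {t : ℕ} (ht : pw (t : ZMod m) = 1 + pw 1) (ht2 : 2 ≤ t)
    (htm : t < m) (S : ℕ) (hS : 1 + 2 * S + t ≤ m) (w : ℕ) (hw1 : 1 ≤ w)
    (hw : w ≤ 3 ∨ w ≤ 2 * S + 2) : HasCat (K × ZMod 2) (m + 1 + w) := by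
  have hcj : ∀ j : ℕ, (1 : ZMod m) + (j : ZMod m) * 2 = ((1 + 2 * j : ℕ) : ZMod m) := by
    intro j; push_cast; ring
  obtain ⟨h1, h2⟩ := FamA_chgS hm hodd ht2 htm hS
  refine ladder_family hm hpw ht (FamA_hyp hm ht2 htm) S ?_ ?_ ?_ w
    ((FamA_chg0 hm ht2 htm).trans hw1) (by omega)
  · intro j hj
    rw [hcj, FamA_mem (by omega)]; omega
  · intro i j hij hj
    rw [hcj, hcj]
    intro h
    have := FamA_cast_inj (by omega) (by omega) h
    omega
  · intro j hj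
    have h3 : -(t : ZMod m) = ((m - t : ℕ) : ZMod m) := by
      rw [Nat.cast_sub (by omega)]; simp
    have h4 : (1 : ZMod m) - (t : ZMod m) = ((m + 1 - t : ℕ) : ZMod m) := by
      rw [Nat.cast_sub (by omega)]; simp
    rw [hcj, h3, h4]
    constructor
    · intro h
      have := FamA_cast_inj (by omega) (by omega) h
      omega
    · intro h
      have := FamA_cast_inj (by omega) (by omega) h
      omega

theorem famA {m : ℕ} [NeZero m] (hm : 3 ≤ m) (hodd : Odd m) {K : Type} [Field K] {pw : ZMod m → K}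
    (hpw : PW m K pw) {t : ℕ} (ht : pw (t : ZMod m) = 1 + pw 1) (ht2 : 2 ≤ t) (htm : t < m)
    (w : ℕ) (hw1 : 1 ≤ w) (hw : w ≤ 3 ∨ w + t + t % 2 ≤ m + 1) :
    HasCat (K × ZMod 2) (m + 1 + w) := by
  obtain ⟨k, hk⟩ := id hodd
  rcases hw with hw | hw
  · exact FamA_S hm hodd hpw ht ht2 htm 0 (by omega) w hw1 (Or.inl hw)
  · exact FamA_S hm hodd hpw ht ht2 htm ((m - t - 1) / 2) (by omega) w hw1 (by omega)

end Pool.Agent.H67.CT
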