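import Pool.Agent.H67.CT.Fam

/-!
# FamD: the family `a = t`, `d = gcd t m ≥ 3`

Put `M' = m / d` (`m` odd, so `d`, `M'` are odd; `t < m`, so `d < m` and `M' ≥ 3`).  For `g : ZMod m` let
`res g = g.val % d` (compatible with addition because `d ∣ m`: `res (g + t) = res g`,
`res (g + 1) = (res g + 1) % d`; it may be convenient to use `ZMod.castHom` to `ZMod d`).
Given `w`, let `e = (w - 1) / (2 M')`; `w ≤ m - M' = (d-1) M'` gives `2 e + 3 ≤ d`.
`ladder_family` with `a = t`, `B0 = {0} ∪ {g | res g is odd and 3 ≤ res g ≤ 2 e + 1}`, `c0 = 1`,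
`S = M' - 1`.  `B0 \ {0}` has `e M'` elements (each residue class has `M'` elements).
* `LadHyp B0 1 t t`: `step`: `res (g + t) = res g`, and `g + t ≠ 0`-issues do not arise since
  `g + t` has an odd residue `≥ 3`, so it is in `B0`.  `s1`: `0 ∈ B0`; `s2`: `1 = c`; `n1`: `-t ≠ 0`
  has residue 0; `n2`: `1 - t` has residue 1 (`≠ 0`); `cut`: residue 1.
* `c_j = 1 + j t`, residue 1: `hf`.  `hd`: `i t = j t` in `ZMod m` iff `M' ∣ i - j`, no for
  `i < j ≤ M' - 1`.  `he`: `c_j ≠ -t` (residue); `1 + j t = 1 - t` iff `(j+1) t = 0` iff `M' ∣ j + 1`,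
  no for `j < M' - 1`.
* `chg B0 1 ≤ 2 e M' + 1`: if `g ≠ 1` is counted then `g ∈ B0 \ {0}`, or `g - 1 ∈ B0 \ {0}`, or
  `g = 0`  (`g - 1 = 0` is excluded by `g ≠ 1`).
* `chg B_S c_S ≥ 2 (e M' + S)`: let `B' = B_S \ {0}` (`e M' + S` elements, all of odd residue
  `≤ 2e+1 ≤ d - 2`).  Counted: all `g ∈ B'`, `g ≠ 1` (`g - 1` has an even residue and is not 0, so is
  not in `B_S`; `g ≠ c_S`; `g ≠ c_S + 1` which has residue 2); all `g = x + 1`, `x ∈ B'` (`g` has an even
  residue in `[2, d-1]`, so `g ∉ B_S` and `g ≠ c_S`; `g ≠ c_S + 1`); and `g = 0`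
  (`-1` has residue `d - 1`, even and `≥ 2`, so `-1 ∉ B_S`; `0 ≠ c_S, c_S + 1`).  These are different;
  total `(e M' + S - 1) + (e M' + S) + 1`.
* `w` satisfies `2 e M' + 1 ≤ w ≤ 2 (e + 1) M' = 2 (e M' + S) + 2`.
(Everything checked by computer.)
-/

set_option autoImplicit false

open Finset

namespace Pool.Agent.H67.CT

/-- residues modulo a divisor -/
def FamD_res {m : ℕ} (d : ℕ) (g : ZMod m) : ℕ := g.val % d

theorem FamD_res_nat {m : ℕ} {d : ℕ} (hdm : d ∣ m) (n : ℕ) :
    FamD_res d (n : ZMod m) = n % d := by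
  unfold FamD_res
  rw [ZMod.val_natCast, Nat.mod_mod_of_dvd _ hdm]

theorem FamD_res_add {m : ℕ} [NeZero m] {d : ℕ} (hdm : d ∣ m) (g : ZMod m) (n : ℕ) :
    FamD_res d (g + (n : ZMod m)) = (FamD_res d g + n) % d := by
  have h : g + (n : ZMod m) = ((g.val + n : ℕ) : ZMod m) := by
    push_cast
    rw [ZMod.natCast_zmod_val]
  rw [h, FamD_res_nat hdm]
  unfold FamD_res
  rw [Nat.mod_add_mod]

theorem FamD_res_card {m : ℕ} [NeZero m] {d : ℕ} (hdm : d ∣ m) (r : ℕ) (hr : r < d) :
    (univ.filter (fun g : ZMod m => FamD_res d g = r)).card = m / d := by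
  have h : univ.filter (fun g : ZMod m => FamD_res d g = r)
      = (range (m / d)).image (fun k => ((r + d * k : ℕ) : ZMod m)) := by
    ext g
    simp only [mem_filter, mem_univ, true_and, mem_image, mem_range]
    constructor
    · intro h
      refine ⟨g.val / d, ?_, ?_⟩
      · exact Nat.div_lt_div_of_lt_of_dvd hdm (ZMod.val_lt g)
      · unfold FamD_res at h
        rw [← h, Nat.mod_add_div, ZMod.natCast_zmod_val]
    · rintro ⟨k, hk, rfl⟩
      rw [FamD_res_nat hdm, Nat.add_mul_mod_self_left, Nat.mod_eq_of_lt hr]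
  rw [h, card_image_of_injOn, card_range]
  have hlt : ∀ k < m / d, r + d * k < m := by
    intro k hk
    calc r + d * k < d + d * k := by omega
      _ = d * (k + 1) := by ring
      _ ≤ d * (m / d) := Nat.mul_le_mul_left d hk
      _ = m := Nat.mul_div_cancel' hdm
  intro a ha b hb hab
  have ha' : a < m / d := by simpa using ha
  have hb' : b < m / d := by simpa using hb
  have h1 := congrArg ZMod.val hab
  simp only [ZMod.val_natCast] at h1
  rw [Nat.mod_eq_of_lt (hlt a ha'), Nat.mod_eq_of_lt (hlt b hb')] at h1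
  exact Nat.eq_of_mul_eq_mul_left (by omega) (Nat.add_left_cancel h1)

/-- the odd residues between `3` and `2e+1` -/
def FamD_O (m : ℕ) [NeZero m] (d e : ℕ) : Finset (ZMod m) :=
  univ.filter (fun g : ZMod m => FamD_res d g % 2 = 1 ∧ 3 ≤ FamD_res d g ∧ FamD_res d g ≤ 2 * e + 1)

theorem FamD_mem {m : ℕ} [NeZero m] {d e : ℕ} {g : ZMod m} : g ∈ FamD_O m d e ↔
    FamD_res d g % 2 = 1 ∧ 3 ≤ FamD_res d g ∧ FamD_res d g ≤ 2 * e + 1 := by
  simp [FamD_O]

theorem FamD_card_O {m : ℕ} [NeZero m] {d : ℕ} (hdm : d ∣ m) (e : ℕ) (he : 2 * e + 3 ≤ d) :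
    (FamD_O m d e).card = e * (m / d) := by
  rw [card_eq_sum_card_fiberwise (f := FamD_res d) (t := (range e).image (fun k => 2 * k + 3))]
  · rw [sum_image (by intro a _ b _ hab; simpa using hab)]
    rw [sum_congr rfl (g := fun _ => m / d), sum_const, card_range, smul_eq_mul]
    intro k hk
    have hk' : k < e := by simpa using hk
    rw [← FamD_res_card hdm (2 * k + 3) (by omega)]
    congr 1
    ext g
    simp only [mem_filter, mem_univ, true_and, FamD_mem]
    omega
  · intro g hg
    have h1 := FamD_mem.1 hg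
    simp only [coe_image, coe_range, Set.mem_image, Set.mem_Iio]
    exact ⟨(FamD_res d g - 3) / 2, by omega, by omega⟩

theorem FamD_mul_ne {m t : ℕ} (hm : 0 < m) (n : ℕ) (hn : 0 < n)
    (hn2 : n < m / Nat.gcd t m) : (n : ZMod m) * (t : ZMod m) ≠ 0 := by
  intro h
  have h1 : ((n * t : ℕ) : ZMod m) = 0 := by push_cast; exact h
  rw [ZMod.natCast_eq_zero_iff] at h1
  have hg : 0 < Nat.gcd t m := Nat.gcd_pos_of_pos_right _ hm
  obtain ⟨t', ht'⟩ := Nat.gcd_dvd_left t m
  obtain ⟨M, hM⟩ := Nat.gcd_dvd_right t m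
  have hM2 : m / Nat.gcd t m = M := Nat.div_eq_of_eq_mul_right hg hM
  have hcop : Nat.Coprime t' M := by
    have h2 := Nat.coprime_div_gcd_div_gcd hg
    have h3 : t / Nat.gcd t m = t' := Nat.div_eq_of_eq_mul_right hg ht'
    rwa [h3, hM2] at h2
  have h4 : M ∣ n * t' := by
    have h5 : Nat.gcd t m * M ∣ Nat.gcd t m * (n * t') := by
      have h6 : Nat.gcd t m * (n * t') = n * (Nat.gcd t m * t') := by ring
      rw [← hM, h6, ← ht']
      exact h1
    exact Nat.dvd_of_mul_dvd_mul_left hg h5
  have h7 : M ∣ n := hcop.symm.dvd_of_dvd_mul_right h4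
  have h8 := Nat.le_of_dvd hn h7
  omega

theorem famD {m : ℕ} [NeZero m] (hm : 3 ≤ m) (hodd : Odd m) {K : Type} [Field K] {pw : ZMod m → K}
    (hpw : PW m K pw) {t : ℕ} (ht : pw (t : ZMod m) = 1 + pw 1) (ht2 : 2 ≤ t) (htm : t < m)
    (hd : 3 ≤ Nat.gcd t m) (w : ℕ) (hw1 : 1 ≤ w) (hw : w + m / Nat.gcd t m ≤ m) :
    HasCat (K × ZMod 2) (m + 1 + w) := by
  classical
  have hmul : ∀ n : ℕ, 0 < n → n < m / Nat.gcd t m → (n : ZMod m) * (t : ZMod m) ≠ 0 :=
    fun n h1 h2 => FamD_mul_ne (by omega) n h1 h2
  have hdt : Nat.gcd t m ∣ t := Nat.gcd_dvd_left t m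
  have hdm : Nat.gcd t m ∣ m := Nat.gcd_dvd_right t m
  have hdt' : Nat.gcd t m ≤ t := Nat.le_of_dvd (by omega) hdt
  generalize hdd : Nat.gcd t m = d at *
  have hdM : d * (m / d) = m := Nat.mul_div_cancel' hdm
  have hdodd : d % 2 = 1 := by
    have := Odd.of_dvd_nat hodd hdm
    exact Nat.odd_iff.1 this
  have hModd : (m / d) % 2 = 1 := by
    have : Odd (m / d) := Odd.of_dvd_nat hodd ⟨d, by rw [mul_comm]; exact hdM.symm⟩
    exact Nat.odd_iff.1 this
  generalize hM' : m / d = M at *
  have hM3 : 3 ≤ M := by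
    rcases Nat.lt_or_ge M 3 with h | h
    · exfalso
      have h1 : M = 1 := by omega
      rw [h1, mul_one] at hdM
      omega
    · exact h
  set e := (w - 1) / (2 * M) with he
  have he1 : 2 * M * e ≤ w - 1 := Nat.mul_div_le _ _
  have he2 : w - 1 < 2 * M * (e + 1) := by
    have := Nat.lt_mul_div_succ (w - 1) (b := 2 * M) (by omega)
    simpa using this
  have hed : 2 * e + 3 ≤ d := by
    have h1 : 2 * M * e < (d - 1) * M := by
      have h2 : (d - 1) * M + M = m := by
        obtain ⟨d', rfl⟩ : ∃ d', d = d' + 1 := ⟨d - 1, by omega⟩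
        rw [← hdM]
        simp only [Nat.add_sub_cancel]
        ring
      omega
    have h3 : 2 * e < d - 1 := by
      by_contra hc
      push Not at hc
      have h4 : (d - 1) * M ≤ 2 * e * M := Nat.mul_le_mul_right M hc
      have h5 : 2 * e * M = 2 * M * e := by ring
      omega
    omega
  -- residues
  have r0 : FamD_res d (0 : ZMod m) = 0 := by
    have := FamD_res_nat (m := m) hdm 0
    simpa using this
  have r1 : FamD_res d (1 : ZMod m) = 1 := by
    have := FamD_res_nat (m := m) hdm 1
    rw [Nat.cast_one, Nat.mod_eq_of_lt (by omega)] at this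
    exact this
  have rt : ∀ g : ZMod m, FamD_res d (g + (t : ZMod m)) = FamD_res d g := by
    intro g
    rw [FamD_res_add hdm]
    obtain ⟨k, hk⟩ := hdt
    have h1 : FamD_res d g < d := Nat.mod_lt _ (by omega)
    rw [hk, Nat.add_mul_mod_self_left, Nat.mod_eq_of_lt h1]
  have rlt : ∀ g : ZMod m, FamD_res d g < d := fun g => Nat.mod_lt _ (by omega)
  have rs : ∀ g : ZMod m, FamD_res d (g + 1) = (FamD_res d g + 1) % d := by
    intro g
    have := FamD_res_add hdm g 1
    simpa using this
  have rnt : FamD_res d (-(t : ZMod m)) = 0 := by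
    rw [← rt, neg_add_cancel, r0]
  have r1t : FamD_res d (1 - (t : ZMod m)) = 1 := by
    rw [← rt, sub_add_cancel, r1]
  have rc : ∀ j : ℕ, FamD_res d (1 + (j : ZMod m) * (t : ZMod m)) = 1 := by
    intro j
    induction j with
    | zero => simpa using r1
    | succ j ih =>
      have h1 : 1 + ((j + 1 : ℕ) : ZMod m) * (t : ZMod m)
          = (1 + (j : ZMod m) * (t : ZMod m)) + (t : ZMod m) := by push_cast; ring
      rw [h1, rt, ih]
  have h10 : (1 : ZMod m) ≠ 0 := by
    intro h
    rw [h, r0] at r1
    omega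
  have ht0 : (t : ZMod m) ≠ 0 := hpw.t_ne_zero ht
  have ht1 : (t : ZMod m) ≠ 1 := hpw.t_ne_one ht
  set B0 : Finset (ZMod m) := insert 0 (FamD_O m d e) with hB0
  have h0O : (0 : ZMod m) ∉ FamD_O m d e := by
    intro h
    have := (FamD_mem.1 h).2.1
    rw [r0] at this
    omega
  have hlad : LadHyp B0 1 (t : ZMod m) (t : ZMod m) := by
    refine ⟨mem_insert_self _ _, ?_, ?_, ?_, ?_, ?_, ?_, ht0⟩
    · intro h
      rcases mem_insert.1 h with h | h
      · exact h10 h
      · have := (FamD_mem.1 h).2.1
        rw [r1] at this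
        omega
    · intro g hg hg0
      left
      rcases mem_insert.1 hg with h | h
      · exact absurd h hg0
      · apply mem_insert_of_mem
        rw [FamD_mem, rt]
        exact FamD_mem.1 h
    · left
      rw [sub_self]
      exact mem_insert_self _ _
    · right
      rw [sub_self, zero_add]
    · intro h
      rcases mem_insert.1 h with h | h
      · exact ht0 (neg_eq_zero.1 h)
      · have := (FamD_mem.1 h).2.1
        rw [rnt] at this
        omega
    · intro h
      rcases mem_insert.1 h with h | h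
      · exact ht1 (sub_eq_zero.1 h).symm
      · have := (FamD_mem.1 h).2.1
        rw [r1t] at this
        omega
  have hf : ∀ j ≤ M - 1, 1 + (j : ZMod m) * (t : ZMod m) ∉ B0 := by
    intro j _ h
    rcases mem_insert.1 h with h | h
    · have := rc j
      rw [h, r0] at this
      omega
    · have := (FamD_mem.1 h).2.1
      rw [rc] at this
      omega
  have hdist : ∀ i j : ℕ, i < j → j ≤ M - 1 →
      1 + (i : ZMod m) * (t : ZMod m) ≠ 1 + (j : ZMod m) * (t : ZMod m) := by
    intro i j hij hj h
    apply hmul (j - i) (by omega) (by omega)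
    rw [Nat.cast_sub hij.le, sub_mul]
    rw [sub_eq_zero]
    exact (add_left_cancel h).symm
  have hee : ∀ j < M - 1, 1 + (j : ZMod m) * (t : ZMod m) ≠ -(t : ZMod m) ∧
      1 + (j : ZMod m) * (t : ZMod m) ≠ 1 - (t : ZMod m) := by
    intro j hj
    constructor
    · intro h
      have := rc j
      rw [h, rnt] at this
      omega
    · intro h
      apply hmul (j + 1) (by omega) (by omega)
      have h1 : (j : ZMod m) * (t : ZMod m) = - (t : ZMod m) := by
        have h2 : 1 + (j : ZMod m) * (t : ZMod m) = 1 + (-(t : ZMod m)) := by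
          rw [h]; ring
        exact add_left_cancel h2
      push_cast
      rw [add_mul, h1]
      ring
  refine ladder_family hm hpw ht hlad (M - 1) hf hdist hee w ?_ ?_
  · -- upper bound
    have h1 : univ.filter (fun g : ZMod m => g ≠ 1 ∧ g ≠ 1 + 1 ∧ ¬ (g - 1 ∈ B0 ↔ g ∈ B0))
        ⊆ insert 0 (FamD_O m d e ∪ (FamD_O m d e).image (fun x => x + 1)) := by
      intro g hg
      simp only [mem_filter, mem_univ, true_and] at hg
      obtain ⟨hg1, -, hg3⟩ := hg
      simp only [mem_insert, mem_union, mem_image]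
      by_cases h2 : g ∈ B0
      · rcases mem_insert.1 h2 with h | h
        · exact Or.inl h
        · exact Or.inr (Or.inl h)
      · have h3 : g - 1 ∈ B0 := by
          by_contra hc
          exact hg3 ⟨fun h => absurd h hc, fun h => absurd h h2⟩
        rcases mem_insert.1 h3 with h | h
        · exact absurd (sub_eq_zero.1 h) hg1
        · exact Or.inr (Or.inr ⟨g - 1, h, sub_add_cancel g 1⟩)
    have h2 := card_le_card h1
    have h3 : (insert 0 (FamD_O m d e ∪ (FamD_O m d e).image (fun x => x + 1))).card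
        ≤ (e * M + e * M) + 1 := by
      refine (card_insert_le _ _).trans (Nat.add_le_add_right ((card_union_le _ _).trans ?_) 1)
      have h4 := FamD_card_O (m := m) hdm e hed
      rw [hM'] at h4
      have h5 : ((FamD_O m d e).image (fun x => x + 1)).card ≤ (FamD_O m d e).card := card_image_le
      omega
    unfold chg
    have h6 : 2 * M * e = e * M + e * M := by ring
    omega
  · -- lower bound
    set cS : ZMod m := 1 + ((M - 1 : ℕ) : ZMod m) * (t : ZMod m) with hcS
    set Q : Finset (ZMod m) := (range (M - 1)).image (fun j : ℕ => 1 + (j : ZMod m) * (t : ZMod m))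
      with hQ
    have hQmem : ∀ g, g ∈ Q ↔ ∃ j < M - 1, 1 + (j : ZMod m) * (t : ZMod m) = g := by
      intro g
      simp [hQ]
    have hQr : ∀ g ∈ Q, FamD_res d g = 1 := by
      intro g hg
      obtain ⟨j, -, rfl⟩ := (hQmem g).1 hg
      exact rc j
    have hQc : Q.card = M - 1 := by
      rw [hQ, card_image_of_injOn, card_range]
      intro i hi j hj hij
      have hi' : i < M - 1 := by simpa using hi
      have hj' : j < M - 1 := by simpa using hj
      rcases lt_trichotomy i j with h | h | h
      · exact absurd hij (hdist i j h hj'.le)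
      · exact h
      · exact absurd hij.symm (hdist j i h hi'.le)
    have h1Q : (1 : ZMod m) ∈ Q := (hQmem 1).2 ⟨0, by omega, by simp⟩
    set B' : Finset (ZMod m) := FamD_O m d e ∪ Q with hB'
    have hB'r : ∀ g ∈ B', FamD_res d g % 2 = 1 ∧ FamD_res d g ≤ 2 * e + 1 := by
      intro g hg
      rcases mem_union.1 hg with h | h
      · exact ⟨(FamD_mem.1 h).1, (FamD_mem.1 h).2.2⟩
      · rw [hQr g h]
        omega
    have hB'c : B'.card = e * M + (M - 1) := by
      rw [hB', card_union_of_disjoint, hQc, FamD_card_O hdm e hed, hM']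
      rw [disjoint_left]
      intro g h1 h2
      have h3 := (FamD_mem.1 h1).2.1
      rw [hQr g h2] at h3
      omega
    have hBS : B0 ∪ Q = insert 0 B' := by
      rw [hB0, hB', insert_union]
    have hcB' : cS ∉ B' := by
      intro h
      rcases mem_union.1 h with h | h
      · exact hf (M - 1) le_rfl (mem_insert_of_mem h)
      · obtain ⟨j, hj, hj2⟩ := (hQmem _).1 h
        exact hdist j (M - 1) hj le_rfl hj2
    have hcSr : FamD_res d cS = 1 := rc _
    have hcS1r : FamD_res d (cS + 1) = 2 := by
      rw [rs, hcSr, Nat.mod_eq_of_lt (by omega)]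
    have rsB : ∀ x ∈ B', FamD_res d (x + 1) = FamD_res d x + 1 := by
      intro x hx
      rw [rs, Nat.mod_eq_of_lt]
      have := (hB'r x hx).2
      omega
    have hsub : insert 0 ((B'.erase 1) ∪ B'.image (fun x => x + 1))
        ⊆ univ.filter (fun g : ZMod m => g ≠ cS ∧ g ≠ cS + 1 ∧
          ¬ (g - 1 ∈ B0 ∪ Q ↔ g ∈ B0 ∪ Q)) := by
      intro g hg
      simp only [mem_filter, mem_univ, true_and]
      rw [hBS]
      rcases mem_insert.1 hg with h | h
      · subst h
        refine ⟨?_, ?_, ?_⟩
        · intro h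
          rw [← h, r0] at hcSr
          omega
        · intro h
          rw [← h, r0] at hcS1r
          omega
        · intro h
          have h1 : (0 : ZMod m) - 1 ∈ insert 0 B' := h.2 (mem_insert_self _ _)
          have h2 := rs (0 - 1 : ZMod m)
          rw [sub_add_cancel, r0] at h2
          have h3 := rlt (0 - 1 : ZMod m)
          have h4 : FamD_res d (0 - 1 : ZMod m) + 1 = d := by
            rcases Nat.lt_or_ge (FamD_res d (0 - 1 : ZMod m) + 1) d with h5 | h5
            · rw [Nat.mod_eq_of_lt h5] at h2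
              omega
            · omega
          rcases mem_insert.1 h1 with h5 | h5
          · rw [h5, r0] at h4
            omega
          · have := hB'r _ h5
            omega
      · rcases mem_union.1 h with h | h
        · have hg1 : g ≠ 1 := ne_of_mem_erase h
          have hgB : g ∈ B' := mem_of_mem_erase h
          have hgr := hB'r g hgB
          refine ⟨?_, ?_, ?_⟩
          · rintro rfl
            exact hcB' hgB
          · rintro rfl
            rw [hcS1r] at hgr
            omega
          · intro h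
            have h1 : g - 1 ∈ insert 0 B' := h.2 (mem_insert_of_mem hgB)
            rcases mem_insert.1 h1 with h2 | h2
            · exact hg1 (sub_eq_zero.1 h2)
            · have h3 := rsB _ h2
              rw [sub_add_cancel] at h3
              have h4 := hB'r _ h2
              omega
        · obtain ⟨x, hx, rfl⟩ := mem_image.1 h
          have hxr := hB'r x hx
          have hx1 := rsB x hx
          refine ⟨?_, ?_, ?_⟩
          · intro h
            rw [h, hcSr] at hx1
            omega
          · intro h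
            exact hcB' ((add_right_cancel h) ▸ hx)
          · intro h
            have h1 : x + 1 ∈ insert 0 B' := h.1 (by
              rw [add_sub_cancel_right]
              exact mem_insert_of_mem hx)
            rcases mem_insert.1 h1 with h2 | h2
            · rw [h2, r0] at hx1
              omega
            · have h4 := hB'r _ h2
              omega
    have hcard := card_le_card hsub
    have hdisj : Disjoint (B'.erase 1) (B'.image (fun x => x + 1)) := by
      rw [disjoint_left]
      intro g h1 h2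
      obtain ⟨x, hx, rfl⟩ := mem_image.1 h2
      have h3 := hB'r _ (mem_of_mem_erase h1)
      have h4 := hB'r x hx
      have h5 := rsB x hx
      omega
    have h0n : (0 : ZMod m) ∉ (B'.erase 1) ∪ B'.image (fun x => x + 1) := by
      intro h
      rcases mem_union.1 h with h | h
      · have h3 := hB'r _ (mem_of_mem_erase h)
        rw [r0] at h3
        omega
      · obtain ⟨x, hx, hx2⟩ := mem_image.1 h
        have h5 := rsB x hx
        rw [hx2, r0] at h5
        omega
    rw [card_insert_of_notMem h0n, card_union_of_disjoint hdisj,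
      card_erase_of_mem (mem_union_right _ h1Q), card_image_of_injective _ (add_left_injective 1),
      hB'c] at hcard
    unfold chg
    refine le_trans ?_ (Nat.add_le_add_right hcard 2)
    have h6 : 2 * M * (e + 1) = e * M + e * M + 2 * M := by ring
    omega

end Pool.Agent.H67.CT
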