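import Pool.Agent.H67.CT.Fam

/-!
# FamU: the family `a = t`, `t` a unit modulo `m` with inverse `h`

`ladder_family` with `a = t`, `B0 = {0}`, `c0 = 1`, `S = min h (m - h) - 1`.
In `ZMod m`: `t h = 1`; so `x t = y` iff `x = y h`.
* `LadHyp {0} 1 t t`: `step` vacuous; `s1`: `t - t = 0`; `s2`: `t - t + 1 = 1 = c`; `n1`: `-t ≠ 0`; `n2`:
  `1 - t ≠ 0` (`PW.t_ne_zero`, `PW.t_ne_one`, or from `t h = 1`, `2 ≤ h < m`); `cut`: `1 ≠ 0`.
* `hf`: `1 + j t = 0` iff `j = -h = m - h`; `j ≤ S < m - h`.  `hd`: `i t = j t` iff `i = j`.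
  `he` (`j < S`): `1 + j t = -t` iff `(j+1) t = -1` iff `j + 1 = m - h`, no; `1 + j t = 1 - t` iff
  `(j+1) t = 0`, no.
* `chg {0} 1 ≤ 1`: only `g = 0` (`g ≠ 1` is required).
* `chg B_S c_S ≥ 2 S - 2`, `B_S = {0} ∪ {1 + j t : j < S}`, `c_S = 1 + S t`:
  (i) `g = 1 + j t`, `1 ≤ j ≤ S - 1`: `g ∈ B_S`; `g - 1 = j t ∉ B_S` (`j t = 0` no; `j t = 1 + i t` iff
  `j - i = h` in `ZMod m`, impossible for `0 ≤ i, j < S < min h (m-h)`); `g ≠ c_S`;
  `g ≠ c_S + 1` (`1 + j t = 2 + S t` iff `(S - j) t = -1` iff `S - j = m - h`, no).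
  (ii) `g = 2 + j t`, `0 ≤ j ≤ S - 1`, with `g ≠ 0` (this excludes at most one `j`): `g - 1 ∈ B_S`,
  `g ∉ B_S` (`2 + j t = 1 + i t` iff `i - j = h`, no); `g ≠ c_S` (`2 + j t = 1 + S t` iff `S - j = h`,
  no as `1 ≤ S - j ≤ S < h`); `g ≠ c_S + 1`.
  (i) and (ii) are disjoint (`g ∈ B_S` or not), so at least `(S - 1) + (S - 1)`.
(Everything checked by computer.)
-/

set_option autoImplicit false

open Finset

namespace Pool.Agent.H67.CT

theorem FamU_cast_inj {m x y : ℕ} (hx : x < m) (hy : y < m)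
    (h : ((x : ℕ) : ZMod m) = ((y : ℕ) : ZMod m)) : x = y := by
  rw [← ZMod.val_natCast_of_lt hx, ← ZMod.val_natCast_of_lt hy, h]

theorem FamU_chgS {m : ℕ} [NeZero m] (hm : 3 ≤ m) {t h S : ℕ}
    (hth : (t : ZMod m) * (h : ZMod m) = 1) (hh : 2 ≤ h) (hS1 : S + 1 ≤ h)
    (hS2 : S + 1 + h ≤ m) :
    2 * S ≤ chg ({0} ∪ (range S).image (fun j : ℕ => (1 : ZMod m) + (j : ZMod m) * (t : ZMod m)))
      ((1 : ZMod m) + (S : ZMod m) * (t : ZMod m)) + 2 := by
  set τ : ZMod m := (t : ZMod m) with hτ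
  set η : ZMod m := (h : ZMod m) with hη
  set B : Finset (ZMod m) := {0} ∪ (range S).image (fun j : ℕ => (1 : ZMod m) + (j : ZMod m) * τ)
    with hB
  have hBm : ∀ g, g ∈ B ↔ g = 0 ∨ ∃ j < S, (1 : ZMod m) + (j : ZMod m) * τ = g := by
    intro g
    rw [hB, mem_union, mem_singleton, mem_image]
    simp only [mem_range]
  set F := univ.filter (fun g : ZMod m => g ≠ (1 : ZMod m) + (S : ZMod m) * τ ∧
    g ≠ (1 : ZMod m) + (S : ZMod m) * τ + 1 ∧ ¬ (g - 1 ∈ B ↔ g ∈ B)) with hF
  have hchg : chg B ((1 : ZMod m) + (S : ZMod m) * τ) = F.card := rfl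
  rw [hchg]
  -- i τ = j τ
  have k0 : ∀ i j : ℕ, i < m → j < m → (i : ZMod m) * τ = (j : ZMod m) * τ → i = j := by
    intro i j hi hj hij
    apply FamU_cast_inj hi hj
    have : (i : ZMod m) * τ * η = (j : ZMod m) * τ * η := by rw [hij]
    rw [mul_assoc, mul_assoc, hth, mul_one, mul_one] at this
    exact this
  -- j τ = 1 + i τ
  have k1 : ∀ i j : ℕ, h + i < m → j < m → (j : ZMod m) * τ = 1 + (i : ZMod m) * τ →
      j = h + i := by
    intro i j hi hj hij
    apply FamU_cast_inj hj hi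
    have : (j : ZMod m) * τ * η = (1 + (i : ZMod m) * τ) * η := by rw [hij]
    rw [mul_assoc, hth, mul_one, add_mul, one_mul, mul_assoc, hth, mul_one] at this
    rw [this]; push_cast; rfl
  set F1 := (Ico 1 S).image (fun j : ℕ => (1 : ZMod m) + (j : ZMod m) * τ) with hF1
  set F2 := ((range S).image (fun j : ℕ => (2 : ZMod m) + (j : ZMod m) * τ)).erase 0 with hF2
  have hF1B : ∀ g ∈ F1, g ∈ B := by
    intro g hg
    rw [hF1, mem_image] at hg
    obtain ⟨j, hj, rfl⟩ := hg
    rw [mem_Ico] at hj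
    rw [hBm]; exact Or.inr ⟨j, hj.2, rfl⟩
  have hF2B : ∀ g ∈ F2, g ∉ B := by
    intro g hg hgB
    rw [hF2, mem_erase, mem_image] at hg
    obtain ⟨hg0, j, hj, rfl⟩ := hg
    rw [mem_range] at hj
    rw [hBm] at hgB
    rcases hgB with h1 | ⟨i, hi, h1⟩
    · exact hg0 h1
    · have := k1 j i (by omega) (by omega) (by linear_combination h1)
      omega
  have hdis : Disjoint F1 F2 := by
    rw [Finset.disjoint_left]
    intro g h1 h2
    exact hF2B g h2 (hF1B g h1)
  have hsub : F1 ∪ F2 ⊆ F := by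
    intro g hg
    rw [hF, mem_filter]
    rw [mem_union] at hg
    rcases hg with hg | hg
    · have hgB := hF1B g hg
      rw [hF1, mem_image] at hg
      obtain ⟨j, hj, rfl⟩ := hg
      rw [mem_Ico] at hj
      refine ⟨mem_univ _, ?_, ?_, ?_⟩
      · intro h1
        have := k0 j S (by omega) (by omega) (by linear_combination h1)
        omega
      · intro h1
        have := k1 S j (by omega) (by omega) (by linear_combination h1)
        omega
      · intro h1
        have h2 := h1.2 hgB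
        rw [hBm] at h2
        rcases h2 with h2 | ⟨i, hi, h2⟩
        · have := k0 j 0 (by omega) (by omega) (by push_cast; linear_combination h2)
          omega
        · have := k1 i j (by omega) (by omega) (by linear_combination -h2)
          omega
    · have hgB := hF2B g hg
      rw [hF2, mem_erase, mem_image] at hg
      obtain ⟨hg0, j, hj, rfl⟩ := hg
      rw [mem_range] at hj
      refine ⟨mem_univ _, ?_, ?_, ?_⟩
      · intro h1
        have := k1 j S (by omega) (by omega) (by linear_combination -h1)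
        omega
      · intro h1
        have := k0 j S (by omega) (by omega) (by linear_combination h1)
        omega
      · intro h1
        apply hgB
        apply h1.1
        rw [hBm]
        exact Or.inr ⟨j, hj, by ring⟩
  have hc1 : F1.card = S - 1 := by
    rw [hF1, card_image_of_injOn, Nat.card_Ico]
    intro a ha b hb hab
    rw [mem_coe, mem_Ico] at ha hb
    exact k0 a b (by omega) (by omega) (by linear_combination hab)
  have hc2 : S - 1 ≤ F2.card := by
    have h1 : ((range S).image (fun j : ℕ => (2 : ZMod m) + (j : ZMod m) * τ)).card = S := by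
      rw [card_image_of_injOn, card_range]
      intro a ha b hb hab
      rw [mem_coe, mem_range] at ha hb
      exact k0 a b (by omega) (by omega) (by linear_combination hab)
    have h2 := pred_card_le_card_erase
      (s := (range S).image (fun j : ℕ => (2 : ZMod m) + (j : ZMod m) * τ)) (a := 0)
    rw [h1] at h2
    exact h2
  have h3 := card_le_card hsub
  rw [card_union_of_disjoint hdis, hc1] at h3
  omega

theorem famU {m : ℕ} [NeZero m] (hm : 3 ≤ m) {K : Type} [Field K] {pw : ZMod m → K}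
    (hpw : PW m K pw) {t h : ℕ} (ht : pw (t : ZMod m) = 1 + pw 1) (ht2 : 2 ≤ t) (htm : t < m)
    (hh : 2 ≤ h) (hhm : h < m) (hth : t * h % m = 1) (w : ℕ) (hw1 : 1 ≤ w)
    (hw : w + 2 ≤ 2 * min h (m - h)) : HasCat (K × ZMod 2) (m + 1 + w) := by
  obtain ⟨S, hSmin, hS1, hS2⟩ : ∃ S, min h (m - h) = S + 1 ∧ S + 1 ≤ h ∧ S + 1 + h ≤ m :=
    ⟨min h (m - h) - 1, by omega, by omega, by omega⟩
  have hth' : (t : ZMod m) * (h : ZMod m) = 1 := by
    rw [← Nat.cast_mul, ← ZMod.natCast_mod, hth, Nat.cast_one]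
  have hne1 : Nontrivial (ZMod m) := by
    have : Fact (1 < m) := ⟨by omega⟩
    infer_instance
  have hchg := FamU_chgS hm hth' hh hS1 hS2
  set τ : ZMod m := (t : ZMod m) with hτ
  set η : ZMod m := (h : ZMod m) with hη
  have hτ0 : τ ≠ 0 := hpw.t_ne_zero ht
  have hτ1 : τ ≠ 1 := hpw.t_ne_one ht
  have hlad : LadHyp ({0} : Finset (ZMod m)) 1 τ τ := by
    refine ⟨by simp, by simp, ?_, by simp, by simp, ?_, ?_, hτ0⟩
    · intro g hg hg0
      exact (hg0 (mem_singleton.1 hg)).elim
    · simp [hτ0]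
    · rw [mem_singleton]
      intro h1
      exact hτ1 (by linear_combination -h1)
  have k0 : ∀ i j : ℕ, i < m → j < m → (i : ZMod m) * τ = (j : ZMod m) * τ → i = j := by
    intro i j hi hj hij
    apply FamU_cast_inj hi hj
    have : (i : ZMod m) * τ * η = (j : ZMod m) * τ * η := by rw [hij]
    rw [mul_assoc, mul_assoc, hth', mul_one, mul_one] at this
    exact this
  -- 1 + j τ = - i τ
  have k2 : ∀ i j : ℕ, h + j + i < m → (1 : ZMod m) + (j : ZMod m) * τ + (i : ZMod m) * τ ≠ 0 := by
    intro i j hi hij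
    have : (1 + (j : ZMod m) * τ + (i : ZMod m) * τ) * η = 0 := by rw [hij, zero_mul]
    have h2 : ((h + j + i : ℕ) : ZMod m) = ((0 : ℕ) : ZMod m) := by
      push_cast
      linear_combination this - ((j : ZMod m) + i) * hth'
    have := FamU_cast_inj hi (by omega) h2
    omega
  refine ladder_family hm hpw ht hlad S ?_ ?_ ?_ w ?_ (by omega)
  · intro j hj
    rw [mem_singleton]
    intro h1
    exact k2 0 j (by omega) (by push_cast; linear_combination h1)
  · intro i j hij hj h1
    have := k0 i j (by omega) (by omega) (by linear_combination h1)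
    omega
  · intro j hj
    constructor
    · intro h1
      exact k2 1 j (by omega) (by push_cast; linear_combination h1)
    · intro h1
      have h2 : ((j + 1 : ℕ) : ZMod m) * τ = ((0 : ℕ) : ZMod m) * τ := by
        push_cast; linear_combination h1
      have := k0 (j + 1) 0 (by omega) (by omega) h2
      omega
  · refine le_trans ?_ hw1
    unfold chg
    have hsub : univ.filter (fun g : ZMod m => g ≠ 1 ∧ g ≠ 1 + 1 ∧
        ¬ (g - 1 ∈ ({0} : Finset (ZMod m)) ↔ g ∈ ({0} : Finset (ZMod m)))) ⊆ {0} := by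
      intro g hg
      rw [mem_filter, mem_singleton, mem_singleton] at hg
      rw [mem_singleton]
      obtain ⟨_, h1, _, h3⟩ := hg
      by_contra h4
      apply h3
      constructor
      · intro h5; exact (h1 (by linear_combination h5)).elim
      · intro h5; exact (h4 h5).elim
    exact (card_le_card hsub).trans (by simp)

end Pool.Agent.H67.CT
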