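import Pool.Agent.H67.CT.Path

/-!
# Emb: copying a labelled caterpillar into a host

`N` is a rooted spine of the host (parent function `p`, root `r`) with as many elements as the spine
of the labelled caterpillar `s`, and `lf w ∉ N` is a child of `w` for every `w ∈ N`.

Proof.  Let `e : ℕ → X`, `e' : ℕ → V` be the enumerations (`RSp.enum` for `s.rsp` and `h`), both on
`i < I`.  Define `Φ : X → V`: for `x ∈ s.Sp`, `x = e i`, put `Φ x = e' i`; for `x ∉ s.Sp` put
`Φ x = lf (Φ (s.P x))` (`s.P x ∈ s.Sp`).  Then `Φ ρ = r` (`e 0 = ρ`, `e' 0 = r`, injectivity),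
`p (Φ x) = Φ (s.P x)` for all `x` (for `x = e (i+1)`: both sides are `e' i`; `x = ρ`: `p r = r`;
`x ∉ Sp`: `hlf`), `Φ` is injective: on the spine by `enum`, a leaf goes outside `N` and a spine vertex
into `N`, and for two leaves `Φ x = Φ y` gives `Φ (P x) = p (Φ x) = p (Φ y) = Φ (P y)`, so
`P x = P y` and `x = y` by `injLf`.
`E := univ.image Φ`; `N ⊆ E` (every element of `N` is `e' i = Φ (e i)`),
`E ⊆ N ∪ N.image lf`, `E.card = card X = card J`.
Labelling: `g (Φ x) = s.f x + s.f ρ` (choose an inverse of `Φ` on `E`; outside `E` put 0).  `g r = 0`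
by `hJ`; injective on `E`; `E.image g = univ` by cardinality, and
`g (Φ x) + g (p (Φ x)) = s.f x + s.f (s.P x)` (`hJ`), equal to 0 for `x = ρ`, nonzero for `x ≠ ρ`
(`s.f` injective and `P x ≠ x` since the rank drops) and injective on `x ≠ ρ` by `s.lab`; so
`x ↦ g (Φ x) + g (p (Φ x))` is injective on `X` and its image is `univ` too.
-/

set_option autoImplicit false

open Finset

namespace Pool.Agent.H67.CT

open Pool.Agent.H57.SS

/-- The embedding. -/
theorem Emb_map {X J : Type} [AddCommGroup J] [DecidableEq X] {I : ℕ} (s : CatStr X J I)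
    {V : Type*} [DecidableEq V] {p : V → V} {r : V} {N : Finset V} {rk : V → ℕ}
    (h : RSp p r N rk) (hN : N.card = I) (lf : V → V) (hlf : ∀ w ∈ N, p (lf w) = w ∧ lf w ∉ N) :
    ∃ Φ : X → V, Function.Injective Φ ∧ Φ s.ρ = r ∧ (∀ x, p (Φ x) = Φ (s.P x)) ∧
      (∀ x ∈ s.Sp, Φ x ∈ N) ∧ (∀ x, x ∉ s.Sp → Φ x ∈ N.image lf) ∧ ∀ w ∈ N, ∃ x, Φ x = w := by
  classical
  obtain ⟨e, he0, heP, heS, heI, heJ⟩ := s.rsp.enum
  obtain ⟨e', he0', heP', heS', heI', heJ'⟩ := h.enum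
  rw [s.card] at heP heS heI heJ
  rw [hN] at heP' heS' heI' heJ'
  -- index function on the spine
  have hidx : ∀ x, ∃ i, x ∈ s.Sp → i < I ∧ e i = x := by
    intro x
    by_cases hx : x ∈ s.Sp
    · obtain ⟨i, h1, h2⟩ := heJ x hx
      exact ⟨i, fun _ => ⟨h1, h2⟩⟩
    · exact ⟨0, fun h => (hx h).elim⟩
  choose ι hι using hidx
  let Ψ : X → V := fun x => e' (ι x)
  have hΨN : ∀ x ∈ s.Sp, Ψ x ∈ N := fun x hx => heS' _ (hι x hx).1
  have hΨi : ∀ x ∈ s.Sp, ∀ y ∈ s.Sp, Ψ x = Ψ y → x = y := by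
    intro x hx y hy hxy
    have h1 := heI' _ (hι x hx).1 _ (hι y hy).1 hxy
    rw [← (hι x hx).2, ← (hι y hy).2, h1]
  have hIpos : 0 < I := (Nat.zero_le _).trans_lt (hι s.ρ s.root).1
  have hιρ : ι s.ρ = 0 := by
    apply heI _ (hι s.ρ s.root).1 _ hIpos
    rw [(hι s.ρ s.root).2, he0]
  have hΨρ : Ψ s.ρ = r := by
    show e' (ι s.ρ) = r
    rw [hιρ, he0']
  have hΨP : ∀ x ∈ s.Sp, p (Ψ x) = Ψ (s.P x) := by
    intro x hx
    by_cases hxρ : x = s.ρ
    · rw [hxρ, s.Pρ, hΨρ, h.Pρ]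
    · obtain ⟨h1, h2⟩ := hι x hx
      obtain ⟨j, hj⟩ : ∃ j, ι x = j + 1 := by
        rcases Nat.eq_zero_or_pos (ι x) with h0 | h0
        · exfalso; apply hxρ
          rw [← h2, h0, he0]
        · exact ⟨ι x - 1, by omega⟩
      rw [hj] at h1 h2
      have h3 : s.P x = e j := by rw [← h2, heP j h1]
      have h4 : ι (s.P x) = j := by
        apply heI _ (hι _ (s.PSp x)).1 _ (by omega)
        rw [(hι _ (s.PSp x)).2, h3]
      show p (e' (ι x)) = e' (ι (s.P x))
      rw [h4, hj, heP' j h1]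
  let Φ : X → V := fun x => if x ∈ s.Sp then Ψ x else lf (Ψ (s.P x))
  have hΦ1 : ∀ x ∈ s.Sp, Φ x = Ψ x := fun x hx => by simp [Φ, hx]
  have hΦ2 : ∀ x, x ∉ s.Sp → Φ x = lf (Ψ (s.P x)) := fun x hx => by simp [Φ, hx]
  have hlfP : ∀ x, p (lf (Ψ (s.P x))) = Ψ (s.P x) ∧ lf (Ψ (s.P x)) ∉ N :=
    fun x => hlf _ (hΨN _ (s.PSp x))
  refine ⟨Φ, ?_, ?_, ?_, ?_, ?_, ?_⟩
  · intro x y hxy
    by_cases hx : x ∈ s.Sp
    · by_cases hy : y ∈ s.Sp
      · rw [hΦ1 x hx, hΦ1 y hy] at hxy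
        exact hΨi x hx y hy hxy
      · rw [hΦ1 x hx, hΦ2 y hy] at hxy
        exact ((hlfP y).2 (hxy ▸ hΨN x hx)).elim
    · by_cases hy : y ∈ s.Sp
      · rw [hΦ2 x hx, hΦ1 y hy] at hxy
        exact ((hlfP x).2 (hxy ▸ hΨN y hy)).elim
      · rw [hΦ2 x hx, hΦ2 y hy] at hxy
        apply s.injLf x y hx hy
        apply hΨi _ (s.PSp x) _ (s.PSp y)
        rw [← (hlfP x).1, ← (hlfP y).1, hxy]
  · rw [hΦ1 _ s.root, hΨρ]
  · intro x
    rw [hΦ1 _ (s.PSp x)]
    by_cases hx : x ∈ s.Sp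
    · rw [hΦ1 x hx]
      exact hΨP x hx
    · rw [hΦ2 x hx]
      exact (hlfP x).1
  · intro x hx
    rw [hΦ1 x hx]; exact hΨN x hx
  · intro x hx
    rw [hΦ2 x hx]; exact mem_image_of_mem lf (hΨN _ (s.PSp x))
  · intro w hw
    obtain ⟨i, hi, hiw⟩ := heJ' w hw
    refine ⟨e i, ?_⟩
    rw [hΦ1 _ (heS i hi)]
    show e' (ι (e i)) = w
    have h1 : ι (e i) = i := heI _ (hι _ (heS i hi)).1 _ hi (hι _ (heS i hi)).2
    rw [h1, hiw]

theorem plab_of_cat {X J : Type} [AddCommGroup J] [DecidableEq J] [Fintype J] [Fintype X]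
    [DecidableEq X] {I : ℕ} (s : CatStr X J I) (hJ : ∀ x : J, x + x = 0) {V : Type*}
    [DecidableEq V] {p : V → V} {r : V} {N : Finset V} {rk : V → ℕ} (h : RSp p r N rk)
    (hN : N.card = I) (lf : V → V) (hlf : ∀ w ∈ N, p (lf w) = w ∧ lf w ∉ N) :
    ∃ E : Finset V, N ⊆ E ∧ E ⊆ N ∪ N.image lf ∧ E.card = Fintype.card J ∧ PLab p r E J := by
  classical
  obtain ⟨Φ, hΦi, hΦρ, hΦP, hΦN, hΦL, hΦs⟩ := Emb_map s h hN lf hlf
  have hcard : Fintype.card X = Fintype.card J := Fintype.card_of_bijective s.bij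
  refine ⟨univ.image Φ, ?_, ?_, ?_, ?_⟩
  · intro w hw
    obtain ⟨x, hx⟩ := hΦs w hw
    exact mem_image.2 ⟨x, mem_univ _, hx⟩
  · intro w hw
    obtain ⟨x, _, rfl⟩ := mem_image.1 hw
    rw [mem_union]
    by_cases hx : x ∈ s.Sp
    · exact Or.inl (hΦN x hx)
    · exact Or.inr (hΦL x hx)
  · rw [card_image_of_injective _ hΦi, card_univ, hcard]
  · -- the labelling
    let g : V → J := fun v => if hv : ∃ x, Φ x = v then s.f hv.choose + s.f s.ρ else 0
    have hg : ∀ x, g (Φ x) = s.f x + s.f s.ρ := by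
      intro x
      have hv : ∃ y, Φ y = Φ x := ⟨x, rfl⟩
      have h1 : hv.choose = x := hΦi hv.choose_spec
      simp only [g, dif_pos hv, h1]
    have hinj1 : Function.Injective (fun x => g (Φ x)) := by
      intro x y hxy
      simp only [hg] at hxy
      exact s.bij.1 (add_right_cancel hxy)
    have hPne : ∀ x, x ≠ s.ρ → s.P x ≠ x := by
      intro x hx hP
      have := s.rkP x hx
      rw [hP] at this
      exact lt_irrefl _ this
    have hval : ∀ x, g (Φ x) + g (p (Φ x)) = s.f x + s.f (s.P x) := by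
      intro x
      rw [hΦP x, hg, hg]
      have := hJ (s.f s.ρ)
      calc s.f x + s.f s.ρ + (s.f (s.P x) + s.f s.ρ)
          = s.f x + s.f (s.P x) + (s.f s.ρ + s.f s.ρ) := by abel
        _ = s.f x + s.f (s.P x) := by rw [this, add_zero]
    have hρ0 : s.f s.ρ + s.f (s.P s.ρ) = 0 := by rw [s.Pρ, hJ]
    have hne0 : ∀ x, x ≠ s.ρ → s.f x + s.f (s.P x) ≠ 0 := by
      intro x hx h0
      apply hPne x hx
      apply s.bij.1
      have h1 : s.f x + s.f (s.P x) = s.f x + s.f x := by rw [h0, hJ]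
      exact add_left_cancel h1
    have hinj2 : Function.Injective (fun x => g (Φ x) + g (p (Φ x))) := by
      intro x y hxy
      simp only [hval] at hxy
      by_cases hx : x = s.ρ
      · by_cases hy : y = s.ρ
        · rw [hx, hy]
        · exfalso
          rw [hx, hρ0] at hxy
          exact hne0 y hy hxy.symm
      · by_cases hy : y = s.ρ
        · exfalso
          rw [hy, hρ0] at hxy
          exact hne0 x hx hxy
        · exact s.lab x y hx hy hxy
    refine ⟨g, ?_, ?_, ?_⟩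
    · rw [← hΦρ, hg, hJ]
    · intro a ha b hb hab
      rw [mem_coe, mem_image] at ha hb
      obtain ⟨x, _, rfl⟩ := ha
      obtain ⟨y, _, rfl⟩ := hb
      rw [hinj1 hab]
    · have h1 : ∀ F : V → J, Function.Injective (fun x => F (Φ x)) →
          (univ.image Φ).image F = univ := by
        intro F hF
        rw [image_image, ← card_eq_iff_eq_univ]
        rw [show (F ∘ Φ) = (fun x => F (Φ x)) from rfl, card_image_of_injective _ hF, card_univ,
          hcard]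
      rw [h1 (fun v => g v + g (p v)) hinj2, h1 g hinj1]

end Pool.Agent.H67.CT
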