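import Pool.Agent.H67.CT.Path

/-!
# Host: an odd caterpillar rooted at an end of its spine

`N` = the set of non-leaves.  Proof.
* Root: take `u` any vertex and `r ∈ N` with `T.dist u r` maximal on `N` (`exists_max_image`).  Every
  non-leaf neighbour `w` of `r` has `w = par hT u r` (else `adj_iff_par hT u` gives `par hT u w = r`,
  `w ≠ u`, so `T.dist u w = T.dist u r + 1` by `dist_par`, contradiction to maximality; `w ∈ N`).  So
  `r` has at most one non-leaf neighbour.
* Now root at `r`, `p = par hT r`.  `degree (p v) ≠ 1` for every `v`: if `p v = r` this is the choice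
  of `r`; otherwise `card_children hT r (p v)` (Tree.lean): `p v` has the child `v`, so its degree is at
  least 2.  (`p r = r`: `par_root`.)
* `RSp`: `PSp` from the previous point, `rkP` from `dist_par`; `inj`: let `x, y ∈ N` be different from
  `r` with `p x = p y = w`, `x ≠ y`.  Both are non-leaf neighbours of `w` (`adj_par`).  If `w = r`:
  contradiction (at most one).  If `w ≠ r` then `p w` is a third non-leaf neighbour of `w`
  (`p w ≠ x, y` because of the distances `dist_par`), contradiction to `hcat w`.
* Leaf children: for `w ∈ N`, `w ≠ r`: the number of children of `w` is `degree w - 1`, even and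
  `≥ 2` (`two_le_children` in Core.lean), at most one of them is a non-leaf (by `inj`; children of `w`
  are `≠ r` because `p r = r ≠ w`), so there is a leaf child.  For `r`: `degree r` is odd and `≠ 1`, so
  `≥ 3`; all neighbours `v` of `r` satisfy `p v = r` (`adj_iff_par`), at most one is a non-leaf, so there
  are two leaf children.
-/

set_option autoImplicit false

open Finset

namespace Pool.Agent.H67.CT

open Pool.Agent.H57.SS

theorem exists_host {V : Type*} [Fintype V] [DecidableEq V] {T : SimpleGraph V}
    [DecidableRel T.Adj] (hT : T.IsTree) (hodd : ∀ v, Odd (T.degree v))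
    (hcat : ∀ v, (univ.filter (fun w => T.Adj v w ∧ T.degree w ≠ 1)).card ≤ 2)
    (hne : ∃ v, T.degree v ≠ 1) :
    ∃ r : V, RSp (par hT r) r (univ.filter (fun v => T.degree v ≠ 1)) (fun v => T.dist r v) ∧
      (∀ v, T.degree (par hT r v) ≠ 1) ∧
      ∃ (lf : V → V) (l' : V),
        (∀ w, T.degree w ≠ 1 → par hT r (lf w) = w ∧ T.degree (lf w) = 1) ∧
        par hT r l' = r ∧ T.degree l' = 1 ∧ l' ≠ lf r := by
  classical
  obtain ⟨u, hu⟩ := hne
  obtain ⟨r, hr, hmax⟩ := exists_max_image (univ.filter (fun v => T.degree v ≠ 1))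
    (fun v => T.dist u v) ⟨u, by simp [hu]⟩
  rw [mem_filter] at hr
  have hr1 := hr.2
  have hnb : ∀ w, T.Adj r w → T.degree w ≠ 1 → w = par hT u r := by
    intro w hw hw1
    rcases (adj_iff_par hT u r w).1 hw with ⟨_, h2⟩ | ⟨h1, h2⟩
    · exact h2.symm
    · exfalso
      have h3 := dist_par hT u w h1
      rw [h2] at h3
      have h4 : T.dist u w ≤ T.dist u r := hmax w (by simp [hw1])
      omega
  have huniq : ∀ w w', T.Adj r w → T.degree w ≠ 1 → T.Adj r w' → T.degree w' ≠ 1 → w = w' := by
    intro w w' h1 h2 h3 h4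
    rw [hnb w h1 h2, hnb w' h3 h4]
  have hdeg : ∀ v, T.degree (par hT r v) ≠ 1 := by
    intro v
    by_cases h : par hT r v = r
    · rw [h]; exact hr1
    · intro h1
      rw [degree_eq_one_iff hT r _ h] at h1
      have : v ∈ univ.filter (fun u => par hT r u = par hT r v) := by simp
      rw [h1] at this
      simp at this
  have hinj : ∀ x, T.degree x ≠ 1 → ∀ y, T.degree y ≠ 1 → x ≠ r → y ≠ r →
      par hT r x = par hT r y → x = y := by
    intro x hx y hy hxr hyr hxy
    by_contra hne
    have hax : T.Adj (par hT r x) x := (adj_par hT r x hxr).symm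
    have hay : T.Adj (par hT r x) y := by rw [hxy]; exact (adj_par hT r y hyr).symm
    by_cases hw : par hT r x = r
    · rw [hw] at hax hay
      exact hne (huniq x y hax hx hay hy)
    · have h1 := hcat (par hT r x)
      have hpw : T.Adj (par hT r x) (par hT r (par hT r x)) := adj_par hT r _ hw
      have hd1 := dist_par hT r x hxr
      have hd2 := dist_par hT r y hyr
      have hd3 := dist_par hT r _ hw
      have hx3 : x ≠ par hT r (par hT r x) := by
        intro h; rw [← h] at hd3; omega
      have hy3 : y ≠ par hT r (par hT r x) := by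
        intro h; rw [← h] at hd3; rw [← hxy] at hd2; omega
      have hsub : ({x, y, par hT r (par hT r x)} : Finset V) ⊆
          univ.filter (fun w => T.Adj (par hT r x) w ∧ T.degree w ≠ 1) := by
        intro v hv
        simp only [mem_insert, mem_singleton] at hv
        rw [mem_filter]
        rcases hv with rfl | rfl | rfl
        · exact ⟨mem_univ _, hax, hx⟩
        · exact ⟨mem_univ _, hay, hy⟩
        · exact ⟨mem_univ _, hpw, hdeg _⟩
      have h2 := card_le_card hsub
      rw [card_eq_three.2 ⟨x, y, _, hne, hx3, hy3, rfl⟩] at h2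
      omega
  -- leaf children
  have hadjr : ∀ v, T.Adj r v → par hT r v = r := by
    intro v hv
    rcases (adj_iff_par hT r r v).1 hv with ⟨h1, _⟩ | ⟨_, h2⟩
    · exact (h1 rfl).elim
    · exact h2
  have hroot : ∃ l1 l2 : V, l1 ≠ l2 ∧ (par hT r l1 = r ∧ T.degree l1 = 1) ∧
      (par hT r l2 = r ∧ T.degree l2 = 1) := by
    have h1 := card_filter_add_card_filter_not (s := T.neighborFinset r)
      (fun v => T.degree v = 1)
    rw [SimpleGraph.card_neighborFinset_eq_degree] at h1
    have h2 : ((T.neighborFinset r).filter (fun v => ¬ T.degree v = 1)).card ≤ 1 := by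
      rw [card_le_one]
      intro a ha b hb
      rw [mem_filter, SimpleGraph.mem_neighborFinset] at ha hb
      exact huniq a b ha.1 ha.2 hb.1 hb.2
    obtain ⟨k, hk⟩ := hodd r
    have h3 : 1 < ((T.neighborFinset r).filter (fun v => T.degree v = 1)).card := by omega
    obtain ⟨l1, hl1, l2, hl2, hne⟩ := one_lt_card.1 h3
    rw [mem_filter, SimpleGraph.mem_neighborFinset] at hl1 hl2
    exact ⟨l1, l2, hne, ⟨hadjr l1 hl1.1, hl1.2⟩, ⟨hadjr l2 hl2.1, hl2.2⟩⟩
  obtain ⟨l1, l2, hne, hl1, hl2⟩ := hroot
  have hex : ∀ w, ∃ v, T.degree w ≠ 1 → par hT r v = w ∧ T.degree v = 1 := by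
    intro w
    by_cases hw : T.degree w ≠ 1
    · by_cases hwr : w = r
      · exact ⟨l1, fun _ => by rw [hwr]; exact hl1⟩
      · have h1 := two_le_children hT r w hodd hwr hw
        obtain ⟨x, hx, y, hy, hxy⟩ := one_lt_card.1 (show 1 < _ from h1)
        rw [mem_filter] at hx hy
        have hxr : x ≠ r := by
          rintro rfl; rw [par_root] at hx; exact hwr hx.2.symm
        have hyr : y ≠ r := by
          rintro rfl; rw [par_root] at hy; exact hwr hy.2.symm
        by_cases hx1 : T.degree x = 1
        · exact ⟨x, fun _ => ⟨hx.2, hx1⟩⟩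
        · by_cases hy1 : T.degree y = 1
          · exact ⟨y, fun _ => ⟨hy.2, hy1⟩⟩
          · exact (hxy (hinj x hx1 y hy1 hxr hyr (by rw [hx.2, hy.2]))).elim
    · exact ⟨w, fun h => (hw h).elim⟩
  choose lf hlf using hex
  refine ⟨r, ⟨by simp [hr1], par_root hT r, ?_, ?_, ?_⟩, hdeg, ?_⟩
  · intro x _
    simp only [mem_filter, mem_univ, true_and]
    exact hdeg x
  · intro x _ hxr
    have := dist_par hT r x hxr
    omega
  · intro x hx y hy
    rw [mem_filter] at hx hy
    exact hinj x hx.2 y hy.2
  · by_cases h : l1 = lf r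
    · exact ⟨lf, l2, hlf, hl2.1, hl2.2, fun h2 => hne (h.trans h2.symm)⟩
    · exact ⟨lf, l1, hlf, hl1.1, hl1.2, h⟩

end Pool.Agent.H67.CT
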