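import Pool.Agent.H67.CT.LR
import Pool.Agent.H67.CT.Emb
import Pool.Agent.H67.CT.Host

/-!
# FinB: spine length exactly `2^κ`

Proof.  Let `N` be the set of non-leaves, `N.card = 2^κ = q`, `exists_host` gives `r, lf, l'`, with
`p = par hT r`; `RSp.enum` gives `e : ℕ → V` for `N`.  Let `z = e (q-1)` be the last spine vertex,
`N' = N.erase z` (`q ≥ 2`, so `z ≠ r`).  `N'` is again `RSp` : if `x ∈ N'` then `p x ≠ z` (`p x = z`
with `x = e i`: `i = 0` gives `p x = r ≠ z`; `i = i'+1` gives `p x = e i'`, `i' < q - 1`).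
`plab_of_cat` for `N'` (`card = q - 1`), `lf` (note `lf w ∉ N'` since it is a leaf) and the given
`HasCat (Fin κ → ZMod 2) (2^κ - 1)` gives `E1` with `N' ⊆ E1 ⊆ N' ∪ N'.image lf`, `E1.card = 2^κ`,
`PLab p r E1 (Fin κ → ZMod 2)`.
Put `E2 = N ∪ N'.image lf ∪ {l'}`; it has `q + (q - 1) + 1 = 2^(κ+1)` elements: `lf` is injective on
`N'` (`p (lf w) = w`), its values are leaves so not in `N`; `l'` is a leaf, and `l' ≠ lf w`: if
`w = r` by hypothesis, else `p l' = r ≠ w`.
`E2` is `Closed p r`: contains `r`; parents of elements of `E2` are in `N` (indeed in `N'`: parents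
of spine vertices `e (i+1)` are `e i`, `i < q-1`; `p (lf w) = w ∈ N'`; `p l' = r`);
`even`: for `w ≠ r` the children of `w` in `E2`: if `w ∉ N'` none; if `w = e i ∈ N'`,
`1 ≤ i ≤ q-2`, exactly two: `e (i+1)` and `lf w`.
`plab_lr` (`E = E1`, `E' = E2`, `hpE`: parents of elements of `E2` are in `N' ⊆ E1`) gives
`PLab p r E2 (Fin (κ+1) → ZMod 2)`.  Finally `plab_finish` (Core.lean) with `E = E2`, `k = κ + 1`.
-/

set_option autoImplicit false

open Finset

namespace Pool.Agent.H67.CT

open Pool.Agent.H57.SS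

theorem fin_pow {V : Type*} [Fintype V] [DecidableEq V] {T : SimpleGraph V}
    [DecidableRel T.Adj] (hT : T.IsTree) (hodd : ∀ v, Odd (T.degree v))
    (hcat : ∀ v, (univ.filter (fun w => T.Adj v w ∧ T.degree w ≠ 1)).card ≤ 2) {n : ℕ}
    (hc : Fintype.card V = 2 ^ n) {κ : ℕ} (hκ : 1 ≤ κ)
    (hI : (univ.filter (fun v => T.degree v ≠ 1)).card = 2 ^ κ)
    (h : HasCat (Fin κ → ZMod 2) (2 ^ κ - 1)) :
    ∃ r : V, PLab (par hT r) r univ (Fin n → ZMod 2) := by
  classical
  have hq2 : 2 ^ 1 ≤ 2 ^ κ := Nat.pow_le_pow_right (by norm_num) hκ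
  have hne : ∃ v, T.degree v ≠ 1 := by
    obtain ⟨v, hv⟩ := card_pos.1 (show 0 < _ from (by rw [hI]; omega : 0 < (univ.filter
      (fun v => T.degree v ≠ 1)).card))
    exact ⟨v, (mem_filter.1 hv).2⟩
  obtain ⟨r, hR, hdeg, lf, l', hlf, hl1, hl2, hl3⟩ := exists_host hT hodd hcat hne
  obtain ⟨X, _, _, ⟨s⟩⟩ := h
  set N := univ.filter (fun v => T.degree v ≠ 1) with hN
  have hmN : ∀ v, v ∈ N ↔ T.degree v ≠ 1 := fun v => by simp [hN]
  obtain ⟨e, he0, heP, heS, heI, heJ⟩ := hR.enum
  rw [hI] at heP heS heI heJ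
  set q := 2 ^ κ with hq
  set z := e (q - 1) with hz
  set N' := N.erase z with hN'
  have hzr : r ≠ z := by
    intro h
    have := heI 0 (by omega) (q - 1) (by omega) (by rw [he0, ← hz]; exact h)
    omega
  have hrN' : r ∈ N' := mem_erase.2 ⟨hzr, hR.root⟩
  have hpN' : ∀ v ∈ N, par hT r v ∈ N' := by
    intro v hv
    obtain ⟨i, hi, rfl⟩ := heJ v hv
    rcases Nat.eq_zero_or_pos i with h0 | h0
    · rw [h0, he0, par_root]; exact hrN'
    · obtain ⟨j, rfl⟩ : ∃ j, i = j + 1 := ⟨i - 1, by omega⟩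
      rw [heP j hi]
      refine mem_erase.2 ⟨?_, heS j (by omega)⟩
      intro hcon
      have := heI j (by omega) (q - 1) (by omega) hcon
      omega
  have hR' : RSp (par hT r) r N' (fun v => T.dist r v) := by
    refine ⟨hrN', par_root hT r, fun x hx => hpN' x (mem_erase.1 hx).2, ?_, ?_⟩
    · intro x hx
      exact hR.rkP x (mem_erase.1 hx).2
    · intro x hx y hy
      exact hR.inj x (mem_erase.1 hx).2 y (mem_erase.1 hy).2
  have hN'c : N'.card = q - 1 := by
    rw [hN', card_erase_of_mem (heS (q - 1) (by omega)), hI]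
  have hlfN : ∀ w ∈ N', par hT r (lf w) = w ∧ lf w ∉ N := by
    intro w hw
    obtain ⟨h1, h2⟩ := hlf w ((hmN w).1 (mem_erase.1 hw).2)
    exact ⟨h1, fun h3 => (hmN _).1 h3 h2⟩
  obtain ⟨E1, h1, h2, h3, h4⟩ := plab_of_cat s (add_self_fin κ) hR' hN'c lf
    (fun w hw => ⟨(hlfN w hw).1, fun h => (hlfN w hw).2 (mem_erase.1 h).2⟩)
  have hE1c : E1.card = 2 ^ κ := by rw [h3]; simp
  have hlinj : Set.InjOn lf N' := by
    intro a ha b hb hab
    rw [← (hlfN a ha).1, ← (hlfN b hb).1, hab]
  have hdis : Disjoint N (N'.image lf) := by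
    rw [Finset.disjoint_right]
    intro v hv
    obtain ⟨w, hw, rfl⟩ := mem_image.1 hv
    exact (hlfN w hw).2
  have hl'N : l' ∉ N := fun h => (hmN _).1 h hl2
  have hl'n : l' ∉ N ∪ N'.image lf := by
    rw [mem_union, not_or]
    refine ⟨hl'N, ?_⟩
    intro h
    obtain ⟨w, hw, hwl⟩ := mem_image.1 h
    have h5 := (hlfN w hw).1
    rw [hwl, hl1] at h5
    exact hl3 (by rw [← hwl, h5])
  set E2 := insert l' (N ∪ N'.image lf) with hE2
  have hE2c : E2.card = 2 ^ (κ + 1) := by
    rw [hE2, card_insert_of_notMem hl'n, card_union_of_disjoint hdis, card_image_of_injOn hlinj,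
      hI, hN'c, pow_succ]
    omega
  have hpE2 : ∀ v ∈ E2, par hT r v ∈ N' := by
    intro v hv
    rw [hE2, mem_insert, mem_union] at hv
    rcases hv with rfl | hv | hv
    · rw [hl1]; exact hrN'
    · exact hpN' v hv
    · obtain ⟨w, hw, rfl⟩ := mem_image.1 hv
      rw [(hlfN w hw).1]; exact hw
  have hNE2 : N ⊆ E2 := by
    intro v hv
    rw [hE2, mem_insert, mem_union]
    exact Or.inr (Or.inl hv)
  have hclosed : Closed (par hT r) r E2 := by
    refine ⟨hNE2 hR.root, fun v hv => hNE2 (mem_erase.1 (hpE2 v hv)).2, ?_⟩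
    intro w hw
    by_cases hwN : w ∈ N'
    · obtain ⟨i, hi, hiw⟩ := heJ w (mem_erase.1 hwN).2
      have hi1 : i + 1 < q := by
        by_contra hcon
        have : i = q - 1 := by omega
        apply (mem_erase.1 hwN).1
        rw [← hiw, this]
      have hset : E2.filter (fun v => par hT r v = w) = {e (i + 1), lf w} := by
        ext v
        rw [mem_filter]
        constructor
        · rintro ⟨hv, hpv⟩
          rw [mem_insert, mem_singleton]
          rw [hE2, mem_insert, mem_union] at hv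
          rcases hv with rfl | hv | hv
          · exfalso; rw [hl1] at hpv; exact hw hpv.symm
          · obtain ⟨j, hj, rfl⟩ := heJ v hv
            rcases Nat.eq_zero_or_pos j with h0 | h0
            · exfalso
              rw [h0, he0, par_root] at hpv; exact hw hpv.symm
            · obtain ⟨j', rfl⟩ : ∃ j', j = j' + 1 := ⟨j - 1, by omega⟩
              rw [heP j' hj] at hpv
              have := heI j' (by omega) i hi (by rw [hpv, hiw])
              left; rw [this]
          · obtain ⟨w', hw', rfl⟩ := mem_image.1 hv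
            rw [(hlfN w' hw').1] at hpv
            right; rw [hpv]
        · intro hv
          rw [mem_insert, mem_singleton] at hv
          rcases hv with rfl | rfl
          · exact ⟨hNE2 (heS _ hi1), by rw [heP i hi1, hiw]⟩
          · refine ⟨?_, (hlfN w hwN).1⟩
            rw [hE2, mem_insert, mem_union]
            exact Or.inr (Or.inr (mem_image_of_mem lf hwN))
      have hne2 : e (i + 1) ≠ lf w := fun hcon => (hlfN w hwN).2 (hcon ▸ heS _ hi1)
      rw [hset, card_pair hne2]
      exact even_two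
    · have : E2.filter (fun v => par hT r v = w) = ∅ := by
        apply filter_false_of_mem
        intro v hv hpv
        exact hwN (hpv ▸ hpE2 v hv)
      rw [this]; simp
  have hE12 : E1 ⊆ E2 := by
    intro v hv
    have := h2 hv
    rw [mem_union] at this
    rw [hE2, mem_insert, mem_union]
    rcases this with h5 | h5
    · exact Or.inr (Or.inl (mem_erase.1 h5).2)
    · exact Or.inr (Or.inr h5)
  have hlab2 := plab_lr (h1 hrN') hclosed hE12 hκ hE1c hE2c (fun v hv => h1 (hpE2 v hv)) h4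
  exact ⟨r, plab_finish hT r hodd hc hclosed (by omega) hE2c
    (fun v hv => hNE2 ((hmN v).2 hv)) hlab2⟩

end Pool.Agent.H67.CT
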