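import Pool.Agent.H67.CT.Base

/-!
# JCn: choice of the additional skipped position by counting

`L = card J`.  `z` is bad if it lies in one of
* `J`, `J - 1` (i.e. `z + 1 ∈ J`), `J + 1` (`z - 1 ∈ J`): at most `3 L` elements;
* `{s - t + 1, s - t}`;  `{c + 1 - t}` (`z - 1 + t = c`);  `{c, c + 1}`;  `{t + e}`: 6 elements;
* `z` with `pw z = pw w + pw (t + e)` for some `w` in `J ∪ (R + 1) ∪ ((J \ R) - 1)`: at most `2 L`
  elements (`z` is determined by `w` because `pw` is injective).
Since `5 L + 6 < m` there is `z` which is not bad.  `z ≠ t + e` gives `pw z + pw (t+e) ≠ 0`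
(characteristic two), so it is `pw v` for some `v` (`surj`), and then `pw z = pw v + pw (t + e)`, so
`v ∉ J ∪ (R+1) ∪ ((J\R)-1)`.
`z - 1 + t ∉ J`: if `j = z - 1 + t ∈ J`, `z = j - t + 1`; if `j = s` then `z = s - t + 1` is bad;
otherwise `j - t = z - 1 ∈ J` or `j - t + 1 = z ∈ J`, bad.  `z + t ∉ J`: if `j = z + t ∈ J`,
`z = j - t`; `j = s` bad; otherwise `z ∈ J` or `z + 1 ∈ J`, bad.
-/

set_option autoImplicit false

open Finset

namespace Pool.Agent.H67.CT

theorem exists_z {m : ℕ} [NeZero m] {K : Type} [Field K] {pw : ZMod m → K} (hpw : PW m K pw)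
    {J R : Finset (ZMod m)} {c e t : ZMod m} (hRJ : R ⊆ J) (s : ZMod m)
    (hs : ∀ j ∈ J, j ≠ s → j - t ∈ J ∨ j - t + 1 ∈ J) (hL : 5 * J.card + 6 < m) :
    ∃ z v : ZMod m, z ∉ J ∧ z + 1 ∉ J ∧ z - 1 ∉ J ∧ z - 1 + t ∉ J ∧ z + t ∉ J ∧ z - 1 + t ≠ c ∧
      z ≠ c ∧ z ≠ c + 1 ∧ pw z + pw (t + e) = pw v ∧ v ∉ J ∧ (∀ j ∈ R, v ≠ j + 1) ∧
      (∀ j ∈ J, j ∉ R → v ≠ j - 1) := by
  classical
  set W := J ∪ (R.image (fun j => j + 1) ∪ (J \ R).image (fun j => j - 1)) with hW
  let ψ : ZMod m → ZMod m := fun w =>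
    if h : pw w + pw (t + e) ≠ 0 then (hpw.surj _ h).choose else 0
  have hψ : ∀ w z, pw z = pw w + pw (t + e) → z = ψ w := by
    intro w z hz
    have h : pw w + pw (t + e) ≠ 0 := by rw [← hz]; exact hpw.ne_zero z
    have h1 : ψ w = (hpw.surj _ h).choose := by simp only [ψ, dif_pos h]
    apply hpw.inj
    rw [h1, (hpw.surj _ h).choose_spec, hz]
  set bad : Finset (ZMod m) := J ∪ (J.image (fun j => j - 1) ∪ (J.image (fun j => j + 1) ∪
    ({s - t + 1, s - t, c + 1 - t, c, c + 1, t + e} ∪ W.image ψ))) with hbad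
  have hWc : W.card ≤ 2 * J.card := by
    have h1 := card_union_le J (R.image (fun j => j + 1) ∪ (J \ R).image (fun j => j - 1))
    have h2 := card_union_le (R.image (fun j => j + 1)) ((J \ R).image (fun j => j - 1))
    have h3 : (R.image (fun j => j + 1)).card ≤ R.card := card_image_le
    have h4 : ((J \ R).image (fun j => j - 1)).card ≤ (J \ R).card := card_image_le
    have h5 := card_sdiff_of_subset hRJ
    have h6 := card_le_card hRJ
    rw [← hW] at h1
    omega
  have hbc : bad.card ≤ 5 * J.card + 6 := by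
    have h1 := card_union_le J (J.image (fun j => j - 1) ∪ (J.image (fun j => j + 1) ∪
      ({s - t + 1, s - t, c + 1 - t, c, c + 1, t + e} ∪ W.image ψ)))
    have h2 := card_union_le (J.image (fun j => j - 1)) (J.image (fun j => j + 1) ∪
      ({s - t + 1, s - t, c + 1 - t, c, c + 1, t + e} ∪ W.image ψ))
    have h3 := card_union_le (J.image (fun j => j + 1))
      ({s - t + 1, s - t, c + 1 - t, c, c + 1, t + e} ∪ W.image ψ)
    have h4 := card_union_le ({s - t + 1, s - t, c + 1 - t, c, c + 1, t + e} : Finset (ZMod m))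
      (W.image ψ)
    have h5 : (J.image (fun j => j - 1)).card ≤ J.card := card_image_le
    have h6 : (J.image (fun j => j + 1)).card ≤ J.card := card_image_le
    have h7 : (W.image ψ).card ≤ W.card := card_image_le
    have h8 : ({s - t + 1, s - t, c + 1 - t, c, c + 1, t + e} : Finset (ZMod m)).card ≤ 6 :=
      card_le_six
    rw [← hbad] at h1
    omega
  obtain ⟨z, hz⟩ : ∃ z : ZMod m, z ∉ bad := by
    by_contra hcon
    push Not at hcon
    have h1 : (univ : Finset (ZMod m)) ⊆ bad := fun x _ => hcon x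
    have h2 := card_le_card h1
    rw [card_univ, ZMod.card] at h2
    omega
  rw [hbad] at hz
  simp only [mem_union, mem_insert, mem_singleton, not_or] at hz
  obtain ⟨hz0, hz1, hz2, ⟨hb1, hb2, hb3, hb4, hb5, hb6⟩, hz3⟩ := hz
  have hz1' : z + 1 ∉ J := fun h => hz1 (mem_image.2 ⟨z + 1, h, by ring⟩)
  have hz2' : z - 1 ∉ J := fun h => hz2 (mem_image.2 ⟨z - 1, h, by ring⟩)
  have hne : pw z + pw (t + e) ≠ 0 := by
    intro h
    apply hb6
    apply hpw.inj
    have := hpw.two (pw (t + e))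
    linear_combination h - this
  obtain ⟨v, hv⟩ := hpw.surj _ hne
  have hzv : pw z = pw v + pw (t + e) := by
    have := hpw.two (pw (t + e))
    rw [hv]
    linear_combination -this
  have hvW : v ∉ W := fun h => hz3 (mem_image.2 ⟨v, h, (hψ v z hzv).symm⟩)
  rw [hW, mem_union, mem_union, not_or, not_or] at hvW
  refine ⟨z, v, hz0, hz1', hz2', ?_, ?_, ?_, hb4, hb5, hv.symm, hvW.1, ?_, ?_⟩
  · intro h
    by_cases h1 : z - 1 + t = s
    · exact hb1 (by rw [← h1]; ring)
    · rcases hs _ h h1 with h2 | h2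
      · rw [show z - 1 + t - t = z - 1 by ring] at h2; exact hz2' h2
      · rw [show z - 1 + t - t + 1 = z by ring] at h2; exact hz0 h2
  · intro h
    by_cases h1 : z + t = s
    · exact hb2 (by rw [← h1]; ring)
    · rcases hs _ h h1 with h2 | h2
      · rw [show z + t - t = z by ring] at h2; exact hz0 h2
      · rw [show z + t - t + 1 = z + 1 by ring] at h2; exact hz1' h2
  · intro h
    exact hb3 (by rw [← h]; ring)
  · intro j hj h
    exact hvW.2.1 (mem_image.2 ⟨j, hj, h.symm⟩)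
  · intro j hj hjR h
    exact hvW.2.2 (mem_image.2 ⟨j, mem_sdiff.2 ⟨hj, hjR⟩, h.symm⟩)

end Pool.Agent.H67.CT
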