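import Pool.Agent.H67.CT.Base

/-!
# JCt: the caterpillar with skipped vertices

`X = Option (ZMod m)`, `f none = 0`, `f (some i) = pw i` (bijective onto `K`).  `g := z - 1 + t`.
`Sp = {none} ∪ {some i | i ∉ J, i ≠ z}`, `card Sp = 1 + m - card J - 1 = m - card J`.
`P none = some (g + 1)`;
`P (some i)` = `some v` if `i = z`; `some (i + 1)` if `i ∈ R`; `some (i - 1)` if `i ∈ J \ R`;
`some c` if `i = c` (root `ρ = some c`); `none` if `i = g`; `some (i + 2)` if `i + 1 ∈ J` or
`i + 1 = z`; `some (i + 1)` otherwise.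
`rk none = 2 (c - (g+1)).val + 1`; `rk (some i) = 2 m + 5` if `i ∈ J` or `i = z`, `2 (c - i).val`
otherwise.  (`(c - (i+1)).val + 1 = (c - i).val` if `i ≠ c`, and `(c - (i+2)).val + 2 = (c - i).val` if
moreover `i + 1 ≠ c`.)
`PSp`: `g + 1 = z + t ∉ J`, `≠ z` (`t ≠ 0`); `v ∉ J`, `v ≠ z` (else `pw (t + e) = 0`); `i ∈ R`:
`i + 1 ∉ J`, `i + 1 ≠ z` (`z - 1 ∉ J`); `i ∈ J \ R`: `i - 1 ∉ J` (`sep`), `i - 1 ≠ z` (`z + 1 ∉ J`);
`i + 1 ∈ J`: `i + 2 ∉ J`, `i + 2 ≠ z`; `i + 1 = z`: `i + 2 = z + 1 ∉ J`.
`injSp`: values of `P` on the spine: `g + 1` (from `none`), `none` (from `g`), `i + 1` or `i + 2`; if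
`i + 1 = i' + 2` with `i' + 1 ∈ J ∪ {z}` then `i = i' + 1` is not in the spine; `i + 1 = g + 1` gives
`i = g`; `i + 2 = g + 1` gives `g = i + 1 ∈ J ∪ {z}`, no (`g ≠ z` as `t ≠ 1`).
`injLf`: leaves: `z ↦ v`, `j ∈ R ↦ j + 1`, `j ∈ J \ R ↦ j - 1`; `v` is different from the others by
hypothesis; `j + 1 = j' - 1` gives `j' = j + 2 ∈ J`, so `j' ∈ R` by `cap`.
`lab`: every sum is `pw (ι + t)` with the index `ι` (`PW.succ`, `PW.succ2`):
 `none`: `pw (g+1)`, `ι = z`;  `g`: `pw g`, `ι = z - 1`;  `z`: `pw z + pw v = pw (t + e)`, `ι = e`;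
 `j ∈ R`: `ι = j`;  `j ∈ J \ R`: `ι = j - 1`;
 `i` with `i + 1 ∈ J ∪ {z}`: `pw i + pw (i + 2) = pw (i + t + t)`, `ι = i + t = (i+1) - 1 + t`
   (for `i + 1 = z` this is `g`);  other `i`: `ι = i`.
 These indices are different: `e`, the leaf indices and the skip indices `j - 1 + t`, `j ∈ J`, are
 pairwise different and lie in `Fr = {x | x ∈ J ∨ x + 1 ∈ J ∨ x = c}` (`Skip`); `z`, `z - 1`, `g` and the
 `i` of the last kind (`i ∉ J`, `i + 1 ∉ J`, `i ≠ c`) are not in `Fr`, and are pairwise different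
 (`i ≠ z`, `i + 1 ≠ z`, `i ≠ g`; `g ≠ z`, `g ≠ z - 1` as `t ≠ 1, 0`).
(`t ≠ 0, 1`: `PW.t_ne_zero`, `PW.t_ne_one`.  Checked by computer for all `m = 2^k - 1`, `k ≤ 8`.)
-/

set_option autoImplicit false

open Finset

namespace Pool.Agent.H67.CT

/-- The parent function. -/
def JCt_P {m : ℕ} (J R : Finset (ZMod m)) (c t z v : ZMod m) : Option (ZMod m) → Option (ZMod m)
  | none => some (z + t)
  | some i =>
    if i = z then some v
    else if i ∈ R then some (i + 1)
    else if i ∈ J then some (i - 1)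
    else if i = c then some c
    else if i = z - 1 + t then none
    else if i + 1 ∈ J ∨ i + 1 = z then some (i + 2)
    else some (i + 1)

/-- The kinds of vertices, with the parent and the index of the label of the edge to it. -/
inductive JCt_T {m : ℕ} (J R : Finset (ZMod m)) (c e t z v : ZMod m) :
    Option (ZMod m) → Option (ZMod m) → ZMod m → Prop
  | nn : JCt_T J R c e t z v none (some (z + t)) z
  | zz : JCt_T J R c e t z v (some z) (some v) e
  | rr (i : ZMod m) (hi : i ∈ R) : JCt_T J R c e t z v (some i) (some (i + 1)) i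
  | ll (i : ZMod m) (hi : i ∈ J) (hi' : i ∉ R) :
      JCt_T J R c e t z v (some i) (some (i - 1)) (i - 1)
  | gg : JCt_T J R c e t z v (some (z - 1 + t)) none (z - 1)
  | sk (i : ZMod m) (h : i ∉ J) (hz : i ≠ z) (hc : i ≠ c) (hg : i ≠ z - 1 + t)
      (h1 : i + 1 ∈ J ∨ i + 1 = z) : JCt_T J R c e t z v (some i) (some (i + 2)) (i + t)
  | st (i : ZMod m) (h : i ∉ J) (hz : i ≠ z) (hc : i ≠ c) (hg : i ≠ z - 1 + t)
      (h1 : i + 1 ∉ J) (h2 : i + 1 ≠ z) : JCt_T J R c e t z v (some i) (some (i + 1)) i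

theorem JCt_exists {m : ℕ} {J R : Finset (ZMod m)} {c e t z v : ZMod m}
    (x : Option (ZMod m)) (hx : x ≠ some c) :
    ∃ ι, JCt_T J R c e t z v x (JCt_P J R c t z v x) ι := by
  cases x with
  | none => exact ⟨z, JCt_T.nn⟩
  | some i =>
    simp only [JCt_P]
    by_cases h1 : i = z
    · subst h1
      rw [if_pos rfl]
      exact ⟨e, JCt_T.zz⟩
    rw [if_neg h1]
    by_cases h2 : i ∈ R
    · rw [if_pos h2]
      exact ⟨i, JCt_T.rr i h2⟩
    rw [if_neg h2]
    by_cases h3 : i ∈ J
    · rw [if_pos h3]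
      exact ⟨i - 1, JCt_T.ll i h3 h2⟩
    rw [if_neg h3]
    by_cases h4 : i = c
    · exact absurd (by rw [h4]) hx
    rw [if_neg h4]
    by_cases h5 : i = z - 1 + t
    · rw [if_pos h5, h5]
      exact ⟨z - 1, JCt_T.gg⟩
    rw [if_neg h5]
    by_cases h6 : i + 1 ∈ J ∨ i + 1 = z
    · rw [if_pos h6]
      exact ⟨i + t, JCt_T.sk i h3 h1 h4 h5 h6⟩
    · rw [if_neg h6]
      push Not at h6
      exact ⟨i, JCt_T.st i h3 h1 h4 h5 h6.1 h6.2⟩

theorem JCt_val {m : ℕ} [NeZero m] (hm : 3 ≤ m) {x : ZMod m} (hx : x ≠ 0) :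
    (x - 1).val + 1 = x.val := by
  have h1 : (1 : ZMod m).val = 1 := ZMod.val_one'' (by omega)
  have h2 : 1 ≤ x.val := by
    rw [Nat.one_le_iff_ne_zero]
    intro h
    exact hx ((ZMod.val_eq_zero x).1 h)
  rw [ZMod.val_sub (by rw [h1]; exact h2), h1]
  omega

/-- decoding a vertex from the index of its label -/
def JCt_D {m : ℕ} (J R : Finset (ZMod m)) (e t z : ZMod m) (ι : ZMod m) : Option (ZMod m) :=
  if ι = z then none
  else if ι = z - 1 then some (z - 1 + t)
  else if ι = z - 1 + t then some (z - 1)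
  else if ι = e then some z
  else if ι ∈ R then some ι
  else if ι + 1 ∈ J ∧ ι + 1 ∉ R then some (ι + 1)
  else if ι - t + 1 ∈ J then some (ι - t)
  else some ι

theorem cat_of_skip {m : ℕ} [NeZero m] (hm : 3 ≤ m) {K : Type} [Field K] {pw : ZMod m → K}
    (hpw : PW m K pw) {J R : Finset (ZMod m)} {c e t : ZMod m} (ht : pw t = 1 + pw 1)
    (h : Skip J R c e t) {z v : ZMod m} (hz : z ∉ J) (hz1 : z + 1 ∉ J) (hz2 : z - 1 ∉ J)
    (hg : z - 1 + t ∉ J) (hg1 : z + t ∉ J) (hgc : z - 1 + t ≠ c) (hzc : z ≠ c) (hzc1 : z ≠ c + 1)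
    (hv : pw z + pw (t + e) = pw v) (hvJ : v ∉ J) (hvR : ∀ j ∈ R, v ≠ j + 1)
    (hvL : ∀ j ∈ J, j ∉ R → v ≠ j - 1) :
    HasCat K (m - J.card) := by
  have ht0 : t ≠ 0 := hpw.t_ne_zero ht
  have ht1 : t ≠ 1 := hpw.t_ne_one ht
  have h01 : (1 : ZMod m) ≠ 0 := by
    haveI : Fact (1 < m) := ⟨by omega⟩
    exact one_ne_zero
  have hvz : v ≠ z := by
    rintro rfl
    exact hpw.ne_zero (t + e) (by simpa using hv)
  -- the free indices
  have fz : ¬ (z ∈ J ∨ z + 1 ∈ J ∨ z = c) := by tauto
  have fz1 : ¬ (z - 1 ∈ J ∨ z - 1 + 1 ∈ J ∨ z - 1 = c) := by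
    rw [sub_add_cancel]
    rintro (k | k | k)
    · exact hz2 k
    · exact hz k
    · exact hzc1 (by rw [← k, sub_add_cancel])
  have eg1 : z - 1 + t + 1 = z + t := by ring
  have fg : ¬ (z - 1 + t ∈ J ∨ z - 1 + t + 1 ∈ J ∨ z - 1 + t = c) := by
    rw [eg1]
    tauto
  have nzz1 : z ≠ z - 1 := by
    intro k
    exact h01 (by linear_combination k)
  have nzg : z ≠ z - 1 + t := by
    intro k
    exact ht1 (by linear_combination (-1 : ZMod m) * k)
  have nz1g : z - 1 ≠ z - 1 + t := by
    intro k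
    exact ht0 (by linear_combination (-1 : ZMod m) * k)
  have skF : ∀ i : ZMod m, i + 1 ∈ J → (i + t ∈ J ∨ i + t + 1 ∈ J ∨ i + t = c) := by
    intro i hi
    have k := h.sk (i + 1) hi
    have e1 : i + 1 - 1 + t = i + t := by ring
    rwa [e1] at k
  have skR' : ∀ i : ZMod m, i + 1 ∈ J → ∀ j ∈ R, i + t ≠ j := by
    intro i hi j hj
    have k := h.skR (i + 1) hi j hj
    have e1 : i + 1 - 1 + t = i + t := by ring
    rwa [e1] at k
  have skL' : ∀ i : ZMod m, i + 1 ∈ J → ∀ j ∈ J, j ∉ R → i + t ≠ j - 1 := by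
    intro i hi j hj hj'
    have k := h.skL (i + 1) hi j hj hj'
    have e1 : i + 1 - 1 + t = i + t := by ring
    rwa [e1] at k
  have es' : ∀ i : ZMod m, i + 1 ∈ J → e ≠ i + t := by
    intro i hi
    have k := h.es (i + 1) hi
    have e1 : i + 1 - 1 + t = i + t := by ring
    rwa [e1] at k
  -- decoding
  have hdec : ∀ x p ι, JCt_T J R c e t z v x p ι → JCt_D J R e t z ι = x := by
    intro x p ι hT
    unfold JCt_D
    cases hT with
    | nn => rw [if_pos rfl]
    | zz =>
      have n1 : e ≠ z := fun k => fz (k ▸ h.ef)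
      have n2 : e ≠ z - 1 := fun k => fz1 (k ▸ h.ef)
      have n3 : e ≠ z - 1 + t := fun k => fg (k ▸ h.ef)
      rw [if_neg n1, if_neg n2, if_neg n3, if_pos rfl]
    | rr i hi =>
      have hiJ := h.RJ hi
      have n1 : ι ≠ z := fun k => hz (k ▸ hiJ)
      have n2 : ι ≠ z - 1 := fun k => hz2 (k ▸ hiJ)
      have n3 : ι ≠ z - 1 + t := fun k => hg (k ▸ hiJ)
      have n4 : ι ≠ e := fun k => h.eR ι hi k.symm
      rw [if_neg n1, if_neg n2, if_neg n3, if_neg n4, if_pos hi]
    | ll i hi hi' =>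
      have n1 : i - 1 ≠ z := fun k => hz1 (by rw [← k, sub_add_cancel]; exact hi)
      have n2 : i - 1 ≠ z - 1 := fun k => hz (by rw [← sub_left_injective k]; exact hi)
      have n3 : i - 1 ≠ z - 1 + t := fun k => hg1 (by
        have : z + t = i := by linear_combination (-1 : ZMod m) * k
        rw [this]; exact hi)
      have n4 : i - 1 ≠ e := fun k => h.eL i hi hi' k.symm
      have n5 : i - 1 ∉ R := fun k => h.sep (i - 1) (h.RJ k) (by rw [sub_add_cancel]; exact hi)
      rw [if_neg n1, if_neg n2, if_neg n3, if_neg n4, if_neg n5, sub_add_cancel,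
        if_pos ⟨hi, hi'⟩]
    | gg => rw [if_neg nzz1.symm, if_pos rfl]
    | sk i hi hiz hic hig h1 =>
      have h3 : ¬ (i + t + 1 ∈ J ∧ i + t + 1 ∉ R) ∨ i + 1 = z := by
        rcases h1 with h1 | h1
        · left
          rintro ⟨k1, k2⟩
          exact skL' i h1 _ k1 k2 (by ring)
        · exact Or.inr h1
      by_cases hiz1 : i + 1 = z
      · have hi' : i = z - 1 := by rw [← hiz1]; ring
        subst hi'
        rw [if_neg nzg.symm, if_neg nz1g.symm, if_pos rfl]
      · have h1' : i + 1 ∈ J := h1.resolve_right hiz1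
        have n1 : i + t ≠ z := fun k => fz (k ▸ skF i h1')
        have n2 : i + t ≠ z - 1 := fun k => fz1 (k ▸ skF i h1')
        have n3 : i + t ≠ z - 1 + t := fun k => fg (k ▸ skF i h1')
        have n4 : i + t ≠ e := fun k => es' i h1' k.symm
        have n5 : i + t ∉ R := fun k => skR' i h1' _ k rfl
        have n6 := h3.resolve_right hiz1
        have e1 : i + t - t + 1 = i + 1 := by ring
        rw [if_neg n1, if_neg n2, if_neg n3, if_neg n4, if_neg n5, if_neg n6, e1, if_pos h1']
        congr 1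
        ring
    | st i hi hiz hic hig h1 h2 =>
      have hF : ¬ (ι ∈ J ∨ ι + 1 ∈ J ∨ ι = c) := by tauto
      have n2 : ι ≠ z - 1 := fun k => h2 (by rw [k, sub_add_cancel])
      have n4 : ι ≠ e := fun k => hF (k ▸ h.ef)
      have n5 : ι ∉ R := fun k => hi (h.RJ k)
      have n6 : ¬ (ι + 1 ∈ J ∧ ι + 1 ∉ R) := fun k => h1 k.1
      have n7 : ι - t + 1 ∉ J := by
        intro k
        have k1 := skF (ι - t) k
        rw [sub_add_cancel] at k1
        exact hF k1
      rw [if_neg hiz, if_neg n2, if_neg hig, if_neg n4, if_neg n5, if_neg n6, if_neg n7]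
  -- labels
  have hlab : ∀ x p ι, JCt_T J R c e t z v x p ι →
      x.elim 0 pw + p.elim 0 pw = pw (ι + t) := by
    intro x p ι hT
    cases hT with
    | nn => simp
    | zz =>
      show pw z + pw v = pw (e + t)
      rw [← hv, ← add_assoc, hpw.two, zero_add, add_comm t e]
    | rr i hi => exact hpw.succ ht _
    | ll i hi hi' =>
      show pw i + pw (i - 1) = pw (i - 1 + t)
      have k := hpw.succ ht (i - 1)
      rw [sub_add_cancel] at k
      rw [← k, add_comm]
    | gg => simp
    | sk i hi hiz hic hig h1 => exact hpw.succ2 ht i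
    | st i hi hiz hic hig h1 h2 => exact hpw.succ ht _
  -- the spine
  set Sp : Finset (Option (ZMod m)) := Finset.insertNone (univ \ insert z J) with hSp
  have memSp : ∀ i : ZMod m, some i ∈ Sp ↔ i ∉ J ∧ i ≠ z := by
    intro i
    rw [hSp, Finset.some_mem_insertNone, Finset.mem_sdiff, Finset.mem_insert]
    simp only [Finset.mem_univ, true_and, not_or]
    tauto
  have noneSp : none ∈ Sp := Finset.none_mem_insertNone
  have hPSp : ∀ x p ι, JCt_T J R c e t z v x p ι → p ∈ Sp := by
    intro x p ι hT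
    cases hT with
    | nn =>
      rw [memSp]
      refine ⟨hg1, fun k => ht0 ?_⟩
      linear_combination k
    | zz => exact (memSp v).2 ⟨hvJ, hvz⟩
    | rr i hi =>
      rw [memSp]
      refine ⟨h.sep _ (h.RJ hi), fun k => hz2 ?_⟩
      rw [← k, add_sub_cancel_right]
      exact h.RJ hi
    | ll i hi hi' =>
      rw [memSp]
      refine ⟨fun k => h.sep _ k (by rw [sub_add_cancel]; exact hi), fun k => hz1 ?_⟩
      rw [← k, sub_add_cancel]
      exact hi
    | gg => exact noneSp
    | sk i hi hiz hic hig h1 =>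
      rw [memSp]
      rcases h1 with h1 | h1
      · refine ⟨?_, fun k => hz2 ?_⟩
        · have := h.sep _ h1
          have e1 : i + 1 + 1 = i + 2 := by ring
          rwa [e1] at this
        · have : z - 1 = i + 1 := by rw [← k]; ring
          rw [this]; exact h1
      · have e1 : i + 2 = z + 1 := by rw [← h1]; ring
        rw [e1]
        exact ⟨hz1, fun k => h01 (by linear_combination k)⟩
    | st i hi hiz hic hig h1 h2 => exact (memSp _).2 ⟨h1, h2⟩
  have hcSp : some c ∈ Sp := (memSp c).2 ⟨h.c0, hzc.symm⟩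
  have hPc : JCt_P J R c t z v (some c) = some c := by
    simp only [JCt_P]
    rw [if_neg hzc.symm, if_neg (fun k => h.c0 (h.RJ k)), if_neg h.c0, if_pos trivial]
  -- the rank
  set rk : Option (ZMod m) → ℕ := fun x => match x with
    | none => 2 * (c - (z + t)).val + 1
    | some i => if i ∈ J ∨ i = z then 2 * m + 5 else 2 * (c - i).val with hrk
  have rk_sp : ∀ i : ZMod m, some i ∈ Sp → rk (some i) = 2 * (c - i).val := by
    intro i hi
    have k := (memSp i).1 hi
    simp only [hrk]
    rw [if_neg (by tauto)]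
  have rk_lf : ∀ i : ZMod m, (i ∈ J ∨ i = z) → rk (some i) = 2 * m + 5 := by
    intro i hi
    simp only [hrk]
    rw [if_pos hi]
  have rk_sp_lt : ∀ x, x ∈ Sp → rk x < 2 * m + 5 := by
    intro x hx
    cases x with
    | none =>
      simp only [hrk]
      have := ZMod.val_lt (c - (z + t))
      omega
    | some i =>
      rw [rk_sp i hx]
      have := ZMod.val_lt (c - i)
      omega
  have hval : ∀ i : ZMod m, i ≠ c → (c - (i + 1)).val + 1 = (c - i).val := by
    intro i hi
    have e1 : c - (i + 1) = (c - i) - 1 := by ring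
    rw [e1]
    exact JCt_val hm (fun k => hi (sub_eq_zero.1 k).symm)
  have hrkP : ∀ x p ι, JCt_T J R c e t z v x p ι → rk p < rk x := by
    intro x p ι hT
    have hp := hPSp x p ι hT
    cases hT with
    | nn =>
      rw [rk_sp _ hp]
      simp only [hrk]
      omega
    | zz =>
      rw [rk_lf z (Or.inr rfl)]
      exact rk_sp_lt _ hp
    | rr i hi =>
      rw [rk_lf ι (Or.inl (h.RJ hi))]
      exact rk_sp_lt _ hp
    | ll i hi hi' =>
      rw [rk_lf i (Or.inl hi)]
      exact rk_sp_lt _ hp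
    | gg =>
      rw [rk_sp _ ((memSp _).2 ⟨hg, nzg.symm⟩)]
      have k := hval _ hgc
      rw [eg1] at k
      simp only [hrk]
      omega
    | sk i hi hiz hic hig h1 =>
      rw [rk_sp _ hp, rk_sp i ((memSp i).2 ⟨hi, hiz⟩)]
      have k1 := hval i hic
      have hi1c : i + 1 ≠ c := by
        rcases h1 with h1 | h1
        · intro k; exact h.c0 (k ▸ h1)
        · rw [h1]; exact hzc
      have k2 := hval (i + 1) hi1c
      have e1 : i + 1 + 1 = i + 2 := by ring
      rw [e1] at k2
      omega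
    | st i hi hiz hic hig h1 h2 =>
      rw [rk_sp _ hp, rk_sp ι ((memSp ι).2 ⟨hi, hiz⟩)]
      have k1 := hval ι hic
      omega
  -- injectivity on the spine
  have hdecSp : ∀ x p ι, JCt_T J R c e t z v x p ι → x ∈ Sp →
      (match p with
        | none => some (z - 1 + t)
        | some q => if q = z + t then none
          else if q - 1 ∈ J ∨ q - 1 = z then some (q - 2) else some (q - 1)) = x := by
    intro x p ι hT hx
    cases hT with
    | nn => simp
    | zz => exact absurd rfl ((memSp z).1 hx).2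
    | rr i hi => exact absurd (h.RJ hi) ((memSp _).1 hx).1
    | ll i hi hi' => exact absurd hi ((memSp _).1 hx).1
    | gg => rfl
    | sk i hi hiz hic hig h1 =>
      have n1 : i + 2 ≠ z + t := by
        intro k
        have k1 : i + 1 = z - 1 + t := by linear_combination k
        rcases h1 with h1 | h1
        · exact hg (k1 ▸ h1)
        · exact nzg (h1.symm.trans k1)
      have e1 : i + 2 - 1 = i + 1 := by ring
      have e2 : i + 2 - 2 = i := by ring
      simp only
      rw [if_neg n1, e1, if_pos h1, e2]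
    | st i hi hiz hic hig h1 h2 =>
      have n1 : ι + 1 ≠ z + t := by
        intro k
        exact hig (by linear_combination k)
      have e1 : ι + 1 - 1 = ι := by ring
      simp only
      rw [if_neg n1, e1, if_neg (by tauto)]
  -- injectivity on the leaves
  have hdecLf : ∀ x p ι, JCt_T J R c e t z v x p ι → x ∉ Sp →
      (match p with
        | none => none
        | some q => if q = v then some z
          else if q - 1 ∈ R then some (q - 1) else some (q + 1)) = x := by
    intro x p ι hT hx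
    cases hT with
    | nn => exact absurd noneSp hx
    | zz => simp
    | rr i hi =>
      have n1 : ι + 1 ≠ v := fun k => hvR ι hi k.symm
      simp only
      rw [if_neg n1, add_sub_cancel_right, if_pos hi]
    | ll i hi hi' =>
      have n1 : i - 1 ≠ v := fun k => hvL i hi hi' k.symm
      have n2 : i - 1 - 1 ∉ R := by
        intro k
        have e1 : i - 1 - 1 + 2 = i := by ring
        have := h.cap _ k
        rw [e1] at this
        exact hi' (this hi)
      simp only
      rw [if_neg n1, if_neg n2, sub_add_cancel]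
    | gg => exact absurd ((memSp _).2 ⟨hg, nzg.symm⟩) hx
    | sk i hi hiz hic hig h1 => exact absurd ((memSp _).2 ⟨hi, hiz⟩) hx
    | st i hi hiz hic hig h1 h2 => exact absurd ((memSp _).2 ⟨hi, hiz⟩) hx
  refine ⟨Option (ZMod m), inferInstance, inferInstance, ⟨⟨fun x => x.elim 0 pw,
    JCt_P J R c t z v, some c, Sp, rk, ?_, hcSp, hPc, ?_, ?_, ?_, ?_, ?_, ?_⟩⟩⟩
  · constructor
    · intro x y hxy
      cases x with
      | none =>
        cases y with
        | none => rfl
        | some j => exact absurd hxy.symm (hpw.ne_zero j)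
      | some i =>
        cases y with
        | none => exact absurd hxy (hpw.ne_zero i)
        | some j => exact congrArg some (hpw.inj hxy)
    · intro y
      by_cases hy : y = 0
      · exact ⟨none, hy.symm⟩
      · obtain ⟨i, hi⟩ := hpw.surj y hy
        exact ⟨some i, hi⟩
  · intro x
    by_cases hx : x = some c
    · rw [hx, hPc]
      exact hcSp
    · obtain ⟨ι, hT⟩ := JCt_exists (J := J) (R := R) (e := e) (t := t) (z := z) (v := v) x hx
      exact hPSp _ _ _ hT
  · intro x hx
    obtain ⟨ι, hT⟩ := JCt_exists (J := J) (R := R) (e := e) (t := t) (z := z) (v := v) x hx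
    exact hrkP _ _ _ hT
  · intro x hx y hy hxc hyc hxy
    obtain ⟨ι, hT⟩ := JCt_exists (J := J) (R := R) (e := e) (t := t) (z := z) (v := v) x hxc
    obtain ⟨ι', hT'⟩ := JCt_exists (J := J) (R := R) (e := e) (t := t) (z := z) (v := v) y hyc
    have k1 := hdecSp _ _ _ hT hx
    have k2 := hdecSp _ _ _ hT' hy
    rw [hxy] at k1
    exact k1.symm.trans k2
  · intro x y hx hy hxy
    have hxc : x ≠ some c := fun k => hx (k ▸ hcSp)
    have hyc : y ≠ some c := fun k => hy (k ▸ hcSp)
    obtain ⟨ι, hT⟩ := JCt_exists (J := J) (R := R) (e := e) (t := t) (z := z) (v := v) x hxc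
    obtain ⟨ι', hT'⟩ := JCt_exists (J := J) (R := R) (e := e) (t := t) (z := z) (v := v) y hyc
    have k1 := hdecLf _ _ _ hT hx
    have k2 := hdecLf _ _ _ hT' hy
    rw [hxy] at k1
    exact k1.symm.trans k2
  · intro x y hxc hyc hxy
    obtain ⟨ι, hT⟩ := JCt_exists (J := J) (R := R) (e := e) (t := t) (z := z) (v := v) x hxc
    obtain ⟨ι', hT'⟩ := JCt_exists (J := J) (R := R) (e := e) (t := t) (z := z) (v := v) y hyc
    have k1 := hlab _ _ _ hT
    have k2 := hlab _ _ _ hT'
    have k3 : ι + t = ι' + t := by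
      apply hpw.inj
      rw [← k1, ← k2]
      exact hxy
    have k4 : ι = ι' := add_right_cancel k3
    have k5 := hdec _ _ _ hT
    have k6 := hdec _ _ _ hT'
    rw [k4] at k5
    exact k5.symm.trans k6
  · rw [hSp, Finset.card_insertNone, Finset.card_sdiff_of_subset (Finset.subset_univ _),
      Finset.card_insert_of_notMem hz, Finset.card_univ, ZMod.card]
    have k := Finset.card_le_univ (insert z J)
    rw [Finset.card_insert_of_notMem hz, ZMod.card] at k
    omega

end Pool.Agent.H67.CT
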