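import Pool.Agent.H67.CT.Rem

/-!
# JEx: existence of the set of skipped positions

`M = 2 q - 1`.  Proof.
Case `t = 2 τ` even (`1 ≤ τ ≤ q - 1`): `Y = ZMod q` (or `Fin q`), `π u = u + τ`, `y0 = q - 1`.
Case `t = 2 τ + 1` odd (`1 ≤ τ ≤ q - 2`): `Y = ZMod (q - 1)`, `π u = u + τ`, `y0 = τ`.
`removal` with `L ≤ q - 2` gives `A`; all `u ∈ A` have representative `u ≤ q - 2`.
`J = {2 u : u ∈ A}` (as elements of `ZMod M`), `R = {2 u : u ∈ A, u ≥ τ}` if `t` is even,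
`R = {2 u : u ∈ A, u < τ}` if `t` is odd.
All the elements `2u` have representatives in `[0, 2q - 4]`, so `card J = L`, and
* `j + 1 ∉ J`: `2 u + 1 ≤ 2 q - 3 < M` is odd.
* `j = 2u ∈ R`, `j + 2 = 2 u'`: `2u + 2 ≤ 2 q - 2 < M`, so `u' = u + 1`; `t` even: `u' ≥ τ`; `t` odd:
  `u < τ` and `u' ≠ y0 = τ`, so `u' < τ`.
* `j = 2 u ∈ R`, `j - t + 1 = 2 u'' ∈ J`, i.e. `2 u + 1 ≡ 2 u'' + t (mod 2 q - 1)`.  `t` even:
  `2u + 1` odd, `2u'' + 2τ` even, both `< 2 M`, so `2u'' + 2τ = 2u + 1 + (2q - 1)`,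
  `u'' = u + q - τ ≥ q` (`u ≥ τ`), contradiction.  `t` odd: `2u ≡ 2u'' + 2τ`; both even and
  `< 2M`, so equal (difference a multiple of `M`, even, `< 2 M`), `u = u'' + τ ≥ τ`, contradiction.
* `j = 2u ∈ J \ R`, `j - t = 2u''`: `2u ≡ 2u'' + t`.  `t` even: equal, `u ≥ τ`, contradiction.
  `t` odd: `2 u'' + 2τ + 1 = 2 u + (2q - 1)`, `u'' = u + q - 1 - τ ≥ q - 1`, contradiction.
* exits: for `i = 2u ∈ J` with `π u ∈ A` one of `i + t - 1`, `i + t` is in `J`: `t` even: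
  `u + τ < q`: `2 (u + τ) = i + t`; `u + τ ≥ q`: `2 (u + τ - q) = i + t - 1 - M`; `t` odd:
  `u + τ < q - 1`: `2 (u + τ) = i + t - 1`; otherwise `2 (u + τ - (q-1)) = i + t - M`.
(Everything checked by computer.)
-/

set_option autoImplicit false

open Finset

namespace Pool.Agent.H67.CT

theorem JEx_cast {M a b : ℕ} (h : (a : ZMod M) = b) (ha : a < 2 * M) (hb : b < 2 * M) :
    a = b ∨ a = b + M ∨ b = a + M := by
  have h1 : a % M = b % M := (ZMod.natCast_eq_natCast_iff' a b M).1 h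
  have h2 := Nat.div_add_mod a M
  have h3 := Nat.div_add_mod b M
  have h4 : a / M < 2 := Nat.div_lt_of_lt_mul (by rwa [mul_comm] at ha)
  have h5 : b / M < 2 := Nat.div_lt_of_lt_mul (by rwa [mul_comm] at hb)
  have h6 : a / M = 0 ∨ a / M = 1 := by
    generalize a / M = x at h4 ⊢
    omega
  have h7 : b / M = 0 ∨ b / M = 1 := by
    generalize b / M = x at h5 ⊢
    omega
  rcases h6 with h6 | h6 <;> rcases h7 with h7 | h7 <;> rw [h6] at h2 <;> rw [h7] at h3 <;> omega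

theorem JEx_rem (n τ y0 L : ℕ) (hn : 0 < n) (hy0 : y0 < n) (hL : L + 1 ≤ n) :
    ∃ A : Finset ℕ, (∀ u ∈ A, u < n) ∧ y0 ∉ A ∧ A.card = L ∧
      ∀ i ∈ A, ∀ j ∈ A, (i + τ) % n ∉ A → (j + τ) % n ∉ A → i = j := by
  have : NeZero n := ⟨hn.ne'⟩
  obtain ⟨A0, h1, h2, h3⟩ := removal (Equiv.addRight (τ : ZMod n)) (y0 : ZMod n) L
    (by rwa [ZMod.card])
  have hmem : ∀ u : ℕ, u < n → (u ∈ A0.image ZMod.val ↔ (u : ZMod n) ∈ A0) := by
    intro u hu
    rw [mem_image]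
    constructor
    · rintro ⟨x, hx, rfl⟩
      rwa [ZMod.natCast_zmod_val]
    · intro hx
      exact ⟨_, hx, ZMod.val_cast_of_lt hu⟩
  have hex : ∀ x : ZMod n, (x.val + τ) % n ∉ A0.image ZMod.val → x + (τ : ZMod n) ∉ A0 := by
    intro x hx hx2
    apply hx
    rw [hmem _ (Nat.mod_lt _ hn), ZMod.natCast_mod]
    rwa [Nat.cast_add, ZMod.natCast_zmod_val]
  refine ⟨A0.image ZMod.val, ?_, ?_, ?_, ?_⟩
  · intro u hu
    obtain ⟨x, _, rfl⟩ := mem_image.1 hu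
    exact ZMod.val_lt x
  · rwa [hmem y0 hy0]
  · rw [card_image_of_injective _ (ZMod.val_injective n), h2]
  · intro i hi j hj hi2 hj2
    obtain ⟨x, hx, rfl⟩ := mem_image.1 hi
    obtain ⟨y, hy, rfl⟩ := mem_image.1 hj
    rw [h3 x hx y hy (hex x hi2) (hex y hj2)]

theorem JEx_core (M t q τ n : ℕ) (A : Finset ℕ) (P : ℕ → Prop) [DecidablePred P]
    (hMq : M + 1 = 2 * q) (hA : ∀ u ∈ A, u + 2 ≤ q)
    (hcase : (t = 2 * τ ∧ n = q ∧ (∀ u, P u ↔ τ ≤ u)) ∨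
      (t = 2 * τ + 1 ∧ n + 1 = q ∧ τ ∉ A ∧ ∀ u, P u ↔ u < τ)) (ht : 1 ≤ τ) (htM : t < M)
    (hex : ∀ i ∈ A, ∀ j ∈ A, (i + τ) % n ∉ A → (j + τ) % n ∉ A → i = j) :
    ∃ J R : Finset (ZMod M), R ⊆ J ∧ J.card = A.card ∧ (∀ j ∈ J, j + 1 ∉ J) ∧
      (∀ j ∈ R, j + 2 ∈ J → j + 2 ∈ R) ∧ (∀ j ∈ R, j - (t : ZMod M) + 1 ∉ J) ∧
      (∀ j ∈ J, j ∉ R → j - (t : ZMod M) ∉ J) ∧
      (∀ i ∈ J, ∀ i' ∈ J, i + (t : ZMod M) - 1 ∉ J → i + (t : ZMod M) ∉ J →
        i' + (t : ZMod M) - 1 ∉ J → i' + (t : ZMod M) ∉ J → i = i') := by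
  have hM0 : (M : ZMod M) = 0 := ZMod.natCast_self M
  have hexit : ∀ u ∈ A, ((2 * u : ℕ) : ZMod M) + (t : ZMod M) - 1 ∉
      A.image (fun u => ((2 * u : ℕ) : ZMod M)) → ((2 * u : ℕ) : ZMod M) + (t : ZMod M) ∉
      A.image (fun u => ((2 * u : ℕ) : ZMod M)) → (u + τ) % n ∉ A := by
    intro u hu h1 h2 hw
    have hu2 := hA u hu
    have hw2 := hA _ hw
    obtain ⟨w, hwdef⟩ : ∃ w, w = (u + τ) % n := ⟨_, rfl⟩
    rw [← hwdef] at hw hw2
    have key : 2 * w + 1 + (if 2 * u + t < M then 0 else M) = 2 * u + t ∨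
        2 * w + (if 2 * u + t < M then 0 else M) = 2 * u + t := by
      rcases hcase with ⟨h3, h4, _⟩ | ⟨h3, h4, _⟩
      · rcases lt_or_ge (u + τ) n with h5 | h5
        · rw [Nat.mod_eq_of_lt h5] at hwdef
          rw [if_pos (by omega)]
          omega
        · rw [Nat.mod_eq_sub_mod h5, Nat.mod_eq_of_lt (by omega)] at hwdef
          rw [if_neg (by omega)]
          omega
      · rcases lt_or_ge (u + τ) n with h5 | h5
        · rw [Nat.mod_eq_of_lt h5] at hwdef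
          rw [if_pos (by omega)]
          omega
        · rw [Nat.mod_eq_sub_mod h5, Nat.mod_eq_of_lt (by omega)] at hwdef
          rw [if_neg (by omega)]
          omega
    have hz : (((if 2 * u + t < M then 0 else M : ℕ)) : ZMod M) = 0 := by
      split_ifs
      · simp
      · exact hM0
    rcases key with key | key
    · apply h1
      refine mem_image.2 ⟨w, hw, ?_⟩
      have := congrArg (Nat.cast : ℕ → ZMod M) key
      rw [Nat.cast_add, Nat.cast_add, hz, Nat.cast_add, add_zero] at this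
      rw [← this]
      simp
    · apply h2
      refine mem_image.2 ⟨w, hw, ?_⟩
      have := congrArg (Nat.cast : ℕ → ZMod M) key
      rw [Nat.cast_add, hz, Nat.cast_add, add_zero] at this
      exact this
  refine ⟨A.image (fun u => ((2 * u : ℕ) : ZMod M)),
    (A.filter P).image (fun u => ((2 * u : ℕ) : ZMod M)),
    image_subset_image (filter_subset _ _), ?_, ?_, ?_, ?_, ?_, ?_⟩
  · apply card_image_of_injOn
    intro u hu v hv huv
    have hu2 := hA u hu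
    have hv2 := hA v hv
    rcases JEx_cast huv (by omega) (by omega) with h | h | h <;> omega
  · intro j hj hj2
    obtain ⟨u, hu, rfl⟩ := mem_image.1 hj
    obtain ⟨v, hv, hv1⟩ := mem_image.1 hj2
    have hu2 := hA u hu
    have hv2 := hA v hv
    have h1 : ((2 * v : ℕ) : ZMod M) = ((2 * u + 1 : ℕ) : ZMod M) := by
      rw [hv1]
      push_cast
      ring
    rcases JEx_cast h1 (by omega) (by omega) with h | h | h <;> omega
  · intro j hj hj2
    obtain ⟨u, hu, rfl⟩ := mem_image.1 hj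
    obtain ⟨v, hv, hv1⟩ := mem_image.1 hj2
    obtain ⟨hu, hPu⟩ := mem_filter.1 hu
    have hu2 := hA u hu
    have hv2 := hA v hv
    have h1 : ((2 * v : ℕ) : ZMod M) = ((2 * u + 2 : ℕ) : ZMod M) := by
      rw [hv1]
      push_cast
      ring
    rw [← hv1]
    refine mem_image.2 ⟨v, mem_filter.2 ⟨hv, ?_⟩, rfl⟩
    have hvu : v = u + 1 := by
      rcases JEx_cast h1 (by omega) (by omega) with h | h | h <;> omega
    rcases hcase with ⟨_, _, h3⟩ | ⟨_, _, h4, h3⟩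
    · rw [h3] at hPu ⊢
      omega
    · rw [h3] at hPu ⊢
      have : v ≠ τ := fun h => h4 (h ▸ hv)
      omega
  · intro j hj hj2
    obtain ⟨u, hu, rfl⟩ := mem_image.1 hj
    obtain ⟨v, hv, hv1⟩ := mem_image.1 hj2
    obtain ⟨hu, hPu⟩ := mem_filter.1 hu
    have hu2 := hA u hu
    have hv2 := hA v hv
    have h1 : ((2 * u + 1 : ℕ) : ZMod M) = ((2 * v + t : ℕ) : ZMod M) := by
      rw [Nat.cast_add (2 * v) t, hv1]
      push_cast
      ring
    rcases hcase with ⟨h4, _, h3⟩ | ⟨h4, _, _, h3⟩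
    · rw [h3] at hPu
      rcases JEx_cast h1 (by omega) (by omega) with h | h | h <;> omega
    · rw [h3] at hPu
      rcases JEx_cast h1 (by omega) (by omega) with h | h | h <;> omega
  · intro j hj hjR hj2
    obtain ⟨u, hu, rfl⟩ := mem_image.1 hj
    obtain ⟨v, hv, hv1⟩ := mem_image.1 hj2
    have hPu : ¬ P u := fun h => hjR (mem_image.2 ⟨u, mem_filter.2 ⟨hu, h⟩, rfl⟩)
    have hu2 := hA u hu
    have hv2 := hA v hv
    have h1 : ((2 * u : ℕ) : ZMod M) = ((2 * v + t : ℕ) : ZMod M) := by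
      rw [Nat.cast_add (2 * v) t, hv1]
      ring
    rcases hcase with ⟨h4, _, h3⟩ | ⟨h4, _, _, h3⟩
    · rw [h3] at hPu
      rcases JEx_cast h1 (by omega) (by omega) with h | h | h <;> omega
    · rw [h3] at hPu
      rcases JEx_cast h1 (by omega) (by omega) with h | h | h <;> omega
  · intro i hi i' hi' h1 h2 h3 h4
    obtain ⟨u, hu, rfl⟩ := mem_image.1 hi
    obtain ⟨v, hv, rfl⟩ := mem_image.1 hi'
    rw [hex u hu v hv (hexit u hu h1 h2) (hexit v hv h3 h4)]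

theorem exists_J (M t L : ℕ) (hM : Odd M) (ht : 2 ≤ t) (htM : t < M) (hL : 2 * L + 3 ≤ M) :
    ∃ J R : Finset (ZMod M), R ⊆ J ∧ J.card = L ∧ (∀ j ∈ J, j + 1 ∉ J) ∧
      (∀ j ∈ R, j + 2 ∈ J → j + 2 ∈ R) ∧ (∀ j ∈ R, j - (t : ZMod M) + 1 ∉ J) ∧
      (∀ j ∈ J, j ∉ R → j - (t : ZMod M) ∉ J) ∧
      (∀ i ∈ J, ∀ i' ∈ J, i + (t : ZMod M) - 1 ∉ J → i + (t : ZMod M) ∉ J →
        i' + (t : ZMod M) - 1 ∉ J → i' + (t : ZMod M) ∉ J → i = i') := by
  obtain ⟨p, hp⟩ := hM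
  rcases Nat.even_or_odd' t with ⟨τ, hτ | hτ⟩
  · obtain ⟨A, h1, h2, h3, h4⟩ := JEx_rem (p + 1) τ p L (by omega) (by omega) (by omega)
    rw [← h3]
    refine JEx_core M t (p + 1) τ (p + 1) A (fun u => τ ≤ u) (by omega) ?_
      (Or.inl ⟨hτ, rfl, fun u => Iff.rfl⟩) (by omega) htM h4
    intro u hu
    have h5 := h1 u hu
    have h6 : u ≠ p := fun h => h2 (h ▸ hu)
    omega
  · obtain ⟨A, h1, h2, h3, h4⟩ := JEx_rem p τ τ L (by omega) (by omega) (by omega)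
    rw [← h3]
    refine JEx_core M t (p + 1) τ p A (fun u => u < τ) (by omega) ?_
      (Or.inr ⟨hτ, rfl, h2, fun u => Iff.rfl⟩) (by omega) htM h4
    intro u hu
    have h5 := h1 u hu
    omega

end Pool.Agent.H67.CT
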