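import Pool.Agent.H67.CT.Base

/-!
# JSk: from the set of skipped positions to the skip data

Call `i ∈ J` an exit if `i + t - 1 ∉ J` and `i + t ∉ J`; there is at most one (`ex`).
For `i ∈ J` not an exit let `φ i` be the element of `J` among `i + t - 1`, `i + t` (only one of them by
`sep`).  `φ` is injective: `φ i = φ i' = j` means `i, i' ∈ {j - t + 1, j - t}`, and by `oR, oL` only one
of these is in `J` (`j ∈ R`: `j - t + 1 ∉ J`; `j ∉ R`: `j - t ∉ J`).
Case 1: there is an exit `i0`.  Then `φ : J \ {i0} → J` is injective, so exactly one `s ∈ J` is not a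
value: for `j ∈ J`, `j ≠ s`: `j - t ∈ J ∨ j - t + 1 ∈ J`, and `s - t ∉ J`, `s - t + 1 ∉ J`.
`c := i0 + t - 1`, `e := s - 1` if `s ∈ R`, `e := s` otherwise.
Case 2: no exit.  `φ : J → J` is bijective, so `j - t ∈ J ∨ j - t + 1 ∈ J` for all `j ∈ J`.  Choose `c`
with `c ∉ J`, `c + 1 ∉ J` (at most `2 card J < m` bad ones), `e := c`, `s` arbitrary.
Verification of `Skip`: `c0, c1` clear.  `sk`: for `j` not an exit one of `j + t - 1, j + t` is in `J`;
for `j = i0` it is `c`.  `skR`: `i - 1 + t = j ∈ R` gives `i = j - t + 1 ∈ J`, excluded by `oR`.  `skL`: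
`i - 1 + t = j - 1` gives `i = j - t ∈ J`, excluded by `oL`.  `ef`: `e ∈ {s - 1, s}` or `e = c`.
`eR, eL`: if `e` were the leaf index of `j` (`j` or `j - 1`) then (Case 1) `{j, j-1}` meets `{s, s-1}`,
by `sep` `j = s`, and `e` is the other one; (Case 2) `c = j` or `c + 1 = j` in `J`, no.
`es`: `e = i - 1 + t`: Case 1: `e + 1 = s` or `e = s`, so `i = s - t` or `i = s - t + 1` in `J`, no;
Case 2: `c = i + t - 1`, `c + 1 = i + t` not in `J`, so `i` is an exit, no.
-/

set_option autoImplicit false

open Finset

namespace Pool.Agent.H67.CT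

theorem JSk_card {m : ℕ} {t : ZMod m} {J R : Finset (ZMod m)}
    (sep : ∀ j ∈ J, j + 1 ∉ J)
    (oR : ∀ j ∈ R, j - t + 1 ∉ J) (oL : ∀ j ∈ J, j ∉ R → j - t ∉ J) :
    (J.filter (fun i => i + t - 1 ∈ J ∨ i + t ∈ J)).card =
      (J.filter (fun j => j - t ∈ J ∨ j - t + 1 ∈ J)).card := by
  classical
  refine card_bij (fun i _ => if i + t - 1 ∈ J then i + t - 1 else i + t) ?_ ?_ ?_
  · intro i hi
    rw [mem_filter] at hi ⊢
    by_cases h : i + t - 1 ∈ J
    · simp only [if_pos h]
      exact ⟨h, Or.inr (by rw [show i + t - 1 - t + 1 = i by ring]; exact hi.1)⟩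
    · simp only [if_neg h]
      refine ⟨hi.2.resolve_left h, Or.inl ?_⟩
      rw [show i + t - t = i by ring]; exact hi.1
  · intro i hi i' hi' hii
    rw [mem_filter] at hi hi'
    have key : ∀ a b : ZMod m, a ∈ J → b ∈ J → a + t - 1 ∈ J → b + t - 1 = a + t - 1 + 1 - 1 →
        a = b := by
      intro a b _ _ _ h; linear_combination -h
    by_cases h : i + t - 1 ∈ J
    · by_cases h' : i' + t - 1 ∈ J
      · simp only [if_pos h, if_pos h'] at hii
        linear_combination hii
      · simp only [if_pos h, if_neg h'] at hii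
        exfalso
        -- j = i + t - 1 = i' + t
        have h1 : i + t - 1 - t = i' := by linear_combination hii
        have h2 : i + t - 1 - t + 1 = i := by ring
        by_cases hR : i + t - 1 ∈ R
        · exact oR _ hR (by rw [h2]; exact hi.1)
        · exact oL _ h hR (by rw [h1]; exact hi'.1)
    · by_cases h' : i' + t - 1 ∈ J
      · simp only [if_neg h, if_pos h'] at hii
        exfalso
        have h1 : i' + t - 1 - t = i := by linear_combination -hii
        have h2 : i' + t - 1 - t + 1 = i' := by ring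
        by_cases hR : i' + t - 1 ∈ R
        · exact oR _ hR (by rw [h2]; exact hi'.1)
        · exact oL _ h' hR (by rw [h1]; exact hi.1)
      · simp only [if_neg h, if_neg h'] at hii
        linear_combination hii
  · intro j hj
    rw [mem_filter] at hj
    rcases hj.2 with h | h
    · refine ⟨j - t, mem_filter.2 ⟨h, Or.inr (by rw [sub_add_cancel]; exact hj.1)⟩, ?_⟩
      have h1 : j - t + t - 1 ∉ J := by
        intro h2
        have h3 := sep _ h2
        rw [show j - t + t - 1 + 1 = j by ring] at h3
        exact h3 hj.1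
      simp only [if_neg h1]; ring
    · have h1 : j - t + 1 + t - 1 = j := by ring
      refine ⟨j - t + 1, mem_filter.2 ⟨h, Or.inl (by rw [h1]; exact hj.1)⟩, ?_⟩
      simp only [h1, if_pos hj.1]

theorem exists_skip {m : ℕ} [NeZero m] {t : ZMod m} {J R : Finset (ZMod m)} (hRJ : R ⊆ J)
    (sep : ∀ j ∈ J, j + 1 ∉ J) (cap : ∀ j ∈ R, j + 2 ∈ J → j + 2 ∈ R)
    (oR : ∀ j ∈ R, j - t + 1 ∉ J) (oL : ∀ j ∈ J, j ∉ R → j - t ∉ J)
    (ex : ∀ i ∈ J, ∀ i' ∈ J, i + t - 1 ∉ J → i + t ∉ J → i' + t - 1 ∉ J → i' + t ∉ J → i = i')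
    (hs : 2 * J.card < m) :
    ∃ c e : ZMod m, Skip J R c e t ∧ ∃ s : ZMod m, ∀ j ∈ J, j ≠ s → j - t ∈ J ∨ j - t + 1 ∈ J := by
  classical
  have hcard := JSk_card sep oR oL
  have hskR : ∀ i ∈ J, ∀ j ∈ R, i - 1 + t ≠ j := by
    intro i hi j hj h
    exact oR j hj (by rw [← h, show i - 1 + t - t + 1 = i by ring]; exact hi)
  have hskL : ∀ i ∈ J, ∀ j ∈ J, j ∉ R → i - 1 + t ≠ j - 1 := by
    intro i hi j hj hjR h
    have h1 : j - t = i := by linear_combination -h
    exact oL j hj hjR (by rw [h1]; exact hi)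
  by_cases hex : ∃ i ∈ J, i + t - 1 ∉ J ∧ i + t ∉ J
  · obtain ⟨i0, hi0, hi1, hi2⟩ := hex
    have hD : J.filter (fun i => i + t - 1 ∈ J ∨ i + t ∈ J) = J.erase i0 := by
      ext i
      rw [mem_filter, mem_erase]
      constructor
      · rintro ⟨h1, h2⟩
        refine ⟨?_, h1⟩
        rintro rfl
        rcases h2 with h2 | h2
        · exact hi1 h2
        · exact hi2 h2
      · rintro ⟨h1, h2⟩
        refine ⟨h2, ?_⟩
        by_contra h3
        rw [not_or] at h3
        exact h1 (ex i h2 i0 hi0 h3.1 h3.2 hi1 hi2)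
    rw [hD, card_erase_of_mem hi0] at hcard
    have hJpos : 0 < J.card := card_pos.2 ⟨i0, hi0⟩
    have hone : (J.filter (fun j => ¬ (j - t ∈ J ∨ j - t + 1 ∈ J))).card = 1 := by
      have := card_filter_add_card_filter_not (s := J) (fun j => j - t ∈ J ∨ j - t + 1 ∈ J)
      omega
    obtain ⟨s, hs1⟩ := card_eq_one.1 hone
    have hsm : s ∈ J.filter (fun j => ¬ (j - t ∈ J ∨ j - t + 1 ∈ J)) := by rw [hs1]; simp
    rw [mem_filter, not_or] at hsm
    obtain ⟨hsJ, hst, hst1⟩ := hsm
    refine ⟨i0 + t - 1, if s ∈ R then s - 1 else s, ?_, s, ?_⟩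
    · refine ⟨hRJ, sep, cap, hi1, by rw [sub_add_cancel]; exact hi2, ?_, hskR, hskL, ?_, ?_, ?_, ?_⟩
      · intro j hj
        by_cases hj0 : j = i0
        · right; right; rw [hj0]; ring
        · have h1 : j ∈ J.filter (fun i => i + t - 1 ∈ J ∨ i + t ∈ J) := by
            rw [hD, mem_erase]; exact ⟨hj0, hj⟩
          rw [mem_filter] at h1
          rcases h1.2 with h2 | h2
          · left; rw [show j - 1 + t = j + t - 1 by ring]; exact h2
          · right; left; rw [show j - 1 + t + 1 = j + t by ring]; exact h2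
      · by_cases hR : s ∈ R
        · rw [if_pos hR]; right; left; rw [sub_add_cancel]; exact hsJ
        · rw [if_neg hR]; left; exact hsJ
      · intro j hj
        by_cases hR : s ∈ R
        · rw [if_pos hR]
          intro h
          apply sep j (hRJ hj)
          rw [← h, sub_add_cancel]; exact hsJ
        · rw [if_neg hR]
          rintro rfl
          exact hR hj
      · intro j hj hjR
        by_cases hR : s ∈ R
        · rw [if_pos hR]
          intro h
          have : j = s := by linear_combination -h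
          exact hjR (this ▸ hR)
        · rw [if_neg hR]
          intro h
          apply sep s hsJ
          rw [show s + 1 = j by linear_combination h]; exact hj
      · intro i hi
        by_cases hR : s ∈ R
        · rw [if_pos hR]
          intro h
          exact hst (by rw [show s - t = i by linear_combination h]; exact hi)
        · rw [if_neg hR]
          intro h
          exact hst1 (by rw [show s - t + 1 = i by linear_combination h]; exact hi)
    · intro j hj hjs
      by_contra hcon
      have : j ∈ J.filter (fun j => ¬ (j - t ∈ J ∨ j - t + 1 ∈ J)) := mem_filter.2 ⟨hj, hcon⟩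
      rw [hs1, mem_singleton] at this
      exact hjs this
  · have hex' : ∀ i ∈ J, i + t - 1 ∈ J ∨ i + t ∈ J := by
      intro i hi
      by_contra hcon
      rw [not_or] at hcon
      exact hex ⟨i, hi, hcon⟩
    have hD : J.filter (fun i => i + t - 1 ∈ J ∨ i + t ∈ J) = J := filter_true_of_mem hex'
    rw [hD] at hcard
    have hall : J.filter (fun j => j - t ∈ J ∨ j - t + 1 ∈ J) = J :=
      eq_of_subset_of_card_le (filter_subset _ _) (by rw [← hcard])
    obtain ⟨c, hc⟩ : ∃ c : ZMod m, c ∉ J ∪ J.image (fun j => j - 1) := by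
      by_contra hcon
      push Not at hcon
      have h1 : (univ : Finset (ZMod m)) ⊆ J ∪ J.image (fun j => j - 1) := fun x _ => hcon x
      have h2 := card_le_card h1
      have h3 := card_union_le J (J.image (fun j => j - 1))
      have h4 : (J.image (fun j => j - 1)).card ≤ J.card := card_image_le
      rw [card_univ, ZMod.card] at h2
      omega
    rw [mem_union, not_or, mem_image] at hc
    have hc1 : c + 1 ∉ J := fun h => hc.2 ⟨c + 1, h, by ring⟩
    refine ⟨c, c, ?_, 0, ?_⟩
    · refine ⟨hRJ, sep, cap, hc.1, hc1, ?_, hskR, hskL, Or.inr (Or.inr rfl), ?_, ?_, ?_⟩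
      · intro j hj
        rcases hex' j hj with h2 | h2
        · left; rw [show j - 1 + t = j + t - 1 by ring]; exact h2
        · right; left; rw [show j - 1 + t + 1 = j + t by ring]; exact h2
      · intro j hj h
        exact hc.1 (h ▸ hRJ hj)
      · intro j hj _ h
        exact hc1 (by rw [show c + 1 = j by linear_combination h]; exact hj)
      · intro i hi h
        rcases hex' i hi with h2 | h2
        · exact hc.1 (by rw [show c = i + t - 1 by linear_combination h]; exact h2)
        · exact hc1 (by rw [show c + 1 = i + t by linear_combination h]; exact h2)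
    · intro j hj _
      have h1 : j ∈ J.filter (fun j => j - t ∈ J ∨ j - t + 1 ∈ J) := by rw [hall]; exact hj
      exact (mem_filter.1 h1).2

end Pool.Agent.H67.CT
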