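import Pool.Agent.H67.CT.Base

/-!
# Prim: the fields `F_{2^κ}` and the minimal `t` with `ω^t = 1 + ω`

`K = GaloisField 2 κ`, `m = 2^κ - 1 ≥ 3`; the unit group is cyclic of order `m`; for a generator `ω` put
`pw i = ω ^ i.val` (`PW`: `pow_add`, `ω ^ m = 1`, `ZMod.val_add`; or `zmodCyclicMulEquiv`/
`IsCyclic`).  `1 + pw 1 ≠ 0` because `pw 1 ≠ 1`; so there is `t < m` with `pw t = 1 + pw 1`; `t ≠ 0`
(`pw 0 = 1`, `pw 1 ≠ 0`), `t ≠ 1`.
Let `t` be the least natural number `≥ 2` such that for some `pw` with `PW m K pw`: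
`pw t = 1 + pw 1` (`Nat.find`).  For any such pair `(pw, t)` with `t < m`:
* inversion: `pw' i = pw (-i)` is again `PW`, and `1 + pw' 1 = pw (-1) (pw 1 + 1) = pw (t - 1)
  = pw' (1 - t) = pw' (m + 1 - t)`, with `2 ≤ m + 1 - t < m`; so `t ≤ m + 1 - t` by minimality;
* if `t h ≡ 1 (mod m)`: `pw' i = pw (t i)` is `PW` (`t` is a unit), `pw' 1 = pw t = 1 + pw 1`,
  `pw' h = pw 1 = 1 + pw' 1`; `h ≥ 2` (`h = 0` is impossible, `h = 1` gives `t = 1`), so `t ≤ h` by
  minimality, and by inversion of `pw'`: `t ≤ m + 1 - h`.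
The additive equivalences: `exists_addEquiv` (Pool/Agent/H57/SS/Tree.lean); the card of
`GaloisField 2 κ` is `2^κ` (`GaloisField.card`), use `Fintype.ofFinite`.
-/

set_option autoImplicit false

open Finset

namespace Pool.Agent.H67.CT

open Pool.Agent.H57.SS

theorem Prim_exists {K : Type} [Field K] [Finite K] (hK : ∀ x : K, x + x = 0) (m : ℕ)
    (hm : Nat.card Kˣ = m) : ∃ pw : ZMod m → K, PW m K pw := by
  subst hm
  have hc : IsCyclic Kˣ := inferInstance
  let e := zmodCyclicMulEquiv hc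
  refine ⟨fun i => ((e (Multiplicative.ofAdd i) : Kˣ) : K), ⟨hK, ?_, ?_, ?_, ?_⟩⟩
  · simp
  · intro i j
    simp [ofAdd_add]
  · intro i j hij
    have h1 : e (Multiplicative.ofAdd i) = e (Multiplicative.ofAdd j) := Units.ext hij
    exact Multiplicative.ofAdd.injective (e.injective h1)
  · intro x hx
    refine ⟨Multiplicative.toAdd (e.symm (Units.mk0 x hx)), ?_⟩
    simp

theorem Prim_inv {m : ℕ} {K : Type} [Field K] {pw : ZMod m → K} (h : PW m K pw) {t : ℕ}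
    (ht : pw (t : ZMod m) = 1 + pw 1) (htm : t < m) :
    ∃ pw' : ZMod m → K, PW m K pw' ∧ pw' ((m + 1 - t : ℕ) : ZMod m) = 1 + pw' 1 := by
  refine ⟨fun i => pw (-i), ⟨h.two, ?_, ?_, ?_, ?_⟩, ?_⟩
  · simp [h.zero]
  · intro i j
    rw [neg_add, h.add]
  · intro i j hij
    exact neg_injective (h.inj hij)
  · intro x hx
    obtain ⟨i, hi⟩ := h.surj x hx
    exact ⟨-i, by simp [hi]⟩
  · have h1 : ((m + 1 - t : ℕ) : ZMod m) = 1 - (t : ZMod m) := by
      rw [Nat.cast_sub (by omega)]; simp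
    have h2 : pw 1 * pw (-1) = 1 := by rw [← h.add, add_neg_cancel, h.zero]
    simp only [h1]
    rw [neg_sub, sub_eq_add_neg, h.add, ht]
    linear_combination h2

theorem Prim_unit {m : ℕ} {K : Type} [Field K] {pw : ZMod m → K} (h : PW m K pw) {t h' : ℕ}
    (ht : pw (t : ZMod m) = 1 + pw 1) (hth : (t : ZMod m) * (h' : ZMod m) = 1) :
    ∃ pw' : ZMod m → K, PW m K pw' ∧ pw' (h' : ZMod m) = 1 + pw' 1 := by
  refine ⟨fun i => pw (t * i), ⟨h.two, ?_, ?_, ?_, ?_⟩, ?_⟩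
  · simp [h.zero]
  · intro i j
    rw [mul_add, h.add]
  · intro i j hij
    have h1 := h.inj hij
    have h2 : (h' : ZMod m) * (t * i) = h' * (t * j) := by rw [h1]
    rw [← mul_assoc, ← mul_assoc, mul_comm (h' : ZMod m), hth, one_mul, one_mul] at h2
    exact h2
  · intro x hx
    obtain ⟨i, hi⟩ := h.surj x hx
    refine ⟨h' * i, ?_⟩
    rw [← mul_assoc, hth, one_mul, hi]
  · simp only [mul_one, hth, ht]
    have := h.two 1
    linear_combination -this

theorem exists_field (κ : ℕ) (hκ : 2 ≤ κ) :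
    ∃ (K : Type) (_ : Field K) (pw : ZMod (2 ^ κ - 1) → K) (t : ℕ),
      PW (2 ^ κ - 1) K pw ∧ pw (t : ZMod (2 ^ κ - 1)) = 1 + pw 1 ∧ 2 ≤ t ∧ 2 * t ≤ 2 ^ κ ∧
      (∀ h : ℕ, h < 2 ^ κ - 1 → t * h % (2 ^ κ - 1) = 1 → t ≤ h ∧ t + h ≤ 2 ^ κ) ∧
      Nonempty ((K × ZMod 2) ≃+ (Fin (κ + 1) → ZMod 2)) ∧
      Nonempty (K ≃+ (Fin κ → ZMod 2)) := by
  classical
  have h4 : 2 ^ 2 ≤ 2 ^ κ := Nat.pow_le_pow_right (by norm_num) hκ
  have hcard : Nat.card (GaloisField 2 κ) = 2 ^ κ := GaloisField.card 2 κ (by omega)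
  have hfin : Finite (GaloisField 2 κ) := Nat.finite_of_card_ne_zero (by rw [hcard]; omega)
  have hK : ∀ x : GaloisField 2 κ, x + x = 0 := fun x => CharTwo.add_self_eq_zero x
  have hcu : Nat.card (GaloisField 2 κ)ˣ = 2 ^ κ - 1 := by
    rw [Nat.card_units, hcard]
  set K := GaloisField 2 κ with hKdef
  set m := 2 ^ κ - 1 with hm
  have hm3 : 3 ≤ m := by omega
  have hne : NeZero m := ⟨by omega⟩
  have hne1 : Nontrivial (ZMod m) := by
    have : Fact (1 < m) := ⟨by omega⟩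
    infer_instance
  obtain ⟨pw0, hpw0⟩ := Prim_exists hK m hcu
  have h10 : 1 + pw0 1 ≠ 0 := by
    intro h
    have h1 : pw0 1 = pw0 0 := by
      rw [hpw0.zero]
      have := hK 1
      linear_combination h - this
    exact one_ne_zero (hpw0.inj h1)
  have hex : ∃ t : ℕ, 2 ≤ t ∧ t < m ∧ ∃ pw : ZMod m → K, PW m K pw ∧
      pw (t : ZMod m) = 1 + pw 1 := by
    obtain ⟨i, hi⟩ := hpw0.surj _ h10
    refine ⟨i.val, ?_, ZMod.val_lt i, pw0, hpw0, by rw [ZMod.natCast_zmod_val]; exact hi⟩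
    have h0 := hpw0.t_ne_zero hi
    have h1 := hpw0.t_ne_one hi
    by_contra hcon
    have h2 : i.val = 0 ∨ i.val = 1 := by omega
    rcases h2 with h2 | h2
    · exact h0 ((ZMod.val_eq_zero i).1 h2)
    · apply h1
      rw [← ZMod.natCast_zmod_val i, h2, Nat.cast_one]
  obtain ⟨ht2, htm, pw, hpw, ht⟩ := Nat.find_spec hex
  have hmin : ∀ t', 2 ≤ t' → t' < m → (∃ pw : ZMod m → K, PW m K pw ∧
      pw (t' : ZMod m) = 1 + pw 1) → Nat.find hex ≤ t' := fun t' h1 h2 h3 =>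
    Nat.find_min' hex ⟨h1, h2, h3⟩
  set t := Nat.find hex with htdef
  have hft : Fintype K := Fintype.ofFinite K
  have hfc : Fintype.card K = 2 ^ κ := by rw [← Nat.card_eq_fintype_card, hcard]
  refine ⟨K, inferInstance, pw, t, hpw, ht, ht2, ?_, ?_, ?_, ?_⟩
  · have := hmin (m + 1 - t) (by omega) (by omega) (Prim_inv hpw ht htm)
    omega
  · intro h hh hth
    have hz : (t : ZMod m) * (h : ZMod m) = 1 := by
      rw [← Nat.cast_mul, ← ZMod.natCast_mod, hth, Nat.cast_one]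
    have hh2 : 2 ≤ h := by
      by_contra hcon
      have h2 : h = 0 ∨ h = 1 := by omega
      rcases h2 with rfl | rfl
      · rw [mul_zero, Nat.zero_mod] at hth; omega
      · rw [mul_one, Nat.mod_eq_of_lt htm] at hth; omega
    obtain ⟨pw', hpw', ht'⟩ := Prim_unit hpw ht hz
    have h1 := hmin h hh2 hh ⟨pw', hpw', ht'⟩
    have h2 := hmin (m + 1 - h) (by omega) (by omega) (Prim_inv hpw' ht' hh)
    omega
  · apply exists_addEquiv
    · intro x
      refine Prod.ext (hK x.1) ?_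
      have : ∀ y : ZMod 2, y + y = 0 := by decide
      exact this x.2
    · rw [Fintype.card_prod, hfc, ZMod.card, pow_succ]
  · exact exists_addEquiv K hK κ hfc

end Pool.Agent.H67.CT
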