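import Pool.Agent.H67.CT.Base

/-!
# Small: three explicit labelled caterpillars
-/

set_option autoImplicit false

open Finset

namespace Pool.Agent.H67.CT

/-- binary digits -/
def bits (k : ℕ) (x : Fin (2 ^ k)) : Fin k → ZMod 2 := fun i => if x.val.testBit i.val then 1 else 0

theorem hasCat_1_1 : HasCat (Fin 1 → ZMod 2) 1 := by
  refine ⟨Fin 2, inferInstance, inferInstance, ⟨⟨bits 1, fun _ => 0, 0, {0}, fun x => x.val, ?_, ?_,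
    ?_, ?_, ?_, ?_, ?_, ?_, ?_⟩⟩⟩
  all_goals decide

theorem hasCat_2_3 : HasCat (Fin 2 → ZMod 2) 3 := by
  refine ⟨Fin 4, inferInstance, inferInstance, ⟨⟨bits 2, ![0, 2, 0, 2], 0, {0, 1, 2}, ![0, 2, 1, 8], ?_, ?_,
    ?_, ?_, ?_, ?_, ?_, ?_, ?_⟩⟩⟩
  all_goals decide

theorem hasCat_4_13 : HasCat (Fin 4 → ZMod 2) 13 := by
  refine ⟨Fin 16, inferInstance, inferInstance, ⟨⟨bits 4,
    ![0, 8, 3, 11, 10, 0, 1, 3, 7, 4, 6, 0, 6, 15, 13, 9], 0,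
    {0, 1, 3, 4, 6, 7, 8, 9, 10, 11, 13, 14, 15},
    ![0, 5, 20, 2, 8, 20, 6, 3, 4, 9, 7, 1, 20, 11, 12, 10], ?_, ?_, ?_, ?_, ?_, ?_, ?_, ?_, ?_⟩⟩⟩
  all_goals decide

end Pool.Agent.H67.CT
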