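import Pool.Agent.H67.CT.FinA
import Pool.Agent.H67.CT.FinB
import Pool.Agent.H67.CT.FamA
import Pool.Agent.H67.CT.FamU
import Pool.Agent.H67.CT.FamD
import Pool.Agent.H67.CT.JEx
import Pool.Agent.H67.CT.JSk
import Pool.Agent.H67.CT.JCn
import Pool.Agent.H67.CT.JCt
import Pool.Agent.H67.CT.Prim
import Pool.Agent.H67.CT.Small

/-!
# Asm: every spine length occurs, and the labelling of every odd caterpillar
-/

set_option autoImplicit false

open Finset

namespace Pool.Agent.H67.CT

open Pool.Agent.H57.SS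

theorem hasCat_skip (k L : ℕ) (hk : 3 ≤ k) (hL : 5 * L + 6 < 2 ^ k - 1) :
    HasCat (Fin k → ZMod 2) (2 ^ k - 1 - L) := by
  obtain ⟨K, _, pw, t, hpw, ht, ht2, h2t, -, -, ⟨e⟩⟩ := exists_field k (by omega)
  have h8 : 2 ^ 3 ≤ 2 ^ k := Nat.pow_le_pow_right (by norm_num) hk
  have hne : NeZero (2 ^ k - 1) := ⟨by omega⟩
  have hodd : Odd (2 ^ k - 1) := by
    have h2 : 2 ^ k = 2 * 2 ^ (k - 1) := by
      rw [← pow_succ', Nat.sub_add_cancel (by omega)]
    exact ⟨2 ^ (k - 1) - 1, by omega⟩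
  obtain ⟨J, R, hRJ, hJc, sep, cap, oR, oL, ex⟩ := exists_J (2 ^ k - 1) t L hodd ht2 (by omega)
    (by omega)
  obtain ⟨c, e', hS, s, hs⟩ := exists_skip hRJ sep cap oR oL ex (by omega)
  obtain ⟨z, v, h1, h2, h3, h4, h5, h6, h7, h8, h9, h10, h11, h12⟩ :=
    exists_z (c := c) (e := e') hpw hRJ s hs (by omega)
  have := cat_of_skip (by omega) hpw ht hS h1 h2 h3 h4 h5 h6 h7 h8 h9 h10 h11 h12
  rw [hJc] at this
  exact this.congr e

theorem hasCat_ladder (κ w : ℕ) (hκ : 2 ≤ κ) (hw1 : 1 ≤ w) (hwq : w < 2 ^ κ)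
    (hw : 5 * w ≤ 3 * 2 ^ κ + 2) (h13 : ¬ (κ = 3 ∧ w = 5)) :
    HasCat (Fin (κ + 1) → ZMod 2) (2 ^ κ + w) := by
  obtain ⟨K, _, pw, t, hpw, ht, ht2, h2t, hmin, ⟨e⟩, -⟩ := exists_field κ hκ
  have h4 : 2 ^ 2 ≤ 2 ^ κ := Nat.pow_le_pow_right (by norm_num) hκ
  set q := 2 ^ κ with hq
  have hne : NeZero (q - 1) := ⟨by omega⟩
  have hodd : Odd (q - 1) := by
    have h2 : q = 2 * 2 ^ (κ - 1) := by
      rw [hq, ← pow_succ', Nat.sub_add_cancel (by omega)]
    exact ⟨2 ^ (κ - 1) - 1, by omega⟩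
  have hqq : q - 1 + 1 + w = q + w := by omega
  -- size of q
  have hsize : q = 4 ∨ q = 8 ∨ q = 16 ∨ 32 ≤ q := by
    rcases Nat.lt_or_ge κ 5 with h | h
    · interval_cases κ <;> simp [hq]
    · right; right; right
      calc 32 = 2 ^ 5 := by norm_num
        _ ≤ 2 ^ κ := Nat.pow_le_pow_right (by norm_num) h
  have hκ8 : q = 8 → κ = 3 := by
    intro h
    have : (2 : ℕ) ^ κ = 2 ^ 3 := by rw [← hq, h]; norm_num
    exact Nat.pow_right_injective le_rfl this
  by_cases hA : w ≤ 3 ∨ w + t + t % 2 ≤ q - 1 + 1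
  · have := famA (by omega) hodd hpw ht ht2 (by omega) w hw1 hA
    rw [hqq] at this
    exact this.congr e
  · push Not at hA
    obtain ⟨hA1, hA2⟩ := hA
    have hmod : t % 2 ≤ 1 := by omega
    by_cases hg : Nat.gcd t (q - 1) = 1
    · obtain ⟨h0, hh0⟩ := Nat.exists_mul_mod_eq_one_of_coprime hg (by omega)
      obtain ⟨hlt, hh⟩ := hh0
      obtain ⟨hm1, hm2⟩ := hmin h0 hlt hh
      have := famU (by omega) hpw ht ht2 (by omega) (h := h0) (by omega) hlt hh w hw1 (by omega)
      rw [hqq] at this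
      exact this.congr e
    · have hg3 : 3 ≤ Nat.gcd t (q - 1) := by
        have h1 : 0 < Nat.gcd t (q - 1) := Nat.gcd_pos_of_pos_right _ (by omega)
        have h2 : Nat.gcd t (q - 1) ≠ 2 := by
          intro h
          have h3 : 2 ∣ q - 1 := h ▸ Nat.gcd_dvd_right t (q - 1)
          obtain ⟨b, hb⟩ := hodd
          omega
        omega
      have hdiv : (q - 1) / Nat.gcd t (q - 1) ≤ (q - 1) / 3 :=
        Nat.div_le_div_left hg3 (by norm_num)
      have := famD (by omega) hodd hpw ht ht2 (by omega) hg3 w hw1 (by omega)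
      rw [hqq] at this
      exact this.congr e

theorem hasCat_all (k I : ℕ) (hk : 2 ≤ k) (h1 : 2 ^ (k - 1) < I) (h2 : I < 2 ^ k) :
    HasCat (Fin k → ZMod 2) I := by
  rcases Nat.lt_or_ge k 3 with hk3 | hk3
  · have : k = 2 := by omega
    subst this
    have : I = 3 := by omega
    subst this
    exact hasCat_2_3
  · obtain ⟨κ, rfl⟩ : ∃ κ, k = κ + 1 := ⟨k - 1, by omega⟩
    rw [Nat.add_sub_cancel] at h1
    have hpow : 2 ^ (κ + 1) = 2 * 2 ^ κ := pow_succ' 2 κ
    by_cases hJ : 5 * (2 ^ (κ + 1) - 1 - I) + 6 < 2 ^ (κ + 1) - 1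
    · have := hasCat_skip (κ + 1) (2 ^ (κ + 1) - 1 - I) hk3 hJ
      rwa [show 2 ^ (κ + 1) - 1 - (2 ^ (κ + 1) - 1 - I) = I by omega] at this
    · by_cases h13 : κ = 3 ∧ I - 2 ^ κ = 5
      · obtain ⟨rfl, h13⟩ := h13
        have : I = 13 := by omega
        subst this
        exact hasCat_4_13
      · have := hasCat_ladder κ (I - 2 ^ κ) (by omega) (by omega) (by omega) (by omega) h13
        rwa [show 2 ^ κ + (I - 2 ^ κ) = I by omega] at this

/-- A labelling of every odd caterpillar (in the sense: every vertex has at most two non-leaf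
neighbours). -/
theorem plab_caterpillar {V : Type*} [Fintype V] [DecidableEq V] {T : SimpleGraph V}
    [DecidableRel T.Adj] (hT : T.IsTree) (hodd : ∀ v, Odd (T.degree v))
    (hcat : ∀ v, (univ.filter (fun w => T.Adj v w ∧ T.degree w ≠ 1)).card ≤ 2) {n : ℕ}
    (hc : Fintype.card V = 2 ^ n) :
    ∃ r : V, PLab (par hT r) r univ (Fin n → ZMod 2) := by
  set I := (univ.filter (fun v => T.degree v ≠ 1)).card with hI
  rcases Nat.eq_zero_or_pos I with h0 | hpos
  · -- all the vertices are leaves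
    have hE : univ.filter (fun v => T.degree v ≠ 1) = ∅ := card_eq_zero.1 h0
    have hall : ∀ v, T.degree v = 1 := by
      intro v
      by_contra hv
      have : v ∈ univ.filter (fun v => T.degree v ≠ 1) := by simp [hv]
      rw [hE] at this
      simp at this
    have h1 := T.sum_degrees_eq_twice_card_edges
    have h2 := hT.card_edgeFinset
    have h3 : ∑ v, T.degree v = Fintype.card V := by
      rw [sum_congr rfl (fun v _ => hall v)]; simp
    have hcard : Fintype.card V = 2 := by omega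
    obtain ⟨r⟩ := hT.connected.nonempty
    refine ⟨r, ?_⟩
    refine exists_plab (add_self_fin n) (par_root hT r) (d := fun v => T.dist r v)
      (fun v hv => dist_par hT r v hv) univ.card univ rfl (closed_univ hT r hodd) ?_ ?_
    · simp [hc]
    · have h5 : Fintype.card (Fin n → ZMod 2) = 2 ^ n := by simp
      rw [h5, card_univ, hcard, ← hc, hcard]; norm_num
  · by_cases hp : ∃ κ, I = 2 ^ κ
    · obtain ⟨κ, hκ⟩ := hp
      rcases Nat.eq_zero_or_pos κ with h0 | hκ1
      · subst h0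
        apply fin_cat hT hodd hcat hc (k := 1) le_rfl
        rw [← hI, hκ]
        exact hasCat_1_1
      · apply fin_pow hT hodd hcat hc hκ1 hκ
        rcases Nat.lt_or_ge κ 2 with h2 | h2
        · have : κ = 1 := by omega
          subst this
          exact hasCat_1_1
        · have h4 : 2 * 2 ^ (κ - 1) = 2 ^ κ := by
            rw [← pow_succ', Nat.sub_add_cancel (by omega)]
          have h5 : 2 ^ 1 ≤ 2 ^ (κ - 1) := Nat.pow_le_pow_right (by norm_num) (by omega)
          exact hasCat_all κ _ h2 (by omega) (by omega)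
    · push Not at hp
      set k := Nat.log 2 I + 1 with hk
      have hI1 : I ≠ 1 := by
        intro h; exact hp 0 (by rw [h]; norm_num)
      have h1 : 2 ^ (k - 1) ≤ I := by
        rw [hk, Nat.add_sub_cancel]; exact Nat.pow_log_le_self 2 (by omega)
      have h2 : I < 2 ^ k := Nat.lt_pow_succ_log_self (by norm_num) I
      have hk2 : 2 ≤ k := by
        by_contra hcon
        have : k = 1 := by omega
        rw [this] at h2
        omega
      exact fin_cat hT hodd hcat hc (by omega)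
        (hasCat_all k I hk2 (lt_of_le_of_ne h1 (fun h => hp _ h.symm)) h2)

end Pool.Agent.H67.CT
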