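import Mathlib
import Pool.Agent.H57.SS.Core

/-!
# Set-graceful caterpillars (project MP_3cf290_CT): definitions

Theorem aimed at: every odd caterpillar on `2^n` vertices is set-graceful, hence set-sequential.

`CatStr X J I`: a rooted caterpillar on the vertex set `X`, given by its parent function `P`, root `ρ`
(the last vertex of the spine), spine `Sp` with exactly `I` vertices, every spine vertex carries at
most one leaf, and a bijection `f` from the vertices onto the group `J` such that the sums along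
the edges are pairwise distinct.
-/

set_option autoImplicit false

open Finset

namespace Pool.Agent.H67.CT

/-- A labelled rooted caterpillar. -/
structure CatStr (X J : Type) [AddCommGroup J] (I : ℕ) where
  f : X → J
  P : X → X
  ρ : X
  Sp : Finset X
  rk : X → ℕ
  bij : Function.Bijective f
  root : ρ ∈ Sp
  Pρ : P ρ = ρ
  PSp : ∀ x, P x ∈ Sp
  rkP : ∀ x, x ≠ ρ → rk (P x) < rk x
  injSp : ∀ x ∈ Sp, ∀ y ∈ Sp, x ≠ ρ → y ≠ ρ → P x = P y → x = y
  injLf : ∀ x y, x ∉ Sp → y ∉ Sp → P x = P y → x = y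
  lab : ∀ x y, x ≠ ρ → y ≠ ρ → f x + f (P x) = f y + f (P y) → x = y
  card : Sp.card = I

/-- There is a set-graceful caterpillar on the group `J` with a spine of `I` vertices and at most one
leaf at every spine vertex. -/
def HasCat (J : Type) [AddCommGroup J] (I : ℕ) : Prop :=
  ∃ (X : Type) (_ : Fintype X) (_ : DecidableEq X), Nonempty (CatStr X J I)

theorem HasCat.congr {J J' : Type} [AddCommGroup J] [AddCommGroup J'] (e : J ≃+ J') {I : ℕ}
    (h : HasCat J I) : HasCat J' I := by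
  obtain ⟨X, i1, i2, ⟨s⟩⟩ := h
  refine ⟨X, i1, i2, ⟨⟨fun x => e (s.f x), s.P, s.ρ, s.Sp, s.rk, e.bijective.comp s.bij, s.root, s.Pρ,
    s.PSp, s.rkP, s.injSp, s.injLf, ?_, s.card⟩⟩⟩
  intro x y hx hy h
  apply s.lab x y hx hy
  rw [← map_add, ← map_add] at h
  exact e.injective h

/-- `pw i = ω ^ i` for a primitive element `ω` of a field with `m + 1` elements of
characteristic two. -/
structure PW (m : ℕ) (K : Type) [Field K] (pw : ZMod m → K) : Prop where
  two : ∀ x : K, x + x = 0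
  zero : pw 0 = 1
  add : ∀ i j, pw (i + j) = pw i * pw j
  inj : Function.Injective pw
  surj : ∀ x : K, x ≠ 0 → ∃ i, pw i = x

theorem PW.ne_zero {m : ℕ} {K : Type} [Field K] {pw : ZMod m → K} (h : PW m K pw) (i : ZMod m) :
    pw i ≠ 0 := by
  intro h0
  have h1 := h.add i (-i)
  rw [add_neg_cancel, h.zero, h0, zero_mul] at h1
  exact one_ne_zero h1

/-- `ω^i + ω^(i+1) = ω^(i+t)` -/
theorem PW.succ {m : ℕ} {K : Type} [Field K] {pw : ZMod m → K} (h : PW m K pw) {t : ZMod m}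
    (ht : pw t = 1 + pw 1) (i : ZMod m) : pw i + pw (i + 1) = pw (i + t) := by
  rw [h.add, h.add, ht]; ring

/-- `ω^i + ω^(i+2) = ω^(i+2t)` -/
theorem PW.succ2 {m : ℕ} {K : Type} [Field K] {pw : ZMod m → K} (h : PW m K pw) {t : ZMod m}
    (ht : pw t = 1 + pw 1) (i : ZMod m) : pw i + pw (i + 2) = pw (i + t + t) := by
  have h2 : pw 2 = pw 1 * pw 1 := by rw [← h.add]; norm_num
  have h3 := h.two (pw 1)
  rw [h.add, h.add, h.add i t, ht, h2]
  linear_combination (-(pw i)) * h3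

theorem PW.t_ne_zero {m : ℕ} {K : Type} [Field K] {pw : ZMod m → K} (h : PW m K pw) {t : ZMod m}
    (ht : pw t = 1 + pw 1) : t ≠ 0 := by
  rintro rfl
  rw [h.zero] at ht
  exact h.ne_zero 1 (left_eq_add.1 ht)

theorem PW.t_ne_one {m : ℕ} {K : Type} [Field K] {pw : ZMod m → K} (_h : PW m K pw) {t : ZMod m}
    (ht : pw t = 1 + pw 1) : t ≠ 1 := by
  rintro rfl
  exact one_ne_zero (right_eq_add.1 ht)

/-- Number of type changes along the ladder: `B` is the set of gaps of the second type (the two gaps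
next to the inserted zero count as the element `0`), `c` the cut. -/
def chg {m : ℕ} [NeZero m] (B : Finset (ZMod m)) (c : ZMod m) : ℕ :=
  (univ.filter (fun g : ZMod m => g ≠ c ∧ g ≠ c + 1 ∧ ¬ (g - 1 ∈ B ↔ g ∈ B))).card

/-- The hypotheses of the ladder lemma. -/
structure LadHyp {m : ℕ} (B : Finset (ZMod m)) (c a t : ZMod m) : Prop where
  zero : (0 : ZMod m) ∈ B
  cut : c ∉ B
  step : ∀ g ∈ B, g ≠ 0 → g + a ∈ B ∨ g + a = c
  s1 : a - t ∈ B ∨ a - t = c
  s2 : a - t + 1 ∈ B ∨ a - t + 1 = c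
  n1 : -t ∉ B
  n2 : 1 - t ∉ B
  ha : a ≠ 0

/-- Skip data: `J` the skipped positions, `R` those whose leaf hangs to the right, `c` the cut,
`e` the spare index.  The skip edge at `j` has index `j - 1 + t`, the leaf `j` has index `j` if
`j ∈ R` and `j - 1` otherwise. -/
structure Skip {m : ℕ} (J R : Finset (ZMod m)) (c e t : ZMod m) : Prop where
  RJ : R ⊆ J
  sep : ∀ j ∈ J, j + 1 ∉ J
  cap : ∀ j ∈ R, j + 2 ∈ J → j + 2 ∈ R
  c0 : c ∉ J
  c1 : c + 1 ∉ J
  /-- skip indices are free indices -/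
  sk : ∀ j ∈ J, j - 1 + t ∈ J ∨ j - 1 + t + 1 ∈ J ∨ j - 1 + t = c
  /-- skip indices are not leaf indices -/
  skR : ∀ i ∈ J, ∀ j ∈ R, i - 1 + t ≠ j
  skL : ∀ i ∈ J, ∀ j ∈ J, j ∉ R → i - 1 + t ≠ j - 1
  /-- the spare index is free, and neither a leaf index nor a skip index -/
  ef : e ∈ J ∨ e + 1 ∈ J ∨ e = c
  eR : ∀ j ∈ R, e ≠ j
  eL : ∀ j ∈ J, j ∉ R → e ≠ j - 1
  es : ∀ i ∈ J, e ≠ i - 1 + t

end Pool.Agent.H67.CT
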