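import Pool.Agent.H67.CR.Defs

/-!
# A bound for the number of collinear pairs in a set of points
-/

set_option autoImplicit false

namespace Pool.H67.CT

open Finset Classical
open Pool.H67.CR

variable {Ω J : Type*} [Fintype Ω] [Fintype J] {E T : J → Ω → Ω → Prop} {q : ℕ}

/-- pointwise identity -/
theorem bes_pt (h : Co E T q) (y z : Ω) :
    (univ.filter (fun a => T a y z)).card + q * (univ.filter (fun a => E a y z)).card =
      (q + 1) * (1 + if y = z then q ^ 2 else 0) := by
  by_cases hyz : y = z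
  · subst hyz
    have h1 : univ.filter (fun a => T a y y) = (univ : Finset J) := by
      ext a; simp [h.Trefl a y]
    have h2 : univ.filter (fun a => E a y y) = (univ : Finset J) := by
      ext a; simp [h.refl a y]
    rw [h1, h2, card_univ, h.dirs]
    simp only [if_true]
    ring
  · rw [if_neg hyz]
    by_cases hE : ∃ b, E b y z
    · obtain ⟨b, hb⟩ := hE
      have h1 : univ.filter (fun a => T a y z) = {b} := by
        ext a
        simp only [mem_filter, mem_univ, true_and, mem_singleton]
        constructor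
        · intro ha
          by_contra hab
          exact hyz (h.oneT a b y z hab hb ha)
        · rintro rfl
          exact h.ET _ _ _ hb
      have h2 : univ.filter (fun a => E a y z) = {b} := by
        ext a
        simp only [mem_filter, mem_univ, true_and, mem_singleton]
        constructor
        · intro ha
          by_contra hab
          exact hyz (h.one a b y z hab ha hb)
        · rintro rfl
          exact hb
      rw [h1, h2, card_singleton]
      ring
    · have hE' : ∀ a, ¬ E a y z := fun a ha => hE ⟨a, ha⟩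
      have h2 : univ.filter (fun a => E a y z) = (∅ : Finset J) := by
        ext a; simp [hE' a]
      rw [h.tri y z hE', h2, card_empty]
      ring

/-- every direction gives a partition into `q` classes -/
theorem bes_cs (h : Co E T q) (hq : 2 ≤ q) (a : J) (D : Finset Ω) :
    D.card ^ 2 ≤ q * ∑ y ∈ D, (D.filter (fun z => T a y z)).card := by
  rcases D.eq_empty_or_nonempty with hD | ⟨y0, hy0⟩
  · subst hD; simp
  obtain ⟨b, hb⟩ : ∃ b : J, b ≠ a := by
    have h1 : 1 < Fintype.card J := by
      rw [h.dirs]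
      have : 4 ≤ q ^ 2 := by nlinarith
      omega
    have : Nontrivial J := Fintype.one_lt_card_iff_nontrivial.1 h1
    exact exists_ne a
  obtain ⟨L, hL⟩ : ∃ L : Finset Ω, L = univ.filter (fun w => E b y0 w) := ⟨_, rfl⟩
  have hLc : L.card = q := by rw [hL]; exact h.cls b y0
  -- every point is in exactly one class
  have hex : ∀ z : Ω, (L.filter (fun w => T a w z)).card = 1 := by
    intro z
    obtain ⟨w, hw1, hw2⟩ := h.meetT a b y0 z hb.symm
    rw [card_eq_one]
    refine ⟨w, ?_⟩
    ext v
    rw [hL]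
    simp only [mem_filter, mem_univ, true_and, mem_singleton]
    constructor
    · rintro ⟨hv1, hv2⟩
      refine h.oneT a b v w hb.symm ?_ ?_
      · exact h.trans b v y0 w (h.symm b y0 v hv1) hw1
      · exact h.Ttrans a v z w hv2 (h.Tsymm a w z hw2)
    · rintro rfl
      exact ⟨hw1, hw2⟩
  have h1 : D.card = ∑ w ∈ L, (D.filter (fun z => T a w z)).card := by
    have h2 : D.card = ∑ z ∈ D, (L.filter (fun w => T a w z)).card := by
      rw [card_eq_sum_ones]
      exact sum_congr rfl fun z _ => (hex z).symm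
    rw [h2]
    simp only [card_filter]
    exact sum_comm
  have h3 : ∑ y ∈ D, (D.filter (fun z => T a y z)).card =
      ∑ w ∈ L, (D.filter (fun z => T a w z)).card ^ 2 := by
    have h4 : ∀ y ∈ D, (D.filter (fun z => T a y z)).card =
        ∑ w ∈ L.filter (fun w => T a w y), (D.filter (fun z => T a w z)).card := by
      intro y hy
      obtain ⟨w, hw⟩ := card_eq_one.1 (hex y)
      rw [hw, sum_singleton]
      have hwy : T a w y := by
        have : w ∈ L.filter (fun w => T a w y) := by rw [hw]; exact mem_singleton_self w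
        exact (mem_filter.1 this).2
      congr 1
      ext z
      simp only [mem_filter]
      refine and_congr_right fun _ => ⟨fun hz => h.Ttrans a w y z hwy hz, fun hz => ?_⟩
      exact h.Ttrans a y w z (h.Tsymm a w y hwy) hz
    rw [sum_congr rfl h4]
    have h5 : ∀ y ∈ D, ∑ w ∈ L.filter (fun w => T a w y), (D.filter (fun z => T a w z)).card =
        ∑ w ∈ L, if T a w y then (D.filter (fun z => T a w z)).card else 0 := by
      intro y _
      rw [sum_filter]
    rw [sum_congr rfl h5, sum_comm]
    refine sum_congr rfl fun w _ => ?_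
    rw [← sum_filter, sum_const, smul_eq_mul, pow_two]
  rw [h3, h1, ← hLc]
  exact sq_sum_le_card_mul_sum_sq

/-- A set `D` with at least `k` points on each of its lines in the directions of `M`. -/
theorem bes (h : Co E T q) (hq : 2 ≤ q) (D : Finset Ω) (hne : D.Nonempty) (M : Finset J) (k : ℕ) (hk : 1 ≤ k)
    (hD : ∀ y ∈ D, ∀ m ∈ M, k ≤ (D.filter (fun z => E m y z)).card) :
    M.card * (k - 1) * q ^ 2 ≤ (q - 1) * (q ^ 2 + D.card) := by
  have hd : 0 < D.card := hne.card_pos
  -- the sum of the `E`-part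
  have h1 : D.card * (M.card * (k - 1) + (q ^ 2 + 1)) ≤
      ∑ y ∈ D, ∑ z ∈ D, (univ.filter (fun a => E a y z)).card := by
    rw [card_eq_sum_ones, sum_mul]
    refine sum_le_sum fun y hy => ?_
    rw [one_mul]
    have h2 : ∑ z ∈ D, (univ.filter (fun a => E a y z)).card =
        ∑ a : J, (D.filter (fun z => E a y z)).card := by
      simp only [card_filter]
      exact sum_comm
    rw [h2]
    have h3 : ∑ a : J, (1 + if a ∈ M then (k - 1) else 0) = M.card * (k - 1) + (q ^ 2 + 1) := by
      rw [sum_add_distrib, sum_const, card_univ, h.dirs, sum_ite_mem, univ_inter, sum_const]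
      simp only [smul_eq_mul, mul_one]
      ring
    rw [← h3]
    refine sum_le_sum fun a _ => ?_
    have h4 : 1 ≤ (D.filter (fun z => E a y z)).card :=
      card_pos.2 ⟨y, mem_filter.2 ⟨hy, h.refl a y⟩⟩
    split_ifs with ha
    · have := hD y hy a ha
      omega
    · omega
  -- the sum of the `T`-part
  have h5 : (q ^ 2 + 1) * D.card ^ 2 ≤
      q * ∑ y ∈ D, ∑ z ∈ D, (univ.filter (fun a => T a y z)).card := by
    have h6 : ∑ y ∈ D, ∑ z ∈ D, (univ.filter (fun a => T a y z)).card =
        ∑ a : J, ∑ y ∈ D, (D.filter (fun z => T a y z)).card := by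
      rw [sum_comm]
      rw [sum_comm]
      have h7 : ∀ y ∈ D, ∑ z ∈ D, (univ.filter (fun a => T a y z)).card =
          ∑ a : J, (D.filter (fun z => T a y z)).card := by
        intro y _
        simp only [card_filter]
        exact sum_comm
      rw [sum_congr rfl h7, sum_comm]
    rw [h6, mul_sum]
    have h8 : (q ^ 2 + 1) * D.card ^ 2 = ∑ _a : J, D.card ^ 2 := by
      rw [sum_const, card_univ, h.dirs, smul_eq_mul]
    rw [h8]
    exact sum_le_sum fun a _ => bes_cs h hq a D
  have h9 : ∑ y ∈ D, ∑ z ∈ D, (univ.filter (fun a => T a y z)).card +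
      q * ∑ y ∈ D, ∑ z ∈ D, (univ.filter (fun a => E a y z)).card =
      (q + 1) * (D.card ^ 2 + q ^ 2 * D.card) := by
    rw [mul_sum]
    simp_rw [mul_sum]
    rw [← sum_add_distrib]
    simp_rw [← sum_add_distrib]
    have h10 : ∀ y ∈ D, ∑ z ∈ D, ((univ.filter (fun a => T a y z)).card +
        q * (univ.filter (fun a => E a y z)).card) = (q + 1) * (D.card + q ^ 2) := by
      intro y hy
      simp_rw [bes_pt h]
      rw [← mul_sum, sum_add_distrib, sum_const, smul_eq_mul, mul_one, sum_ite_eq, if_pos hy]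
    rw [sum_congr rfl h10, sum_const, smul_eq_mul]
    ring
  obtain ⟨S, hS⟩ : ∃ S : ℕ, S = ∑ y ∈ D, ∑ z ∈ D, (univ.filter (fun a => T a y z)).card := ⟨_, rfl⟩
  obtain ⟨R, hR⟩ : ∃ R : ℕ, R = ∑ y ∈ D, ∑ z ∈ D, (univ.filter (fun a => E a y z)).card := ⟨_, rfl⟩
  rw [← hS, ← hR] at h9
  rw [← hS] at h5
  rw [← hR] at h1
  obtain ⟨c, hc⟩ : ∃ c : ℕ, c = M.card * (k - 1) := ⟨_, rfl⟩
  obtain ⟨d, hd'⟩ : ∃ d : ℕ, d = D.card := ⟨_, rfl⟩
  rw [← hc]
  rw [← hc] at h1
  rw [← hd'] at h1 h5 h9 hd ⊢
  obtain ⟨t, rfl⟩ : ∃ t, q = t + 1 := ⟨q - 1, by omega⟩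
  rw [Nat.add_sub_cancel]
  -- everything times `q * d`
  have h11 : ((t + 1) ^ 2 + 1) * d ^ 2 + (t + 1) * ((t + 1) * (d * (c + ((t + 1) ^ 2 + 1)))) ≤
      (t + 1) * ((t + 1 + 1) * (d ^ 2 + (t + 1) ^ 2 * d)) := by
    calc ((t + 1) ^ 2 + 1) * d ^ 2 + (t + 1) * ((t + 1) * (d * (c + ((t + 1) ^ 2 + 1))))
        ≤ (t + 1) * S + (t + 1) * ((t + 1) * R) :=
          Nat.add_le_add h5 (Nat.mul_le_mul_left _ (Nat.mul_le_mul_left _ h1))
      _ = (t + 1) * (S + (t + 1) * R) := by ring
      _ = (t + 1) * ((t + 1 + 1) * (d ^ 2 + (t + 1) ^ 2 * d)) := by rw [h9]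
  have h12 : d * (c * (t + 1) ^ 2) ≤ d * (t * ((t + 1) ^ 2 + d)) := by
    nlinarith [h11]
  exact Nat.le_of_mul_le_mul_left h12 hd

end Pool.H67.CT
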