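import Pool.Agent.H67.CT.Base

/-!
# CDef: the path definition of a caterpillar gives at most two non-leaf neighbours

`q` is a path from `u` and every vertex of the tree is on `q` or adjacent to a vertex of `q`.  Root the
tree at `u`, `p = par hT u`.
* (G) `p (q.getVert (i+1)) = q.getVert i` (induction, the path does not turn back).
* (a) every vertex `w` not on `q` is a leaf: `w` is adjacent to some `x` on `q`; `p x = w` would put `w`
  on `q`, so `p w = x`.  Another neighbour `y` of `w` has `p y = w`; `y` is not on `q` (else `w = p y`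
  is); so `y` is adjacent to some `z` on `q`: `p z = y` puts `y` on `q`, and `p y = z` gives `w = z`.
* (b) a vertex `v` has at most one child on `q` (by (G) and injectivity), so at most two non-leaf
  neighbours: its parent and this child.
-/

set_option autoImplicit false

open Finset

namespace Pool.Agent.H67.CT

open Pool.Agent.H57.SS

theorem local_of_path {V : Type*} [Fintype V] [DecidableEq V] {T : SimpleGraph V}
    [DecidableRel T.Adj] (hT : T.IsTree)
    (h : ∃ (u v : V) (q : T.Walk u v), q.IsPath ∧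
      ∀ w, w ∈ q.support ∨ ∃ x ∈ q.support, T.Adj x w) :
    ∀ v, (univ.filter (fun w => T.Adj v w ∧ T.degree w ≠ 1)).card ≤ 2 := by
  classical
  obtain ⟨u, v0, q, hq, hcov⟩ := h
  have hinj : ∀ i ≤ q.length, ∀ j ≤ q.length, q.getVert i = q.getVert j → i = j :=
    fun i hi j hj hij => hq.getVert_injOn hi hj hij
  have hG : ∀ i, i < q.length → q.getVert (i + 1) ≠ u ∧
      par hT u (q.getVert (i + 1)) = q.getVert i := by
    intro i
    induction i with
    | zero =>
      intro hi
      have h1 := q.adj_getVert_succ hi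
      rcases (adj_iff_par hT u _ _).1 h1 with ⟨h2, _⟩ | h2
      · exact (h2 q.getVert_zero).elim
      · exact h2
    | succ i ih =>
      intro hi
      obtain ⟨_, h2⟩ := ih (by omega)
      have h1 := q.adj_getVert_succ hi
      rcases (adj_iff_par hT u _ _).1 h1 with ⟨_, h4⟩ | h4
      · exfalso
        rw [h2] at h4
        have := hinj i (by omega) (i + 1 + 1) (by omega) h4
        omega
      · exact h4
  have hmem : ∀ x, x ∈ q.support ↔ ∃ i, q.getVert i = x ∧ i ≤ q.length := fun x =>
    SimpleGraph.Walk.mem_support_iff_exists_getVert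
  have hF1 : ∀ x ∈ q.support, x ≠ u → par hT u x ∈ q.support := by
    intro x hx hxu
    obtain ⟨i, rfl, hi⟩ := (hmem x).1 hx
    rcases Nat.eq_zero_or_pos i with h0 | h0
    · rw [h0, q.getVert_zero] at hxu
      exact (hxu rfl).elim
    · obtain ⟨j, rfl⟩ : ∃ j, i = j + 1 := ⟨i - 1, by omega⟩
      rw [(hG j (by omega)).2]
      exact (hmem _).2 ⟨j, rfl, by omega⟩
  have hF2 : ∀ x ∈ q.support, ∀ y ∈ q.support, x ≠ u → y ≠ u → par hT u x = par hT u y →
      x = y := by
    intro x hx y hy hxu hyu hxy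
    obtain ⟨i, rfl, hi⟩ := (hmem x).1 hx
    obtain ⟨j, rfl, hj⟩ := (hmem y).1 hy
    rcases Nat.eq_zero_or_pos i with h0 | h0
    · rw [h0, q.getVert_zero] at hxu
      exact (hxu rfl).elim
    rcases Nat.eq_zero_or_pos j with h1 | h1
    · rw [h1, q.getVert_zero] at hyu
      exact (hyu rfl).elim
    obtain ⟨i', rfl⟩ : ∃ i', i = i' + 1 := ⟨i - 1, by omega⟩
    obtain ⟨j', rfl⟩ : ∃ j', j = j' + 1 := ⟨j - 1, by omega⟩
    rw [(hG i' (by omega)).2, (hG j' (by omega)).2] at hxy
    rw [hinj i' (by omega) j' (by omega) hxy]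
  -- vertices outside the path are leaves
  have ha : ∀ w, T.degree w ≠ 1 → w ∈ q.support := by
    intro w hw
    by_contra hwS
    rcases hcov w with h1 | ⟨x, hx, hxw⟩
    · exact hwS h1
    have hpar : w ≠ u ∧ par hT u w = x := by
      rcases (adj_iff_par hT u x w).1 hxw with ⟨h2, h3⟩ | h2
      · exact (hwS (h3 ▸ hF1 x hx h2)).elim
      · exact h2
    have hdeg : 1 < (T.neighborFinset w).card := by
      have h2 : 0 < (T.neighborFinset w).card := by
        apply card_pos.2
        exact ⟨x, by rw [SimpleGraph.mem_neighborFinset]; exact hxw.symm⟩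
      rw [SimpleGraph.card_neighborFinset_eq_degree] at h2 ⊢
      omega
    obtain ⟨y, hy, hyx⟩ := exists_mem_ne hdeg x
    rw [SimpleGraph.mem_neighborFinset] at hy
    have hyp : y ≠ u ∧ par hT u y = w := by
      rcases (adj_iff_par hT u w y).1 hy with ⟨_, h3⟩ | h2
      · exact (hyx (by rw [← h3, hpar.2])).elim
      · exact h2
    have hyS : y ∉ q.support := fun hyS => hwS (hyp.2 ▸ hF1 y hyS hyp.1)
    rcases hcov y with h1 | ⟨z, hz, hzy⟩
    · exact hyS h1
    rcases (adj_iff_par hT u z y).1 hzy with ⟨h2, h3⟩ | ⟨_, h3⟩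
    · exact hyS (h3 ▸ hF1 z hz h2)
    · apply hwS
      rw [← hyp.2, h3]; exact hz
  intro v
  set C : Finset V := univ.filter (fun w => w ∈ q.support ∧ w ≠ u ∧ par hT u w = v) with hC
  have hC1 : C.card ≤ 1 := by
    rw [card_le_one]
    intro a ha' b hb
    rw [hC, mem_filter] at ha' hb
    exact hF2 a ha'.2.1 b hb.2.1 ha'.2.2.1 hb.2.2.1 (by rw [ha'.2.2.2, hb.2.2.2])
  have hsub : univ.filter (fun w => T.Adj v w ∧ T.degree w ≠ 1) ⊆ insert (par hT u v) C := by
    intro w hw
    rw [mem_filter] at hw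
    rw [mem_insert]
    rcases (adj_iff_par hT u v w).1 hw.2.1 with ⟨_, h3⟩ | ⟨h2, h3⟩
    · exact Or.inl h3.symm
    · right
      rw [hC, mem_filter]
      exact ⟨mem_univ _, ha w hw.2.2, h2, h3⟩
  calc (univ.filter (fun w => T.Adj v w ∧ T.degree w ≠ 1)).card
      ≤ (insert (par hT u v) C).card := card_le_card hsub
    _ ≤ C.card + 1 := card_insert_le _ _
    _ ≤ 2 := by omega

end Pool.Agent.H67.CT
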