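import Pool.Agent.H67.CT.Lad

/-!
# Fam: growing a ladder along the progression `c0, c0 + a, c0 + 2a, ...`

`chg_insert`: membership in `insert c B` and in `B` differ only at `c`, so for `g ≠ c, c + 1` the
conditions `¬ (g - 1 ∈ B ↔ g ∈ B)` agree; hence the set counted by `chg (insert c B) c'` is contained
in the set counted by `chg B c` together with `{c, c + 1}`.

`disc`: discrete continuity: take the least `s ≤ S` with `w ≤ f s + 2`; if `s = 0` use `f 0 ≤ w`, else
`w > f (s - 1) + 2 ≥ f s`.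

`ladder_family`: `B_s = B0 ∪ {c0 + j a : j < s}`, `c_s = c0 + s a`.  `LadHyp B_s c_s a t` for all
`s ≤ S`: `cut`: `hf`, `hd`; `step`: for `g ∈ B0` the old `step` gives `g + a ∈ B0` or `g + a = c0`, and
`c0 ∈ B_s` if `s ≥ 1`, `c0 = c_s` if `s = 0`; for `g = c0 + j a`, `j < s`: `g + a = c0 + (j+1) a` is in
`B_s` or equal to `c_s`; `s1, s2` similarly; `n1, n2`: `he`.
`B_{s+1} = insert c_s B_s`, so `chg_insert` and `disc` give `s` with
`chg B_s c_s ≤ w ≤ chg B_s c_s + 2`; apply `ladder` with `δ = w - chg B_s c_s`.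
-/

set_option autoImplicit false

open Finset

namespace Pool.Agent.H67.CT

theorem chg_insert {m : ℕ} [NeZero m] (B : Finset (ZMod m)) (c c' : ZMod m) :
    chg (insert c B) c' ≤ chg B c + 2 := by
  unfold chg
  have hsub : univ.filter (fun g : ZMod m => g ≠ c' ∧ g ≠ c' + 1 ∧
        ¬ (g - 1 ∈ insert c B ↔ g ∈ insert c B)) ⊆
      univ.filter (fun g : ZMod m => g ≠ c ∧ g ≠ c + 1 ∧ ¬ (g - 1 ∈ B ↔ g ∈ B)) ∪
        {c, c + 1} := by
    intro g hg
    rw [mem_filter] at hg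
    rw [mem_union, mem_filter, mem_insert, mem_singleton]
    by_cases h1 : g = c
    · exact Or.inr (Or.inl h1)
    · by_cases h2 : g = c + 1
      · exact Or.inr (Or.inr h2)
      · left
        refine ⟨mem_univ _, h1, h2, ?_⟩
        have h3 : g - 1 ≠ c := fun h => h2 (by rw [← h]; ring)
        have h4 := hg.2.2.2
        rw [mem_insert, mem_insert] at h4
        simpa only [h1, h3, false_or] using h4
  calc _ ≤ _ := card_le_card hsub
    _ ≤ _ + ({c, c + 1} : Finset (ZMod m)).card := card_union_le _ _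
    _ ≤ _ := by
      have := card_le_two (a := c) (b := c + 1)
      omega

theorem disc (f : ℕ → ℕ) (S w : ℕ) (h : ∀ s < S, f (s + 1) ≤ f s + 2) (h0 : f 0 ≤ w)
    (hS : w ≤ f S + 2) : ∃ s ≤ S, f s ≤ w ∧ w ≤ f s + 2 := by
  have hex : ∃ s, w ≤ f s + 2 := ⟨S, hS⟩
  have h1 := Nat.find_spec hex
  have h2 : Nat.find hex ≤ S := Nat.find_min' hex hS
  refine ⟨Nat.find hex, h2, ?_, h1⟩
  rcases Nat.eq_zero_or_pos (Nat.find hex) with h3 | h3
  · rw [h3]; exact h0
  · obtain ⟨s, hs⟩ : ∃ s, Nat.find hex = s + 1 := ⟨Nat.find hex - 1, by omega⟩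
    have h4 := Nat.find_min hex (m := s) (by omega)
    have h5 := h s (by omega)
    rw [hs]
    omega

theorem ladder_family {m : ℕ} [NeZero m] (hm : 3 ≤ m) {K : Type} [Field K] {pw : ZMod m → K}
    (hpw : PW m K pw) {B0 : Finset (ZMod m)} {c0 a t : ZMod m} (ht : pw t = 1 + pw 1)
    (h0 : LadHyp B0 c0 a t) (S : ℕ) (hf : ∀ j ≤ S, c0 + (j : ZMod m) * a ∉ B0)
    (hd : ∀ i j : ℕ, i < j → j ≤ S → c0 + (i : ZMod m) * a ≠ c0 + (j : ZMod m) * a)
    (he : ∀ j < S, c0 + (j : ZMod m) * a ≠ -t ∧ c0 + (j : ZMod m) * a ≠ 1 - t) (w : ℕ)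
    (h1 : chg B0 c0 ≤ w)
    (h2 : w ≤ chg (B0 ∪ (range S).image (fun j : ℕ => c0 + (j : ZMod m) * a))
      (c0 + (S : ZMod m) * a) + 2) :
    HasCat (K × ZMod 2) (m + 1 + w) := by
  set cj : ℕ → ZMod m := fun j => c0 + (j : ZMod m) * a with hcj
  set Bs : ℕ → Finset (ZMod m) := fun s => B0 ∪ (range s).image cj with hBs
  have hB0 : Bs 0 = B0 := by simp [hBs]
  have hc0 : cj 0 = c0 := by simp [hcj]
  have hBsucc : ∀ s, Bs (s + 1) = insert (cj s) (Bs s) := by
    intro s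
    simp only [hBs]
    rw [range_add_one, image_insert, union_insert]
  have hmem : ∀ s g, g ∈ Bs s ↔ g ∈ B0 ∨ ∃ j < s, cj j = g := by
    intro s g
    simp only [hBs, mem_union, mem_image, mem_range]
  obtain ⟨s, hsS, hs1, hs2⟩ := disc (fun s => chg (Bs s) (cj s)) S w
    (fun s _ => by
      show chg (Bs (s + 1)) (cj (s + 1)) ≤ chg (Bs s) (cj s) + 2
      rw [hBsucc]; exact chg_insert _ _ _)
    (by show chg (Bs 0) (cj 0) ≤ w; rw [hB0, hc0]; exact h1) h2
  have hc0s : c0 ∈ Bs s ∨ c0 = cj s := by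
    rcases Nat.eq_zero_or_pos s with h | h
    · right; rw [h, hc0]
    · left; rw [hmem]; exact Or.inr ⟨0, h, hc0⟩
  have hlift : ∀ g, g ∈ B0 ∨ g = c0 → g ∈ Bs s ∨ g = cj s := by
    rintro g (h | rfl)
    · left; rw [hmem]; exact Or.inl h
    · exact hc0s
  have hlad : LadHyp (Bs s) (cj s) a t := by
    refine ⟨?_, ?_, ?_, hlift _ h0.s1, hlift _ h0.s2, ?_, ?_, h0.ha⟩
    · rw [hmem]; exact Or.inl h0.zero
    · rw [hmem, not_or]
      refine ⟨hf s hsS, ?_⟩
      rintro ⟨j, hj, hjs⟩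
      exact hd j s hj hsS hjs
    · intro g hg hg0
      rw [hmem] at hg
      rcases hg with hg | ⟨j, hj, rfl⟩
      · exact hlift _ (h0.step g hg hg0)
      · have hnext : cj j + a = cj (j + 1) := by
          simp only [hcj]; push_cast; ring
        rw [hnext]
        rcases Nat.lt_or_ge (j + 1) s with h | h
        · left; rw [hmem]; exact Or.inr ⟨j + 1, h, rfl⟩
        · right
          have : j + 1 = s := by omega
          rw [this]
    · rw [hmem, not_or]
      refine ⟨h0.n1, ?_⟩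
      rintro ⟨j, hj, hjs⟩
      exact (he j (by omega)).1 hjs
    · rw [hmem, not_or]
      refine ⟨h0.n2, ?_⟩
      rintro ⟨j, hj, hjs⟩
      exact (he j (by omega)).2 hjs
  have hs1' : chg (Bs s) (cj s) ≤ w := hs1
  have hs2' : w ≤ chg (Bs s) (cj s) + 2 := hs2
  have := ladder hm hpw ht hlad (w - chg (Bs s) (cj s)) (by omega)
  rwa [show m + 1 + chg (Bs s) (cj s) + (w - chg (Bs s) (cj s)) = m + 1 + w by omega] at this

end Pool.Agent.H67.CT
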