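import Pool.Agent.H67.CS.Gga

/-!
# Small orbits
-/

set_option autoImplicit false

namespace Pool.H67.CT

open Finset Classical
open Pool.H67.CS

theorem orb_fin {Ω : Type*} [Fintype Ω] (W : Subgroup (Equiv.Perm Ω)) (y : Ω) (b : ℕ)
    (hb : Nat.card (MulAction.orbit W y) ≤ b) :
    ∃ D : Finset Ω, D.Nonempty ∧ D.card ≤ b ∧ ∀ g ∈ W, ∀ z ∈ D, g z ∈ D := by
  refine ⟨univ.filter (fun z => z ∈ MulAction.orbit W y), ⟨y, ?_⟩, ?_, ?_⟩
  · simp
  · rw [← Fintype.card_subtype, ← Nat.card_eq_fintype_card]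
    exact hb
  · intro g hg z hz
    simp only [mem_filter, mem_univ, true_and] at hz ⊢
    obtain ⟨w, hw⟩ := hz
    refine ⟨⟨g, hg⟩ * w, ?_⟩
    have h2 : (w : Equiv.Perm Ω) y = z := hw
    show (g * (w : Equiv.Perm Ω)) y = g z
    rw [Equiv.Perm.mul_apply, h2]

/-- a `p`-group of permutations has a small orbit -/
theorem orb_small {Ω : Type*} [Fintype Ω] (p a r k : ℕ) (hp : p.Prime) (hr : ¬ p ∣ r)
    (hΩ : Fintype.card Ω = p ^ a * r) (W : Subgroup (Equiv.Perm Ω)) (hW : Nat.card W = p ^ k) :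
    ∃ D : Finset Ω, D.Nonempty ∧ D.card ≤ p ^ a ∧ ∀ g ∈ W, ∀ z ∈ D, g z ∈ D := by
  by_contra hcon
  have h1 : ∀ y : Ω, p ^ a < Nat.card (MulAction.orbit W y) := by
    intro y
    by_contra h
    exact hcon (orb_fin W y _ (not_lt.1 h))
  have h2 : ∀ y : Ω, p ^ (a + 1) ∣ Nat.card (MulAction.orbit W y) := by
    intro y
    have h3 : Nat.card (MulAction.orbit W y) ∣ p ^ k := by
      rw [← hW, Nat.card_congr (MulAction.orbitEquivQuotientStabilizer W y)]
      exact Subgroup.card_quotient_dvd_card _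
    obtain ⟨j, _, hj⟩ := (Nat.dvd_prime_pow hp).1 h3
    rw [hj]
    have h4 := h1 y
    rw [hj] at h4
    have h5 : a < j := (Nat.pow_lt_pow_iff_right hp.one_lt).1 h4
    exact pow_dvd_pow p h5
  have h3 : p ^ (a + 1) ∣ p ^ a * r := by
    rw [← hΩ, ← Nat.card_eq_fintype_card, Nat.card_congr (MulAction.selfEquivSigmaOrbits W Ω)]
    haveI : Finite (MulAction.orbitRel.Quotient W Ω) := Quotient.finite _
    haveI : Fintype (MulAction.orbitRel.Quotient W Ω) := Fintype.ofFinite _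
    rw [Nat.card_sigma]
    exact dvd_sum fun ω _ => h2 _
  rw [pow_succ] at h3
  exact hr (Nat.dvd_of_mul_dvd_mul_left (pow_pos hp.pos a) h3)

/-- the orbits of a normal subgroup of order prime to `p` are small -/
theorem orb_normal {Ω : Type*} [Fintype Ω] [Nonempty Ω] (p a r : ℕ) (hp : p.Prime) (hr : ¬ p ∣ r)
    (hΩ : Fintype.card Ω = p ^ a * r) (W V : Subgroup (Equiv.Perm Ω))
    (hnor : ∀ g ∈ V, ∀ x ∈ W, g * x * g⁻¹ ∈ W) (htr : ∀ y z, ∃ g ∈ V, g y = z)
    (hW : ¬ p ∣ Nat.card W) :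
    ∃ D : Finset Ω, D.Nonempty ∧ D.card ≤ r ∧ ∀ g ∈ W, ∀ z ∈ D, g z ∈ D := by
  obtain ⟨y0⟩ := ‹Nonempty Ω›
  have h1 : Nat.card (MulAction.orbit W y0) ∣ p ^ a * r := by
    rw [← hΩ, ← Nat.card_eq_fintype_card, Nat.card_congr (MulAction.selfEquivSigmaOrbits W Ω)]
    haveI : Finite (MulAction.orbitRel.Quotient W Ω) := Quotient.finite _
    haveI : Fintype (MulAction.orbitRel.Quotient W Ω) := Fintype.ofFinite _
    rw [Nat.card_sigma, sum_congr rfl (fun ω _ => Gga_card_orbit W V hnor htr y0 _), sum_const, smul_eq_mul]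
    exact Dvd.intro_left _ rfl
  have h2 : Nat.card (MulAction.orbit W y0) ∣ Nat.card W := by
    rw [Nat.card_congr (MulAction.orbitEquivQuotientStabilizer W y0)]
    exact Subgroup.card_quotient_dvd_card _
  have h3 : Nat.Coprime (Nat.card (MulAction.orbit W y0)) (p ^ a) := by
    apply Nat.Coprime.pow_right
    rw [Nat.coprime_comm, Nat.Prime.coprime_iff_not_dvd hp]
    exact fun h => hW (h.trans h2)
  have h4 := Nat.Coprime.dvd_of_dvd_mul_left h3 h1
  have hr0 : 0 < r := by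
    rcases Nat.eq_zero_or_pos r with h | h
    · exact absurd (h ▸ dvd_zero p) hr
    · exact h
  exact orb_fin W y0 _ (Nat.le_of_dvd hr0 h4)

end Pool.H67.CT
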