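import Pool.Agent.H67.CS.Pmb
import Pool.Agent.H67.CS.Opp
import Pool.Agent.H67.CT.Orb

/-!
# Pairwise permutable groups with normal p-complements: a small invariant set

(Adapted from `Pool.Agent.H67.CS.Ggm`, proved by helper79.)
-/

set_option autoImplicit false

namespace Pool.H67.CT

open Pool.H67.CS

theorem ggn {Ω ι : Type*} [Fintype Ω] [Fintype ι] (p α r : ℕ) (hp : p.Prime) (hr : ¬ p ∣ r)
    (hΩ : Fintype.card Ω = (p ^ α * r) ^ 4) (A : ι → Subgroup (Equiv.Perm Ω))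
    (hA : ∀ m, Nat.card (A m) = p ^ α * r) (hpm : ∀ m n, Pm (A m) (A n))
    (hinf : ∀ m n, m ≠ n → A m ⊓ A n = ⊥)
    (htr : ∀ y z, ∃ g ∈ (⨆ m, A m : Subgroup (Equiv.Perm Ω)), g y = z)
    (hnil : ∀ m n, m ≠ n → ∃ N ≤ A m ⊔ A n, (∀ g ∈ A m ⊔ A n, ∀ x ∈ N, g * x * g⁻¹ ∈ N) ∧
      Nat.card N = r ^ 2) (hι : 2 ≤ Fintype.card ι) :
    ∃ O : ι → Subgroup (Equiv.Perm Ω), (∀ m, O m ≤ A m) ∧ (∀ m, Nat.card (O m) = r) ∧
      ∃ D : Finset Ω, D.Nonempty ∧ D.card ≤ r ^ 4 ∧ ∀ m, ∀ g ∈ O m, ∀ z ∈ D, g z ∈ D := by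
  classical
  have hfinP : Finite (Equiv.Perm Ω) := inferInstance
  have hr0 : 0 < r := by
    rcases Nat.eq_zero_or_pos r with h | h
    · exact absurd (h ▸ dvd_zero p) hr
    · exact h
  have hnt : Nontrivial ι := Fintype.one_lt_card_iff_nontrivial.1 (by omega)
  have hpart : ∀ m : ι, ∃ n, m ≠ n := fun m => by
    obtain ⟨n, hn⟩ := exists_ne m
    exact ⟨n, hn.symm⟩
  have hTwo : ∀ m n, m ≠ n → ∃ N, Two p α r (A m) (A n) N := by
    intro m n hmn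
    obtain ⟨N, hle, hnor, hc⟩ := hnil m n hmn
    exact ⟨N, ⟨hp, hr, hpm m n, hA m, hA n, hinf m n hmn, hle, hnor, hc⟩⟩
  -- the groups of order `r`
  obtain ⟨O, hO⟩ : ∃ O : ι → Subgroup (Equiv.Perm Ω), ∀ m, O m = Op p (A m) := ⟨_, fun _ => rfl⟩
  have hOcard : ∀ m, Nat.card (O m) = r := by
    intro m
    obtain ⟨n, hmn⟩ := hpart m
    obtain ⟨N, h⟩ := hTwo m n hmn
    rw [hO]
    exact opp_card h
  have hOle : ∀ m, O m ≤ A m := by
    intro m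
    rw [hO, Op, Subgroup.closure_le]
    exact fun x hx => hx.1
  have hOpm : ∀ m n, Pm (O m) (O n) := by
    intro m n
    by_cases hmn : m = n
    · rw [hmn]
      exact Pm.refl _
    · obtain ⟨N, h⟩ := hTwo m n hmn
      rw [hO, hO]
      exact opp_pm h
  obtain ⟨W, hW⟩ : ∃ W : Subgroup (Equiv.Perm Ω), W = ⨆ m, O m := ⟨_, rfl⟩
  have hOW : ∀ m, O m ≤ W := fun m => by
    rw [hW]
    exact le_iSup O m
  have hWp : ¬ p ∣ Nat.card W := by
    rw [hW]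
    exact pmb_coprime p hp O hOpm (fun m => by rw [hOcard]; exact hr)
  have hconj : ∀ m, ∀ g ∈ A m, ∀ x ∈ W, g * x * g⁻¹ ∈ W := by
    intro m g hg x hx
    rw [hW] at hx
    refine Subgroup.iSup_induction O (C := fun x => g * x * g⁻¹ ∈ W) hx ?_ ?_ ?_
    · intro n x hx
      by_cases hmn : m = n
      · obtain ⟨k, hmk⟩ := hpart m
        obtain ⟨N, h⟩ := hTwo m k hmk
        apply hOW m
        rw [← hmn, hO, opp_eq h] at hx
        rw [hO, opp_eq h]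
        exact ⟨(A m).mul_mem ((A m).mul_mem hg hx.1) ((A m).inv_mem hg),
          h.nor g (Subgroup.mem_sup_left hg) x hx.2⟩
      · obtain ⟨N, h⟩ := hTwo m n hmn
        rw [hO] at hx
        have h1 := opp_conj h hg hx
        rw [← hO, ← hO] at h1
        exact (sup_le (hOW m) (hOW n)) h1
    · rw [mul_one, mul_inv_cancel]
      exact W.one_mem
    · intro x y hx hy
      have h1 : g * (x * y) * g⁻¹ = (g * x * g⁻¹) * (g * y * g⁻¹) := by group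
      rw [h1]
      exact W.mul_mem hx hy
  -- `V` normalises `W`
  obtain ⟨H, hH⟩ : ∃ H : Subgroup (Equiv.Perm Ω), ∀ g, g ∈ H ↔
      ∀ x, x ∈ W ↔ g * x * g⁻¹ ∈ W := by
    refine ⟨Subgroup.mk (Submonoid.mk (Subsemigroup.mk {g | ∀ x, x ∈ W ↔ g * x * g⁻¹ ∈ W} ?_) ?_)
      ?_, fun g => Iff.rfl⟩
    · intro a b ha hb x
      have h1 : a * b * x * (a * b)⁻¹ = a * (b * x * b⁻¹) * a⁻¹ := by group
      rw [h1, ← ha, ← hb]
    · intro x
      rw [one_mul, inv_one, mul_one]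
    · intro a ha x
      have h1 : a * (a⁻¹ * x * a⁻¹⁻¹) * a⁻¹ = x := by group
      rw [ha (a⁻¹ * x * a⁻¹⁻¹), h1]
  have hAH : ∀ m, A m ≤ H := by
    intro m g hg
    refine (hH g).2 fun x => ⟨hconj m g hg x, fun h => ?_⟩
    have h1 := hconj m g⁻¹ ((A m).inv_mem hg) _ h
    have h2 : g⁻¹ * (g * x * g⁻¹) * g⁻¹⁻¹ = x := by group
    rwa [h2] at h1
  have hnor : ∀ g ∈ (⨆ m, A m : Subgroup (Equiv.Perm Ω)), ∀ x ∈ W, g * x * g⁻¹ ∈ W :=
    fun g hg x hx => ((hH g).1 ((iSup_le hAH) hg) x).1 hx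
  have hΩpos : 0 < Fintype.card Ω := by
    rw [hΩ]
    have : 0 < p ^ α * r := Nat.mul_pos (pow_pos hp.pos α) hr0
    positivity
  have hΩne : Nonempty Ω := Fintype.card_pos_iff.1 hΩpos
  obtain ⟨D, hD1, hD2, hD3⟩ := orb_normal p (4 * α) (r ^ 4) hp (fun h => hr (hp.dvd_of_dvd_pow h))
    (by rw [hΩ, mul_pow, ← pow_mul, mul_comm α 4]) W (⨆ m, A m) hnor htr hWp
  exact ⟨O, hOle, hOcard, D, hD1, hD2, fun m g hg z hz => hD3 g (hOW m hg) z hz⟩

end Pool.H67.CT
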