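import Pool.Agent.H67.CS.Pm

/-!
# Normal Sylow subgroups of two permutable subgroups are permutable
-/

set_option autoImplicit false

namespace Pool.H67.CT

open Pool.H67.CS

theorem wie_top {G : Type*} [Group G] [Finite G] (p α r : ℕ) (hp : p.Prime) (hr : ¬ p ∣ r)
    (A B P R : Subgroup G) (hAB : ∀ g : G, ∃ a ∈ A, ∃ b ∈ B, g = a * b)
    (hG : Nat.card G = (p ^ α * r) ^ 2) (hP : Nat.card P = p ^ α) (hR : Nat.card R = p ^ α)
    (hPA : P ≤ A) (hRB : R ≤ B) (hnP : ∀ g ∈ A, ∀ x ∈ P, g * x * g⁻¹ ∈ P)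
    (hnR : ∀ g ∈ B, ∀ x ∈ R, g * x * g⁻¹ ∈ R) (hinf : A ⊓ B = ⊥) :
    ∀ a ∈ P, ∀ b ∈ R, ∃ b' ∈ R, ∃ a' ∈ P, a * b = b' * a' := by
  have hpF : Fact p.Prime := ⟨hp⟩
  have hr0 : r ≠ 0 := fun h => hr (h ▸ dvd_zero p)
  obtain ⟨S1, hS1⟩ := (IsPGroup.of_card hP).exists_le_sylow
  obtain ⟨S2, hS2⟩ := (IsPGroup.of_card hR).exists_le_sylow
  obtain ⟨g, hg⟩ := MulAction.exists_smul_eq G S1 S2
  obtain ⟨a0, ha0, b0, hb0, hab⟩ := hAB g⁻¹
  have hg2 : g = b0⁻¹ * a0⁻¹ := by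
    rw [← mul_inv_rev, ← hab, inv_inv]
  obtain ⟨S, hS⟩ : ∃ S : Sylow p G, S = a0⁻¹ • S1 := ⟨_, rfl⟩
  have hSm : ∀ x, x ∈ (S : Subgroup G) ↔ a0 * x * a0⁻¹ ∈ (S1 : Subgroup G) := by
    intro x
    rw [hS, Sylow.coe_subgroup_smul, Subgroup.mem_pointwise_smul_iff_inv_smul_mem]
    simp [MulAut.smul_def, MulAut.conj_apply]
  have hS2' : S = b0 • S2 := by
    rw [hS, ← hg, hg2, smul_smul]
    congr 1
    group
  have hSm2 : ∀ x, x ∈ (S : Subgroup G) ↔ b0⁻¹ * x * b0 ∈ (S2 : Subgroup G) := by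
    intro x
    rw [hS2', Sylow.coe_subgroup_smul, Subgroup.mem_pointwise_smul_iff_inv_smul_mem]
    simp [MulAut.smul_def, MulAut.conj_apply]
  have hPS : P ≤ (S : Subgroup G) := by
    intro x hx
    rw [hSm]
    exact hS1 (hnP a0 ha0 x hx)
  have hRS : R ≤ (S : Subgroup G) := by
    intro x hx
    rw [hSm2]
    have := hnR b0⁻¹ (B.inv_mem hb0) x hx
    rw [inv_inv] at this
    exact hS2 this
  have hSc : Nat.card (S : Subgroup G) = p ^ α * p ^ α := by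
    have h1 := S.card_eq_multiplicity
    rw [h1, hG, ← pow_add]
    congr 1
    rw [Nat.factorization_pow, Nat.factorization_mul (pow_ne_zero _ hp.ne_zero) hr0, hp.factorization_pow]
    simp [Nat.factorization_eq_zero_of_not_dvd hr]
    ring
  have hfin : Finite (S : Subgroup G) := inferInstance
  -- `R × P → S` is injective, hence surjective
  obtain ⟨φ, hφ⟩ : ∃ φ : R × P → (S : Subgroup G), ∀ z, ((φ z : (S : Subgroup G)) : G) = z.1 * z.2 :=
    ⟨fun z => ⟨z.1 * z.2, (S : Subgroup G).mul_mem (hRS z.1.2) (hPS z.2.2)⟩, fun _ => rfl⟩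
  have hinj : Function.Injective φ := by
    rintro ⟨⟨x, hx⟩, ⟨y, hy⟩⟩ ⟨⟨x', hx'⟩, ⟨y', hy'⟩⟩ h
    have h1 : x * y = x' * y' := by
      have := congrArg (fun s : (S : Subgroup G) => (s : G)) h
      simpa [hφ] using this
    have h2 : x'⁻¹ * x = y' * y⁻¹ := by
      have h3 : x = x' * y' * y⁻¹ := by rw [← h1]; group
      rw [h3]; group
    have h4 : x'⁻¹ * x ∈ A ⊓ B := by
      refine ⟨?_, hRB (R.mul_mem (R.inv_mem hx') hx)⟩
      rw [h2]
      exact hPA (P.mul_mem hy' (P.inv_mem hy))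
    rw [hinf, Subgroup.mem_bot] at h4
    have h5 : x = x' := by
      have := inv_mul_eq_one.1 h4
      exact this.symm
    have h6 : y = y' := by
      rw [h5] at h1
      exact mul_left_cancel h1
    subst h5
    subst h6
    rfl
  have hsurj : Function.Surjective φ := by
    have h1 : Nat.card (R × P) = Nat.card (S : Subgroup G) := by
      rw [Nat.card_prod, hR, hP, hSc]
    exact (Function.Injective.bijective_of_nat_card_le hinj h1.ge).2
  intro a ha b hb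
  obtain ⟨⟨⟨x, hx⟩, ⟨y, hy⟩⟩, hz⟩ := hsurj ⟨a * b, (S : Subgroup G).mul_mem (hPS ha) (hRS hb)⟩
  refine ⟨x, hx, y, hy, ?_⟩
  have := congrArg (fun s : (S : Subgroup G) => (s : G)) hz
  simp only [hφ] at this
  exact this.symm

theorem wie {G : Type*} [Group G] [Finite G] (p α r : ℕ) (hp : p.Prime) (hr : ¬ p ∣ r)
    (A B P R : Subgroup G) (hpm : Pm A B) (hinf : A ⊓ B = ⊥)
    (hA : Nat.card A = p ^ α * r) (hB : Nat.card B = p ^ α * r)
    (hP : Nat.card P = p ^ α) (hR : Nat.card R = p ^ α)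
    (hPA : P ≤ A) (hRB : R ≤ B) (hnP : ∀ g ∈ A, ∀ x ∈ P, g * x * g⁻¹ ∈ P)
    (hnR : ∀ g ∈ B, ∀ x ∈ R, g * x * g⁻¹ ∈ R) : Pm P R := by
  have hAK : A ≤ A ⊔ B := le_sup_left
  have hBK : B ≤ A ⊔ B := le_sup_right
  have hK : Nat.card (A ⊔ B : Subgroup G) = (p ^ α * r) ^ 2 := by
    have := hpm.card
    rw [hinf, Subgroup.card_bot, mul_one, hA, hB] at this
    rw [this, pow_two]
  have hcard : ∀ H : Subgroup G, H ≤ A ⊔ B → Nat.card (H.subgroupOf (A ⊔ B)) = Nat.card H := by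
    intro H hH
    exact Nat.card_congr (Subgroup.subgroupOfEquivOfLe hH).toEquiv
  have key := wie_top (G := (A ⊔ B : Subgroup G)) p α r hp hr (A.subgroupOf (A ⊔ B)) (B.subgroupOf (A ⊔ B))
    (P.subgroupOf (A ⊔ B)) (R.subgroupOf (A ⊔ B)) (by
      rintro ⟨g, hg⟩
      obtain ⟨a, ha, b, hb, hab⟩ := (hpm.mem_sup g).1 hg
      refine ⟨⟨a, hAK ha⟩, Subgroup.mem_subgroupOf.2 ha, ⟨b, hBK hb⟩, Subgroup.mem_subgroupOf.2 hb, ?_⟩
      exact Subtype.ext hab) hK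
    (by rw [hcard P (hPA.trans hAK), hP]) (by rw [hcard R (hRB.trans hBK), hR])
    (fun x hx => Subgroup.mem_subgroupOf.2 (hPA (Subgroup.mem_subgroupOf.1 hx)))
    (fun x hx => Subgroup.mem_subgroupOf.2 (hRB (Subgroup.mem_subgroupOf.1 hx)))
    (fun g hg x hx => Subgroup.mem_subgroupOf.2
      (hnP g (Subgroup.mem_subgroupOf.1 hg) x (Subgroup.mem_subgroupOf.1 hx)))
    (fun g hg x hx => Subgroup.mem_subgroupOf.2
      (hnR g (Subgroup.mem_subgroupOf.1 hg) x (Subgroup.mem_subgroupOf.1 hx)))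
    (by
      ext x
      rw [Subgroup.mem_inf, Subgroup.mem_subgroupOf, Subgroup.mem_subgroupOf, ← Subgroup.mem_inf, hinf,
        Subgroup.mem_bot, Subgroup.mem_bot]
      exact ⟨fun h => Subtype.ext h, fun h => congrArg Subtype.val h⟩)
  intro a ha b hb
  obtain ⟨b', hb', a', ha', h⟩ := key ⟨a, hAK (hPA ha)⟩ (Subgroup.mem_subgroupOf.2 ha)
    ⟨b, hBK (hRB hb)⟩ (Subgroup.mem_subgroupOf.2 hb)
  exact ⟨b', Subgroup.mem_subgroupOf.1 hb', a', Subgroup.mem_subgroupOf.1 ha', congrArg Subtype.val h⟩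

end Pool.H67.CT
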