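import Pool.Agent.H67.CS.Pmb
import Pool.Agent.H67.CT.Wie
import Pool.Agent.H67.CT.Orb

/-!
# Pairwise permutable groups with normal Sylow subgroups: a small invariant set
-/

set_option autoImplicit false

namespace Pool.H67.CT

open Pool.H67.CS

theorem pcl {Ω ι : Type*} [Fintype Ω] [Finite ι] (p α r : ℕ) (hp : p.Prime) (hr : ¬ p ∣ r)
    (hΩ : Fintype.card Ω = (p ^ α * r) ^ 4) (A : ι → Subgroup (Equiv.Perm Ω))
    (hA : ∀ m, Nat.card (A m) = p ^ α * r) (hpm : ∀ m n, Pm (A m) (A n))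
    (hinf : ∀ m n, m ≠ n → A m ⊓ A n = ⊥)
    (P : ι → Subgroup (Equiv.Perm Ω)) (hPA : ∀ m, P m ≤ A m) (hP : ∀ m, Nat.card (P m) = p ^ α)
    (hnP : ∀ m, ∀ g ∈ A m, ∀ x ∈ P m, g * x * g⁻¹ ∈ P m) :
    ∃ D : Finset Ω, D.Nonempty ∧ D.card ≤ (p ^ α) ^ 4 ∧ ∀ m, ∀ g ∈ P m, ∀ z ∈ D, g z ∈ D := by
  have hpp : ∀ m n, Pm (P m) (P n) := by
    intro m n
    by_cases hmn : m = n
    · subst hmn
      exact Pm.refl _
    · exact wie p α r hp hr (A m) (A n) (P m) (P n) (hpm m n) (hinf m n hmn) (hA m) (hA n) (hP m) (hP n)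
        (hPA m) (hPA n) (hnP m) (hnP n)
  obtain ⟨k, hk⟩ := pmb_pow p hp (⊥ : Subgroup (Equiv.Perm Ω)) P
    (by
      intro m a ha b hb
      rw [Subgroup.mem_bot] at ha
      refine ⟨b, hb, 1, Subgroup.one_mem _, ?_⟩
      rw [ha, one_mul, mul_one]) hpp
    (by
      intro m
      refine ⟨α, ?_⟩
      rw [inf_bot_eq, Subgroup.card_bot, mul_one, hP])
  rw [Subgroup.card_bot, mul_one, bot_sup_eq] at hk
  obtain ⟨D, h1, h2, h3⟩ := orb_small p (4 * α) (r ^ 4) k hp (fun h => hr (hp.dvd_of_dvd_pow h))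
    (by rw [hΩ, mul_pow, ← pow_mul, mul_comm α 4]) (⨆ m, P m) hk
  refine ⟨D, h1, ?_, fun m g hg z hz => h3 g ((le_iSup P m) hg) z hz⟩
  rw [← pow_mul, mul_comm α 4]
  exact h2

end Pool.H67.CT
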