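import Pool.Agent.H67.CS.Gjb
import Pool.Agent.H67.CS.Nlp
import Pool.Agent.H67.CT.Bes
import Pool.Agent.H67.CT.Ggn
import Pool.Agent.H67.CT.Pcl
import Pool.Agent.H67.CT.Arx

/-!
# Coregular points: normal Sylow subgroups and normal p-complements of the local translation groups
-/

set_option autoImplicit false

namespace Pool.H67.CT

open Finset Classical
open Pool.H67.CR
open Pool.H67.CS

variable {Ω J : Type*} [Fintype Ω] [Fintype J] {E T : J → Ω → Ω → Prop} {q : ℕ}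

theorem fin_K (h : Co E T q) (hq3 : 3 ≤ q) : ∃ K : Finset J, K.card = 4 ∧ (∀ y z, Rel E K y z) ∧
    ∀ m ∉ K, ∀ y0 y0', E m y0 y0' → ∃ σ : Ω → Ω, σ y0 = y0' ∧ PJ E K m σ := by
  obtain ⟨a, b, c, d, hJ⟩ := ind_ex h hq3
  refine ⟨{a, b, c, d}, ?_, tja_conn hJ, fun m hm y0 y0' h0 => tja h hJ hm h0⟩
  rw [Finset.card_insert_of_notMem, Finset.card_insert_of_notMem, Finset.card_insert_of_notMem,
    Finset.card_singleton]
  · simp [hJ.cd]
  · simp [hJ.bc, hJ.bd]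
  · simp [hJ.ab, hJ.ac, hJ.ad]

/-- a set invariant under subgroups of order `b` of the groups of local translations -/
theorem fin_bound (h : Co E T q) (hq : 2 ≤ q) {K : Finset J} (hK : ∀ y z, Rel E K y z)
    (M : Finset {m : J // m ∉ K}) (B : {m : J // m ∉ K} → Subgroup (Equiv.Perm Ω)) (b : ℕ) (hb1 : 1 ≤ b)
    (hB : ∀ m ∈ M, B m ≤ AJ h m.2) (hb : ∀ m ∈ M, Nat.card (B m) = b) (D : Finset Ω) (hD : D.Nonempty)
    (hcl : ∀ m ∈ M, ∀ g ∈ B m, ∀ z ∈ D, g z ∈ D) :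
    M.card * (b - 1) * q ^ 2 ≤ (q - 1) * (q ^ 2 + D.card) := by
  have h1 : (M.map (Function.Embedding.subtype _)).card = M.card := card_map _
  rw [← h1]
  refine bes h hq D hD _ b hb1 ?_
  intro y hy m hm
  obtain ⟨m', hm', rfl⟩ := mem_map.1 hm
  have h2 : Nat.card (B m') ≤ Nat.card {z // z ∈ D.filter (fun z => E (m' : J) y z)} := by
    refine Nat.card_le_card_of_injective (fun g : B m' => (⟨(g : Equiv.Perm Ω) y, ?_⟩ :
      {z // z ∈ D.filter (fun z => E (m' : J) y z)})) ?_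
    · exact mem_filter.2 ⟨hcl m' hm' g g.2 y hy, (hB m' hm' g.2).1 y⟩
    · intro g g' hgg
      have h3 : (g : Equiv.Perm Ω) y = (g' : Equiv.Perm Ω) y := congrArg Subtype.val hgg
      apply Subtype.ext
      exact Equiv.coe_fn_injective (gja_unique h hK m'.2 (hB m' hm' g.2) (hB m' hm' g'.2) h3)
  rw [hb m' hm', Nat.card_eq_fintype_card, Fintype.card_coe] at h2
  exact h2

theorem fin_card (h : Co E T q) {K : Finset J} (hKc : K.card = 4) :
    Fintype.card {m : J // m ∉ K} = q ^ 2 + 1 - 4 := by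
  rw [Fintype.card_subtype_compl, h.dirs]
  simp [hKc]

/-- normal `p`-complements -/
theorem co_good (h : Co E T q) (p α r : ℕ) (hp : p.Prime) (hα : 1 ≤ α) (hr : ¬ p ∣ r) (hr2 : 2 ≤ r)
    (hq : q = p ^ α * r) (hg : Good p α r) : False := by
  have hQ : 2 ≤ p ^ α := by
    calc 2 ≤ p := hp.two_le
      _ = p ^ 1 := (pow_one p).symm
      _ ≤ p ^ α := Nat.pow_le_pow_right hp.pos hα
  have hq3 : 4 ≤ q := by rw [hq]; nlinarith
  obtain ⟨K, hKc, hK, hσ⟩ := fin_K h (by omega)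
  have hcard : ∀ m : {m : J // m ∉ K}, Nat.card (AJ h m.2) = p ^ α * r := by
    intro m
    rw [gja_card h (by omega) hK m.2 (hσ m.1 m.2), hq]
  have hpm : ∀ m n : {m : J // m ∉ K}, Pm (AJ h m.2) (AJ h n.2) :=
    fun m n => gjb_pm h hK m.2 n.2 (hσ m.1 m.2) (hσ n.1 n.2)
  have hinf : ∀ m n : {m : J // m ∉ K}, m ≠ n → AJ h m.2 ⊓ AJ h n.2 = ⊥ :=
    fun m n hmn => gjb_inf h (fun e => hmn (Subtype.ext e)) m.2 n.2
  have hι := fin_card h hKc
  have hq16 : 16 ≤ q ^ 2 := by nlinarith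
  obtain ⟨O, hO1, hO2, D, hD1, hD2, hD3⟩ := ggn p α r hp hr (by rw [h.pts, hq])
    (fun m : {m : J // m ∉ K} => AJ h m.2) hcard hpm hinf (gjb_tr h (by omega) hK hKc hσ)
    (fun m n hmn => nlp p α r hp hr hg _ _ (hpm m n) (hcard m) (hcard n) (hinf m n hmn))
    (by rw [hι]; omega)
  have key := fin_bound h (by omega) hK univ O r (by omega) (fun m _ => hO1 m) (fun m _ => hO2 m) D hD1
    (fun m _ => hD3 m)
  rw [card_univ, hι] at key
  have hxr : ¬ (r = 2 ∧ p ^ α = 2) := by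
    rintro ⟨h1, h2⟩
    apply hr
    rw [h1, ← h2]
    exact dvd_pow_self p (by omega)
  have h3 := ari_key r (p ^ α) (q ^ 2 + 1 - 4) hr2 hQ hxr (by
    rw [mul_comm r (p ^ α), ← hq]
    exact key.trans (Nat.mul_le_mul_left _ (Nat.add_le_add_left hD2 _)))
  rw [mul_comm r (p ^ α), ← hq] at h3
  have h4 : (q ^ 2 + 1 - 4) * 1 ≤ (q ^ 2 + 1 - 4) * p ^ α := Nat.mul_le_mul_left _ (by omega)
  omega

/-- normal Sylow subgroups, one prime -/
theorem co_one (h : Co E T q) (p α r : ℕ) (hp : p.Prime) (hα : 1 ≤ α) (hr : ¬ p ∣ r) (hr2 : 2 ≤ r)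
    (hq : q = p ^ α * r) {K : Finset J} (hK : ∀ y z, Rel E K y z)
    (hσ : ∀ m ∉ K, ∀ y0 y0', E m y0 y0' → ∃ σ : Ω → Ω, σ y0 = y0' ∧ PJ E K m σ)
    (M : Finset {m : J // m ∉ K})
    (hM : ∀ m ∈ M, ∃ P ≤ AJ h m.2, Nat.card P = p ^ α ∧ ∀ g ∈ AJ h m.2, ∀ x ∈ P, g * x * g⁻¹ ∈ P) :
    M.card * r + 3 < q ^ 2 := by
  have hQ : 2 ≤ p ^ α := by
    calc 2 ≤ p := hp.two_le
      _ = p ^ 1 := (pow_one p).symm
      _ ≤ p ^ α := Nat.pow_le_pow_right hp.pos hα
  have hq3 : 4 ≤ q := by rw [hq]; nlinarith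
  have hcard : ∀ m : {m : J // m ∉ K}, Nat.card (AJ h m.2) = p ^ α * r := by
    intro m
    rw [gja_card h (by omega) hK m.2 (hσ m.1 m.2), hq]
  have hpm : ∀ m n : {m : J // m ∉ K}, Pm (AJ h m.2) (AJ h n.2) :=
    fun m n => gjb_pm h hK m.2 n.2 (hσ m.1 m.2) (hσ n.1 n.2)
  have hinf : ∀ m n : {m : J // m ∉ K}, m ≠ n → AJ h m.2 ⊓ AJ h n.2 = ⊥ :=
    fun m n hmn => gjb_inf h (fun e => hmn (Subtype.ext e)) m.2 n.2
  have hM' : ∀ m : {m : J // m ∉ K}, ∃ P : Subgroup (Equiv.Perm Ω), m ∈ M → P ≤ AJ h m.2 ∧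
      Nat.card P = p ^ α ∧ ∀ g ∈ AJ h m.2, ∀ x ∈ P, g * x * g⁻¹ ∈ P := by
    intro m
    by_cases hm : m ∈ M
    · obtain ⟨P, h1, h2, h3⟩ := hM m hm
      exact ⟨P, fun _ => ⟨h1, h2, h3⟩⟩
    · exact ⟨⊥, fun h' => absurd h' hm⟩
  choose P hP using hM'
  obtain ⟨D, hD1, hD2, hD3⟩ := pcl p α r hp hr (by rw [h.pts, hq])
    (fun m : {m : {m : J // m ∉ K} // m ∈ M} => AJ h m.1.2) (fun m => hcard m.1)
    (fun m n => hpm m.1 n.1) (fun m n hmn => hinf m.1 n.1 (fun e => hmn (Subtype.ext e)))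
    (fun m => P m.1) (fun m => (hP m.1 m.2).1) (fun m => (hP m.1 m.2).2.1) (fun m => (hP m.1 m.2).2.2)
  have key := fin_bound h (by omega) hK M P (p ^ α) (by omega) (fun m hm => (hP m hm).1)
    (fun m hm => (hP m hm).2.1) D hD1 (fun m hm => hD3 ⟨m, hm⟩)
  have hxr : ¬ (p ^ α = 2 ∧ r = 2) := by
    rintro ⟨h1, h2⟩
    apply hr
    rw [h2, ← h1]
    exact dvd_pow_self p (by omega)
  have h3 := ari_key (p ^ α) r M.card hQ hr2 hxr (by
    rw [← hq]
    exact key.trans (Nat.mul_le_mul_left _ (Nat.add_le_add_left hD2 _)))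
  rw [← hq] at h3
  exact h3

/-- normal Sylow subgroups -/
theorem co_sylow (h : Co E T q) (hq : 2 ≤ q) (hpp : ¬ IsPrimePow q)
    (hN : ∀ A : Subgroup (Equiv.Perm Ω), Nat.card A = q → ∃ p, p.Prime ∧ p ∣ q ∧ ∃ P ≤ A,
      Nat.card P = p ^ q.factorization p ∧ ∀ g ∈ A, ∀ x ∈ P, g * x * g⁻¹ ∈ P) : False := by
  have hq0 : q ≠ 0 := by omega
  -- the decomposition at a prime divisor of `q`
  have hdec : ∀ p, p.Prime → p ∣ q → ∃ r, 2 ≤ r ∧ ¬ p ∣ r ∧ 1 ≤ q.factorization p ∧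
      q = p ^ q.factorization p * r := by
    intro p hp hpq
    have h1 : p ^ q.factorization p ∣ q := Nat.ordProj_dvd q p
    obtain ⟨r, hr⟩ := h1
    have h2 : ¬ p ∣ r := by
      have h3 := Nat.not_dvd_ordCompl hp hq0
      have h4 : q / p ^ q.factorization p = r := Nat.div_eq_of_eq_mul_right (pow_pos hp.pos _) hr
      rwa [h4] at h3
    have h5 : 1 ≤ q.factorization p := (hp.dvd_iff_one_le_factorization hq0).1 hpq
    refine ⟨r, ?_, h2, h5, hr⟩
    by_contra h6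
    have h7 : r = 0 ∨ r = 1 := by omega
    rcases h7 with h7 | h7
    · exact h2 (h7 ▸ dvd_zero p)
    · apply hpp
      rw [isPrimePow_nat_iff]
      exact ⟨p, q.factorization p, hp, h5, by rw [h7, mul_one] at hr; exact hr.symm⟩
  have hq4 : 4 ≤ q := by
    by_contra h1
    have h2 : q = 2 ∨ q = 3 := by omega
    rcases h2 with h2 | h2
    · exact hpp (h2 ▸ Nat.prime_two.isPrimePow)
    · exact hpp (h2 ▸ Nat.prime_three.isPrimePow)
  obtain ⟨K, hKc, hK, hσ⟩ := fin_K h (by omega)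
  have hcq : ∀ m : {m : J // m ∉ K}, Nat.card (AJ h m.2) = q :=
    fun m => gja_card h (by omega) hK m.2 (hσ m.1 m.2)
  choose s hs1 hs2 hs3 using fun m : {m : J // m ∉ K} => hN (AJ h m.2) (hcq m)
  have hι := fin_card h hKc
  have hmaps : ∀ m ∈ (univ : Finset {m : J // m ∉ K}), s m ∈ q.primeFactors :=
    fun m _ => Nat.mem_primeFactors.2 ⟨hs1 m, hs2 m, hq0⟩
  have hsum := card_eq_sum_card_fiberwise hmaps
  rw [card_univ, hι] at hsum
  have hlt : ∀ p ∈ q.primeFactors,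
      (univ.filter (fun m : {m : J // m ∉ K} => s m = p)).card * q.primeFactors.card + 3 < q ^ 2 := by
    intro p hp
    have hp1 := Nat.prime_of_mem_primeFactors hp
    obtain ⟨r, hr2, hr, hα, hqr⟩ := hdec p hp1 (Nat.dvd_of_mem_primeFactors hp)
    have h1 := co_one h p (q.factorization p) r hp1 hα hr hr2 hqr hK hσ
      (univ.filter (fun m : {m : J // m ∉ K} => s m = p)) (by
        intro m hm
        have h2 := (mem_filter.1 hm).2
        have h3 := hs3 m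
        rw [h2] at h3
        exact h3)
    have h4 : q.primeFactors.card ≤ r := by
      have := ari_primes p (q.factorization p) r hp1 hr2
      rwa [← hqr] at this
    have h5 := Nat.mul_le_mul_left (univ.filter (fun m : {m : J // m ∉ K} => s m = p)).card h4
    omega
  have hne : q.primeFactors.Nonempty := Nat.nonempty_primeFactors.2 (by omega)
  have hfin : (q ^ 2 + 1 - 4) * q.primeFactors.card < ∑ _p ∈ q.primeFactors, (q ^ 2 - 3) := by
    rw [hsum, sum_mul]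
    refine sum_lt_sum_of_nonempty hne fun p hp => ?_
    have := hlt p hp
    omega
  rw [sum_const, smul_eq_mul, mul_comm] at hfin
  have h16 : 16 ≤ q ^ 2 := by nlinarith
  have h6 : q ^ 2 + 1 - 4 = q ^ 2 - 3 := by omega
  rw [h6] at hfin
  exact lt_irrefl _ hfin

end Pool.H67.CT
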