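import Pool.Agent.H67.CT.LR
import Pool.Agent.H67.CT.Emb
import Pool.Agent.H67.CT.Host

/-!
# FinA: labelling the whole tree, from a labelled caterpillar with the same spine length

Proof.  `exists_host` needs a non-leaf: if there were none the spine would be empty, but a `CatStr`
has `Sp.card = I ≥ 1` (`root`).  Take `r, lf, l'`; `plab_of_cat` with `N` = the non-leaves and `lf`
gives `E ⊇ N`, `E.card = card (Fin k → ZMod 2) = 2^k`, `PLab (par hT r) r E (Fin k → ZMod 2)`.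
Then `plab_lr` with `E' = univ` (`closed_univ hT r hodd`), `hpE`: `par hT r v` is a non-leaf, so in
`N ⊆ E`; `r ∈ N ⊆ E`.
-/

set_option autoImplicit false

open Finset

namespace Pool.Agent.H67.CT

open Pool.Agent.H57.SS

theorem fin_cat {V : Type*} [Fintype V] [DecidableEq V] {T : SimpleGraph V}
    [DecidableRel T.Adj] (hT : T.IsTree) (hodd : ∀ v, Odd (T.degree v))
    (hcat : ∀ v, (univ.filter (fun w => T.Adj v w ∧ T.degree w ≠ 1)).card ≤ 2) {n : ℕ}
    (hc : Fintype.card V = 2 ^ n) {k : ℕ} (hk : 1 ≤ k)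
    (h : HasCat (Fin k → ZMod 2) (univ.filter (fun v => T.degree v ≠ 1)).card) :
    ∃ r : V, PLab (par hT r) r univ (Fin n → ZMod 2) := by
  obtain ⟨X, i1, i2, ⟨s⟩⟩ := h
  have hne : ∃ v, T.degree v ≠ 1 := by
    have h1 : s.Sp.card ≠ 0 := (card_pos.2 ⟨_, s.root⟩).ne'
    rw [s.card] at h1
    obtain ⟨v, hv⟩ := card_pos.1 (Nat.pos_of_ne_zero h1)
    exact ⟨v, (mem_filter.1 hv).2⟩
  obtain ⟨r, hR, hpd, lf, l', hlf, -⟩ := exists_host hT hodd hcat hne
  obtain ⟨E, hNE, -, hEc, hlab⟩ := plab_of_cat s (add_self_fin k) hR rfl lf (fun w hw => by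
    obtain ⟨h1, h2⟩ := hlf w (mem_filter.1 hw).2
    exact ⟨h1, fun h3 => (mem_filter.1 h3).2 h2⟩)
  refine ⟨r, plab_lr (hNE hR.root) (closed_univ hT r hodd) (subset_univ _) hk (hEc.trans ?_)
    ?_ (fun v _ => hNE (mem_filter.2 ⟨mem_univ _, hpd v⟩)) hlab⟩
  · rw [Fintype.card_pi, prod_const, ZMod.card, card_univ, Fintype.card_fin]
  · rw [card_univ, hc]

end Pool.Agent.H67.CT
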