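import Pool.Agent.H67.CT.Base

/-!
# Lad: the ladder

`K` is a field with `m + 1` elements, `pw i = ω^i`.  Vertices: `X = Option (ZMod m) × Bool`
(`none` is the element 0 of `K`, `some i` is `ω^i`); labels
`f (none, false) = (0, 0)`, `f (none, true) = (0, 1)`, `f (some i, false) = (pw i, 0)`,
`f (some i, true) = (pw (i + a), 1)` (bijective onto `K × ZMod 2`).
Rungs `(v, false) - (v, true)`.  Cyclic order of the rungs: `ω^0, 0, ω^1, ω^2, ...`, cut after `ω^c`:
`nxt none = some 1`, `nxt (some 0) = none`, `nxt (some i) = some (i + 1)` for `i ≠ 0`.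
Types: `out none = true`, `out (some i) = decide (i ∈ B)` for `i ≠ c`, `out (some c) = α`;
`inn none = true`, `inn (some i) = decide (i - 1 ∈ B)` for `i ≠ c + 1`, `inn (some (c+1)) = β`.
For `v ≠ some c` : `inn (nxt v) = out v` (uses `0 ∈ B`, `c ∉ B`; in particular `c ≠ 0`).
Choice: `α = decide (c - 1 ∈ B)` (no change) or its negation (change); `β = decide (c + 1 ∈ B)` or its
negation; so the number `δ` of changes at the two ends can be 0, 1, 2.
`P (v, σ) = (v, out v)` if `σ ≠ out v`; `= (nxt v, σ)` if `σ = out v` and `v ≠ some c`;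
`ρ = (some c, α)`, `P ρ = ρ`.
`Sp = {(v, σ) | σ = out v ∨ σ = inn v}`.
`rk (some i, σ) = 4 (c - i).val + [σ ≠ out]`, `rk (none, σ) = 4 (c - 1).val + 2 + [σ ≠ out]`
(`(c - (i+1)).val + 1 = (c - i).val` for `i ≠ c`).
`card Sp = ∑_v (1 + [inn v ≠ out v]) = (m + 1) + chg B c + δ`: for `v = some g`, `g ≠ c, c+1` there is
a change iff `¬ (g - 1 ∈ B ↔ g ∈ B)`, `v = none`: no change.
`injSp`: a spine vertex `(v, out v)`, `v ≠ some c`, goes to `(nxt v, out v) = (nxt v, inn (nxt v))`; a
spine vertex `(v, inn v)` with `inn v ≠ out v` goes to `(v, out v)`; these are different kinds, and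
`nxt` is injective.  `injLf`: `(v, σ)` with `σ ≠ out v` goes to `(v, out v)`.
`lab`: sums `f x + f (P x)`:
 rung at `v`: second component 1, first `0` (v = none) or `pw i + pw (i+a) = pw i (1 + pw a)`,
 with `1 + pw a ≠ 0` (`pw a = 1 = pw 0` would give `a = 0`): all different;
 the other edges have second component 0 and first component (`PW.succ`)
 `pw (g + t)` for `v = some g`, `g ∉ B` (`g ≠ c`); `pw (g + a + t)` for `g ∈ B`, `g ≠ 0`;
 `pw a` for `v = some 0`; `pw (1 + a)` for `v = none`.
 Subtracting `t`: the indices are `g` (`g ∉ B ∪ {c}`), `g + a` (`g ∈ B \ {0}`), `a - t`, `a - t + 1`.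
 By `step, s1, s2` the last three kinds lie in `B ∪ {c}`; they are pairwise different by `n1`
 (`g + a = a - t` iff `g = -t`), `n2` (`g + a = a - t + 1` iff `g = 1 - t`) and `1 ≠ 0`.
(Checked by computer for all `m = 2^κ - 1`, `κ ≤ 8`, in the families used later.)
-/

set_option autoImplicit false

open Finset

namespace Pool.Agent.H67.CT

section

variable {m : ℕ} [NeZero m] (B : Finset (ZMod m)) (c a : ZMod m) (α β : Bool)

/-- the type of the upper edge -/
def Lad_out : Option (ZMod m) → Bool
  | none => true
  | some i => if i = c then α else decide (i ∈ B)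

/-- the type of the lower edge -/
def Lad_inn : Option (ZMod m) → Bool
  | none => true
  | some i => if i = c + 1 then β else decide (i - 1 ∈ B)

/-- the next rung -/
def Lad_nxt : Option (ZMod m) → Option (ZMod m)
  | none => some 1
  | some i => if i = 0 then none else some (i + 1)

/-- the parent function -/
def Lad_P (x : Option (ZMod m) × Bool) : Option (ZMod m) × Bool :=
  if x.2 = Lad_out B c α x.1 then (if x.1 = some c then x else (Lad_nxt x.1, x.2))
  else (x.1, Lad_out B c α x.1)

/-- rank -/
def Lad_rk (x : Option (ZMod m) × Bool) : ℕ :=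
  (match x.1 with
    | none => 4 * (c - 1).val + 2
    | some i => 4 * (c - i).val) + if x.2 = Lad_out B c α x.1 then 0 else 1

omit [NeZero m] in
theorem Lad_rk_none (σ : Bool) : Lad_rk B c α (none, σ) =
    4 * (c - 1).val + 2 + (if σ = Lad_out B c α none then 0 else 1) := rfl

omit [NeZero m] in
theorem Lad_rk_some (i : ZMod m) (σ : Bool) : Lad_rk B c α (some i, σ) =
    4 * (c - i).val + (if σ = Lad_out B c α (some i) then 0 else 1) := rfl

/-- first components of the labels -/
def Lad_v {K : Type} [Field K] (pw : ZMod m → K) : Option (ZMod m) → Bool → K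
  | none, _ => 0
  | some i, false => pw i
  | some i, true => pw (i + a)

/-- the label -/
def Lad_f {K : Type} [Field K] (pw : ZMod m → K) (x : Option (ZMod m) × Bool) : K × ZMod 2 :=
  (Lad_v a pw x.1 x.2, if x.2 then 1 else 0)

/-- the index of an edge which is not a rung -/
def Lad_idx (t : ZMod m) : Option (ZMod m) → ZMod m
  | none => a - t + 1
  | some i => if i = 0 then a - t else if i ∈ B then i + a else i

omit [NeZero m] in
theorem Lad_one_ne (hm : 3 ≤ m) : (1 : ZMod m) ≠ 0 := by
  have : Fact (1 < m) := ⟨by omega⟩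
  exact one_ne_zero

omit [NeZero m] in
theorem Lad_nxt_inj : Function.Injective (Lad_nxt : Option (ZMod m) → Option (ZMod m)) := by
  intro v w h
  cases v with
  | none =>
    cases w with
    | none => rfl
    | some j =>
      simp only [Lad_nxt] at h
      split_ifs at h with hj
      have := Option.some.inj h
      exfalso
      apply hj
      linear_combination (-1 : ZMod m) * this
  | some i =>
    cases w with
    | none =>
      simp only [Lad_nxt] at h
      split_ifs at h with hi
      have := Option.some.inj h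
      exfalso
      apply hi
      linear_combination this
    | some j =>
      simp only [Lad_nxt] at h
      split_ifs at h with hi hj hj
      · rw [hi, hj]
      · have := Option.some.inj h
        rw [add_right_cancel this]

omit [NeZero m] in
theorem Lad_inn_nxt (h0 : (0 : ZMod m) ∈ B) (hc : c ∉ B) (v : Option (ZMod m)) (hv : v ≠ some c) :
    Lad_inn B c β (Lad_nxt v) = Lad_out B c α v := by
  have hc0 : c ≠ 0 := fun h => hc (h ▸ h0)
  cases v with
  | none =>
    have h1 : (1 : ZMod m) ≠ c + 1 := fun h => hc0 (by linear_combination -h)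
    simp [Lad_nxt, Lad_inn, Lad_out, h1, h0]
  | some i =>
    have hic : i ≠ c := fun h => hv (by rw [h])
    by_cases hi : i = 0
    · subst hi
      simp [Lad_nxt, Lad_inn, Lad_out, hic, h0]
    · have h1 : i + 1 ≠ c + 1 := fun h => hic (add_right_cancel h)
      simp [Lad_nxt, Lad_inn, Lad_out, hic, hi]

theorem Lad_val_succ {z : ZMod m} (hz : z ≠ 0) : z.val = (z - 1).val + 1 := by
  have h1 : ((z.val - 1 : ℕ) : ZMod m) = z - 1 := by
    have hpos : 1 ≤ z.val := Nat.one_le_iff_ne_zero.mpr (by rwa [Ne, ZMod.val_eq_zero])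
    rw [Nat.cast_sub hpos, ZMod.natCast_zmod_val, Nat.cast_one]
  have hpos : 1 ≤ z.val := Nat.one_le_iff_ne_zero.mpr (by rwa [Ne, ZMod.val_eq_zero])
  have h2 : (z - 1).val = z.val - 1 := by
    rw [← h1, ZMod.val_natCast]
    apply Nat.mod_eq_of_lt
    have := ZMod.val_lt z
    omega
  omega

omit [NeZero m] in
theorem Lad_sum_rung {K : Type} [Field K] (pw : ZMod m → K) (v : Option (ZMod m)) (σ : Bool) :
    Lad_f a pw (v, σ) + Lad_f a pw (v, !σ) = (Lad_v a pw v false + Lad_v a pw v true, 1) := by
  cases σ
  · simp [Lad_f]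
  · simp [Lad_f, add_comm]

omit [NeZero m] in
theorem Lad_sum_edge {K : Type} [Field K] {pw : ZMod m → K} (hpw : PW m K pw) {t : ZMod m}
    (ht : pw t = 1 + pw 1) (h0 : (0 : ZMod m) ∈ B)
    (v : Option (ZMod m)) (hv : v ≠ some c) :
    Lad_f a pw (v, Lad_out B c α v) + Lad_f a pw (Lad_nxt v, Lad_out B c α v) =
      (pw (Lad_idx B a t v + t), 0) := by
  have h11 : (1 : ZMod 2) + 1 = 0 := by decide
  have hsnd : ∀ σ : Bool, ((if σ then 1 else 0 : ZMod 2) + if σ then 1 else 0) = 0 := by
    intro σ; cases σ
    · simp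
    · simpa using h11
  unfold Lad_f
  rw [Prod.mk_add_mk, hsnd]
  congr 1
  cases v with
  | none =>
    simp only [Lad_out, Lad_nxt, Lad_v, Lad_idx]
    rw [zero_add]
    congr 1
    ring
  | some i =>
    have hic : i ≠ c := fun h => hv (by rw [h])
    by_cases hi : i = 0
    · subst hi
      simp only [Lad_out, Lad_nxt, if_neg hic, h0, decide_true, if_true, Lad_v, Lad_idx]
      rw [add_zero]
      congr 1
      ring
    · by_cases hiB : i ∈ B
      · simp only [Lad_out, Lad_nxt, if_neg hic, hiB, decide_true, if_true, if_neg hi, Lad_v,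
          Lad_idx]
        have h := hpw.succ ht (i + a)
        rw [← h]
        congr 2
        ring
      · simp only [Lad_out, Lad_nxt, if_neg hic, hiB, decide_false, if_false, if_neg hi, Lad_v,
          Lad_idx]
        exact hpw.succ ht i

omit [NeZero m] in
theorem Lad_idx_inj (hm : 3 ≤ m) {t : ZMod m} {B : Finset (ZMod m)} {c a : ZMod m}
    (step : ∀ g ∈ B, g ≠ 0 → g + a ∈ B ∨ g + a = c) (s1 : a - t ∈ B ∨ a - t = c)
    (s2 : a - t + 1 ∈ B ∨ a - t + 1 = c) (n1 : -t ∉ B) (n2 : 1 - t ∉ B)
    (v w : Option (ZMod m)) (hv : v ≠ some c) (hw : w ≠ some c)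
    (e : Lad_idx B a t v = Lad_idx B a t w) : v = w := by
  have h10 := Lad_one_ne hm
  -- special kind: index in `B ∪ {c}`
  have hkind : ∀ v : Option (ZMod m), v ≠ some c →
      (Lad_idx B a t v ∈ B ∨ Lad_idx B a t v = c) ∨
        ∃ i, v = some i ∧ i ∉ B ∧ i ≠ c ∧ Lad_idx B a t v = i := by
    intro v hv
    cases v with
    | none => left; simpa only [Lad_idx] using s2
    | some i =>
      have hic : i ≠ c := fun h => hv (by rw [h])
      by_cases hi : i = 0
      · left; simp only [Lad_idx, if_pos hi]; exact s1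
      · by_cases hiB : i ∈ B
        · left; simp only [Lad_idx, if_neg hi, if_pos hiB]; exact step i hiB hi
        · right; exact ⟨i, rfl, hiB, hic, by simp only [Lad_idx, if_neg hi, if_neg hiB]⟩
  rcases hkind v hv with h1 | ⟨i, hi1, hi2, hi3, hi4⟩
  · rcases hkind w hw with h2 | ⟨j, hj1, hj2, hj3, hj4⟩
    · -- both special
      have hfree : ∀ i : ZMod m, i ∉ B → i ≠ 0 → Lad_idx B a t (some i) = i := by
        intro i h1 h2
        simp only [Lad_idx, if_neg h2, if_neg h1]
      have hform : ∀ v : Option (ZMod m), v ≠ some c → (Lad_idx B a t v ∈ B ∨ Lad_idx B a t v = c) →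
          v = none ∨ v = some 0 ∨ ∃ i, v = some i ∧ i ∈ B ∧ i ≠ 0 := by
        intro v hv h
        cases v with
        | none => exact Or.inl rfl
        | some i =>
          right
          by_cases hi : i = 0
          · left; rw [hi]
          · right
            by_cases hiB : i ∈ B
            · exact ⟨i, rfl, hiB, hi⟩
            · rw [hfree i hiB hi] at h
              rcases h with h | h
              · exact absurd h hiB
              · exact absurd (by rw [h]) hv
      have e1 : ∀ i, i ∈ B → i ≠ 0 → Lad_idx B a t (some i) = i + a := by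
        intro i h1 h2
        simp only [Lad_idx, if_neg h2, if_pos h1]
      have e0 : Lad_idx B a t (some 0) = a - t := by simp only [Lad_idx, if_true]
      have en : Lad_idx B a t none = a - t + 1 := rfl
      rcases hform v hv h1 with rfl | rfl | ⟨i, rfl, hiB, hi0⟩ <;>
        rcases hform w hw h2 with rfl | rfl | ⟨j, rfl, hjB, hj0⟩
      · rfl
      · rw [en, e0] at e
        exact absurd (by linear_combination e) h10
      · rw [en, e1 j hjB hj0] at e
        exact absurd (show (1 : ZMod m) - t ∈ B by
          have : (1 : ZMod m) - t = j := by linear_combination e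
          rw [this]; exact hjB) n2
      · rw [en, e0] at e
        exact absurd (by linear_combination -e) h10
      · rfl
      · rw [e0, e1 j hjB hj0] at e
        exact absurd (show -t ∈ B by
          have : -t = j := by linear_combination e
          rw [this]; exact hjB) n1
      · rw [en, e1 i hiB hi0] at e
        exact absurd (show (1 : ZMod m) - t ∈ B by
          have : (1 : ZMod m) - t = i := by linear_combination -e
          rw [this]; exact hiB) n2
      · rw [e0, e1 i hiB hi0] at e
        exact absurd (show -t ∈ B by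
          have : -t = i := by linear_combination -e
          rw [this]; exact hiB) n1
      · rw [e1 i hiB hi0, e1 j hjB hj0] at e
        rw [add_right_cancel e]
    · rw [e, hj4] at h1
      rcases h1 with h1 | h1
      · exact absurd h1 hj2
      · exact absurd h1 hj3
  · rcases hkind w hw with h2 | ⟨j, hj1, hj2, hj3, hj4⟩
    · rw [← e, hi4] at h2
      rcases h2 with h2 | h2
      · exact absurd h2 hi2
      · exact absurd h2 hi3
    · rw [hi1, hj1]
      rw [hi4, hj4] at e
      rw [e]

omit [NeZero m] in
theorem Lad_f_inj {K : Type} [Field K] {pw : ZMod m → K} (hpw : PW m K pw) :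
    Function.Injective (Lad_f a pw) := by
  rintro ⟨v, σ⟩ ⟨w, τ⟩ h
  have h1 : Lad_v a pw v σ = Lad_v a pw w τ := congrArg Prod.fst h
  have h2 : (if σ then 1 else 0 : ZMod 2) = if τ then 1 else 0 := congrArg Prod.snd h
  have hστ : σ = τ := by
    cases σ <;> cases τ <;> simp at h2 ⊢
  subst hστ
  congr 1
  cases v with
  | none =>
    cases w with
    | none => rfl
    | some j =>
      cases σ
      · exact absurd h1.symm (hpw.ne_zero _)
      · exact absurd h1.symm (hpw.ne_zero _)
  | some i =>
    cases w with
    | none =>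
      cases σ
      · exact absurd h1 (hpw.ne_zero _)
      · exact absurd h1 (hpw.ne_zero _)
    | some j =>
      cases σ
      · rw [hpw.inj h1]
      · rw [add_right_cancel (hpw.inj h1)]

omit [NeZero m] in
theorem Lad_f_surj {K : Type} [Field K] {pw : ZMod m → K} (hpw : PW m K pw) :
    Function.Surjective (Lad_f a pw) := by
  rintro ⟨x, s⟩
  have hs : s = 0 ∨ s = 1 := by
    revert s; decide
  by_cases hx : x = 0
  · rcases hs with rfl | rfl
    · exact ⟨(none, false), by simp [Lad_f, Lad_v, hx]⟩
    · exact ⟨(none, true), by simp [Lad_f, Lad_v, hx]⟩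
  · obtain ⟨i, hi⟩ := hpw.surj x hx
    rcases hs with rfl | rfl
    · exact ⟨(some i, false), by simp [Lad_f, Lad_v, hi]⟩
    · exact ⟨(some (i - a), true), by simp [Lad_f, Lad_v, hi]⟩

theorem Lad_card (hm : 3 ≤ m) (δ : ℕ) (hδ : δ ≤ 2) (hα : α = xor (decide (c - 1 ∈ B)) (decide (1 ≤ δ)))
    (hβ : β = xor (decide (c + 1 ∈ B)) (decide (2 ≤ δ))) :
    (univ.filter (fun x : Option (ZMod m) × Bool =>
      x.2 = Lad_out B c α x.1 ∨ x.2 = Lad_inn B c β x.1)).card = m + 1 + chg B c + δ := by
  classical
  have h10 := Lad_one_ne hm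
  set D : Finset (Option (ZMod m)) :=
    univ.filter (fun v => Lad_inn B c β v ≠ Lad_out B c α v) with hD
  have h1 : univ.filter (fun x : Option (ZMod m) × Bool =>
      x.2 = Lad_out B c α x.1 ∨ x.2 = Lad_inn B c β x.1) =
      (univ.image (fun v => (v, Lad_out B c α v))) ∪ (D.image (fun v => (v, Lad_inn B c β v))) := by
    ext ⟨v, σ⟩
    simp only [mem_filter, mem_univ, true_and, mem_union, mem_image, Prod.mk.injEq, hD]
    constructor
    · rintro (h | h)
      · exact Or.inl ⟨v, rfl, h.symm⟩
      · by_cases h' : Lad_inn B c β v = Lad_out B c α v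
        · exact Or.inl ⟨v, rfl, by rw [h, h']⟩
        · exact Or.inr ⟨v, h', rfl, h.symm⟩
    · rintro (⟨w, rfl, h⟩ | ⟨w, _, rfl, h⟩)
      · exact Or.inl h.symm
      · exact Or.inr h.symm
  have hdis : Disjoint (univ.image (fun v => (v, Lad_out B c α v)))
      (D.image (fun v => (v, Lad_inn B c β v))) := by
    rw [Finset.disjoint_left]
    rintro ⟨v, σ⟩ h2 h3
    simp only [mem_image, mem_univ, true_and, Prod.mk.injEq, hD, mem_filter] at h2 h3
    obtain ⟨w, rfl, h2⟩ := h2
    obtain ⟨u, h4, rfl, h3⟩ := h3
    exact h4 (by rw [h3, h2])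
  rw [h1, card_union_of_disjoint hdis, card_image_of_injective _ (fun v w h => congrArg Prod.fst h),
    card_image_of_injective _ (fun v w h => congrArg Prod.fst h), card_univ, Fintype.card_option,
    ZMod.card]
  have h2 : D = (univ.filter (fun g : ZMod m =>
      Lad_inn B c β (some g) ≠ Lad_out B c α (some g))).image some := by
    ext v
    cases v with
    | none => simp [hD, Lad_inn, Lad_out]
    | some g => simp [hD]
  rw [h2, card_image_of_injective _ (Option.some_injective _)]
  have hcc : c ≠ c + 1 := fun h => h10 (by linear_combination -h)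
  have h3 : univ.filter (fun g : ZMod m => Lad_inn B c β (some g) ≠ Lad_out B c α (some g)) =
      (univ.filter (fun g : ZMod m => g ≠ c ∧ g ≠ c + 1 ∧ ¬ (g - 1 ∈ B ↔ g ∈ B))) ∪
        ((if 1 ≤ δ then {c} else ∅) ∪ (if 2 ≤ δ then {c + 1} else ∅)) := by
    ext g
    simp only [mem_filter, mem_univ, true_and, mem_union]
    by_cases hgc : g = c
    · subst hgc
      have hr : g ∉ (if 2 ≤ δ then ({g + 1} : Finset (ZMod m)) else ∅) := by
        split_ifs
        · rw [mem_singleton]; exact hcc
        · simp
      simp only [Lad_inn, Lad_out, if_neg hcc, if_true, hα, ne_eq, not_true, false_and, false_or, hr,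
        or_false]
      by_cases hd : 1 ≤ δ
      · simp [hd]
      · simp [hd]
    · by_cases hgc1 : g = c + 1
      · subst hgc1
        have hr : c + 1 ∉ (if 1 ≤ δ then ({c} : Finset (ZMod m)) else ∅) := by
          split_ifs
          · rw [mem_singleton]; exact hcc.symm
          · simp
        simp only [Lad_inn, Lad_out, if_neg hcc.symm, if_true, hβ, ne_eq, not_true, false_and,
          and_false, false_or, hr]
        by_cases hd : 2 ≤ δ
        · simp [hd]
        · simp [hd]
      · have hr1 : g ∉ (if 1 ≤ δ then ({c} : Finset (ZMod m)) else ∅) := by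
          split_ifs
          · rw [mem_singleton]; exact hgc
          · simp
        have hr2 : g ∉ (if 2 ≤ δ then ({c + 1} : Finset (ZMod m)) else ∅) := by
          split_ifs
          · rw [mem_singleton]; exact hgc1
          · simp
        simp only [Lad_inn, Lad_out, ne_eq, hgc, hgc1, not_false_iff,
          true_and, hr1, hr2, or_false, if_false, decide_eq_decide]
  have hd1 : Disjoint (univ.filter (fun g : ZMod m => g ≠ c ∧ g ≠ c + 1 ∧ ¬ (g - 1 ∈ B ↔ g ∈ B)))
      ((if 1 ≤ δ then {c} else ∅) ∪ (if 2 ≤ δ then {c + 1} else ∅)) := by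
    rw [Finset.disjoint_left]
    intro g hg hg2
    rw [mem_filter] at hg
    rw [mem_union] at hg2
    rcases hg2 with h | h
    · split_ifs at h
      · exact hg.2.1 (mem_singleton.mp h)
      · simp at h
    · split_ifs at h
      · exact hg.2.2.1 (mem_singleton.mp h)
      · simp at h
  have hd2 : Disjoint (if 1 ≤ δ then ({c} : Finset (ZMod m)) else ∅)
      (if 2 ≤ δ then {c + 1} else ∅) := by
    rw [Finset.disjoint_left]
    intro g hg hg2
    split_ifs at hg hg2
    · rw [mem_singleton] at hg hg2
      exact hcc (hg ▸ hg2)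
    · simp at hg2
    · simp at hg
    · simp at hg
  rw [h3, card_union_of_disjoint hd1, card_union_of_disjoint hd2]
  have h4 : (if 1 ≤ δ then ({c} : Finset (ZMod m)) else ∅).card +
      (if 2 ≤ δ then ({c + 1} : Finset (ZMod m)) else ∅).card = δ := by
    interval_cases δ <;> simp
  rw [h4, chg]
  ring

end

theorem ladder {m : ℕ} [NeZero m] (hm : 3 ≤ m) {K : Type} [Field K] {pw : ZMod m → K}
    (hpw : PW m K pw) {B : Finset (ZMod m)} {c a t : ZMod m} (ht : pw t = 1 + pw 1)
    (h : LadHyp B c a t) (δ : ℕ) (hδ : δ ≤ 2) :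
    HasCat (K × ZMod 2) (m + 1 + chg B c + δ) := by
  classical
  set α : Bool := xor (decide (c - 1 ∈ B)) (decide (1 ≤ δ)) with hα
  set β : Bool := xor (decide (c + 1 ∈ B)) (decide (2 ≤ δ)) with hβ
  have hc0 : c ≠ 0 := fun h' => h.cut (h' ▸ h.zero)
  have hnb : ∀ x y : Bool, x ≠ y → x = !y := by decide
  have hPrung : ∀ x : Option (ZMod m) × Bool, x.2 ≠ Lad_out B c α x.1 →
      Lad_P B c α x = (x.1, Lad_out B c α x.1) := fun x hx => by
    unfold Lad_P; rw [if_neg hx]
  have hPedge : ∀ x : Option (ZMod m) × Bool, x.2 = Lad_out B c α x.1 → x.1 ≠ some c →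
      Lad_P B c α x = (Lad_nxt x.1, x.2) := fun x hx hx2 => by
    unfold Lad_P; rw [if_pos hx, if_neg hx2]
  have hoc : Lad_out B c α (some c) = α := by simp [Lad_out]
  have hρne : ∀ x : Option (ZMod m) × Bool, x ≠ (some c, α) → x.2 = Lad_out B c α x.1 →
      x.1 ≠ some c := by
    rintro ⟨v, σ⟩ hx hs hv
    simp only at hs hv
    apply hx
    rw [hv, hoc] at hs
    rw [hv, hs]
  have h1a : 1 + pw a ≠ 0 := by
    intro h0
    have h2 := hpw.two 1
    have h3 : pw a = pw 0 := by
      rw [hpw.zero]
      linear_combination h0 - h2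
    exact h.ha (hpw.inj h3)
  refine ⟨Option (ZMod m) × Bool, inferInstance, inferInstance, ⟨⟨Lad_f a pw, Lad_P B c α,
    (some c, α), univ.filter (fun x => x.2 = Lad_out B c α x.1 ∨ x.2 = Lad_inn B c β x.1),
    Lad_rk B c α, ⟨Lad_f_inj a hpw, Lad_f_surj a hpw⟩, ?_, ?_, ?_, ?_, ?_, ?_, ?_,
    Lad_card B c α β hm δ hδ hα hβ⟩⟩⟩
  · -- root
    rw [mem_filter]
    exact ⟨mem_univ _, Or.inl hoc.symm⟩
  · -- Pρ
    unfold Lad_P
    rw [if_pos hoc.symm, if_pos rfl]
  · -- PSp
    intro x
    rw [mem_filter]
    refine ⟨mem_univ _, ?_⟩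
    by_cases hx : x.2 = Lad_out B c α x.1
    · by_cases hx2 : x.1 = some c
      · have : Lad_P B c α x = x := by unfold Lad_P; rw [if_pos hx, if_pos hx2]
        rw [this]
        exact Or.inl hx
      · rw [hPedge x hx hx2]
        right
        show x.2 = Lad_inn B c β (Lad_nxt x.1)
        rw [Lad_inn_nxt B c α β h.zero h.cut x.1 hx2, hx]
    · rw [hPrung x hx]
      exact Or.inl rfl
  · -- rkP
    intro x hx
    by_cases hs : x.2 = Lad_out B c α x.1
    · have hx2 := hρne x hx hs
      rw [hPedge x hs hx2]
      have hle : ∀ σ : Bool, ∀ w : Option (ZMod m), (if σ = Lad_out B c α w then 0 else 1) ≤ 1 := by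
        intro σ w; split_ifs <;> omega
      obtain ⟨v, σ⟩ := x
      simp only at hs hx2 ⊢
      cases v with
      | none =>
        have hh := hle σ (some 1)
        rw [Lad_rk_none]
        show Lad_rk B c α (some 1, σ) < _
        rw [Lad_rk_some]
        omega
      | some i =>
        have hic : i ≠ c := fun h' => hx2 (by rw [h'])
        by_cases hi : i = 0
        · subst hi
          have hh := hle σ none
          have hv := Lad_val_succ hc0
          have hn : Lad_nxt (some (0 : ZMod m)) = none := by simp [Lad_nxt]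
          rw [hn, Lad_rk_none, Lad_rk_some, sub_zero]
          omega
        · have hh := hle σ (some (i + 1))
          have hv := Lad_val_succ (z := c - i) (fun h' => hic (by linear_combination -h'))
          rw [sub_sub] at hv
          have hn : Lad_nxt (some i) = some (i + 1) := by simp [Lad_nxt, hi]
          rw [hn, Lad_rk_some, Lad_rk_some]
          omega
    · rw [hPrung x hs]
      simp only [Lad_rk, if_true, if_neg hs]
      omega
  · -- injSp
    intro x hx y hy hxρ hyρ hP
    rw [mem_filter] at hx hy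
    by_cases hxs : x.2 = Lad_out B c α x.1
    · have hx2 := hρne x hxρ hxs
      have hxi := Lad_inn_nxt B c α β h.zero h.cut x.1 hx2
      by_cases hys : y.2 = Lad_out B c α y.1
      · have hy2 := hρne y hyρ hys
        rw [hPedge x hxs hx2, hPedge y hys hy2, Prod.mk.injEq] at hP
        exact Prod.ext (Lad_nxt_inj hP.1) hP.2
      · exfalso
        rw [hPedge x hxs hx2, hPrung y hys, Prod.mk.injEq] at hP
        have hyi : y.2 = Lad_inn B c β y.1 := hy.2.resolve_left hys
        apply hys
        rw [hyi, ← hP.1, hxi, ← hxs, hP.2, hP.1]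
    · by_cases hys : y.2 = Lad_out B c α y.1
      · exfalso
        have hy2 := hρne y hyρ hys
        have hyi := Lad_inn_nxt B c α β h.zero h.cut y.1 hy2
        rw [hPrung x hxs, hPedge y hys hy2, Prod.mk.injEq] at hP
        have hxi : x.2 = Lad_inn B c β x.1 := hx.2.resolve_left hxs
        apply hxs
        rw [hxi, hP.1, hyi, ← hys, ← hP.2, hP.1]
      · rw [hPrung x hxs, hPrung y hys, Prod.mk.injEq] at hP
        apply Prod.ext hP.1
        rw [hnb _ _ hxs, hnb _ _ hys, hP.2]
  · -- injLf
    intro x y hx hy hP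
    rw [mem_filter] at hx hy
    have hxs : x.2 ≠ Lad_out B c α x.1 := fun h' => hx ⟨mem_univ _, Or.inl h'⟩
    have hys : y.2 ≠ Lad_out B c α y.1 := fun h' => hy ⟨mem_univ _, Or.inl h'⟩
    rw [hPrung x hxs, hPrung y hys, Prod.mk.injEq] at hP
    apply Prod.ext hP.1
    rw [hnb _ _ hxs, hnb _ _ hys, hP.2]
  · -- lab
    have hrung : ∀ x : Option (ZMod m) × Bool, x.2 ≠ Lad_out B c α x.1 →
        Lad_f a pw x + Lad_f a pw (Lad_P B c α x) =
          (Lad_v a pw x.1 false + Lad_v a pw x.1 true, 1) := by
      rintro ⟨v, σ⟩ hx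
      rw [hPrung _ hx]
      have h2 := hnb _ _ (Ne.symm hx)
      simp only at h2 ⊢
      rw [h2]
      exact Lad_sum_rung a pw v σ
    have hedge : ∀ x : Option (ZMod m) × Bool, x.2 = Lad_out B c α x.1 → x.1 ≠ some c →
        Lad_f a pw x + Lad_f a pw (Lad_P B c α x) = (pw (Lad_idx B a t x.1 + t), 0) := by
      rintro ⟨v, σ⟩ hx hv
      rw [hPedge _ hx hv]
      simp only at hx hv ⊢
      rw [hx]
      exact Lad_sum_edge B c a α hpw ht h.zero v hv
    have hvinj : ∀ v w : Option (ZMod m), Lad_v a pw v false + Lad_v a pw v true =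
        Lad_v a pw w false + Lad_v a pw w true → v = w := by
      have hs : ∀ i : ZMod m, Lad_v a pw (some i) false + Lad_v a pw (some i) true =
          pw i * (1 + pw a) := by
        intro i
        show pw i + pw (i + a) = _
        rw [hpw.add]; ring
      have hn : Lad_v a pw none false + Lad_v a pw none true = 0 := by
        show (0 : K) + 0 = 0
        rw [add_zero]
      intro v w hvw
      cases v with
      | none =>
        cases w with
        | none => rfl
        | some j =>
          rw [hn, hs] at hvw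
          exact absurd hvw.symm (mul_ne_zero (hpw.ne_zero _) h1a)
      | some i =>
        cases w with
        | none =>
          rw [hn, hs] at hvw
          exact absurd hvw (mul_ne_zero (hpw.ne_zero _) h1a)
        | some j =>
          rw [hs, hs] at hvw
          rw [hpw.inj (mul_right_cancel₀ h1a hvw)]
    have h01 : (1 : ZMod 2) ≠ 0 := by decide
    intro x y hxρ hyρ hxy
    by_cases hxs : x.2 = Lad_out B c α x.1
    · have hx2 := hρne x hxρ hxs
      by_cases hys : y.2 = Lad_out B c α y.1
      · have hy2 := hρne y hyρ hys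
        rw [hedge x hxs hx2, hedge y hys hy2, Prod.mk.injEq] at hxy
        have h5 := Lad_idx_inj hm h.step h.s1 h.s2 h.n1 h.n2 x.1 y.1 hx2 hy2
          (add_right_cancel (hpw.inj hxy.1))
        apply Prod.ext h5
        rw [hxs, hys, h5]
      · rw [hedge x hxs hx2, hrung y hys, Prod.mk.injEq] at hxy
        exact absurd hxy.2.symm h01
    · by_cases hys : y.2 = Lad_out B c α y.1
      · have hy2 := hρne y hyρ hys
        rw [hrung x hxs, hedge y hys hy2, Prod.mk.injEq] at hxy
        exact absurd hxy.2 h01
      · rw [hrung x hxs, hrung y hys, Prod.mk.injEq] at hxy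
        have h5 := hvinj _ _ hxy.1
        apply Prod.ext h5
        rw [hnb _ _ hxs, hnb _ _ hys, h5]

end Pool.Agent.H67.CT
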