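import Mathlib

/-!
# Groups of order `q` in an arbitrary universe; Sylow's theorem
-/

set_option autoImplicit false

namespace Pool.H67.CT

universe u

/-- every group of order `q` has a nontrivial normal Sylow subgroup -/
def NormalSylow (q : ℕ) : Prop :=
  ∀ (B : Type) [Group B] [Finite B], Nat.card B = q →
    ∃ p, p.Prime ∧ p ∣ q ∧ ∃ P : Sylow p B, (P : Subgroup B).Normal

theorem trn {q : ℕ} (hN : NormalSylow q) {G : Type u} [Group G] [Finite G] (A : Subgroup G)
    (hA : Nat.card A = q) : ∃ p, p.Prime ∧ p ∣ q ∧ ∃ P ≤ A, Nat.card P = p ^ q.factorization p ∧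
      ∀ g ∈ A, ∀ x ∈ P, g * x * g⁻¹ ∈ P := by
  have hs : Small.{0} A := inferInstance
  have hf : Finite (Shrink.{0} A) := Finite.of_equiv A (equivShrink A)
  obtain ⟨e, -⟩ : ∃ e : Shrink.{0} A ≃* A, True := ⟨Shrink.mulEquiv, trivial⟩
  have hc : Nat.card (Shrink.{0} A) = q := by rw [Nat.card_congr e.toEquiv, hA]
  obtain ⟨p, hp, hpq, P, hP⟩ := hN (Shrink.{0} A) hc
  have hpF : Fact p.Prime := ⟨hp⟩
  refine ⟨p, hp, hpq, ((P : Subgroup (Shrink.{0} A)).map e.toMonoidHom).map A.subtype, ?_, ?_, ?_⟩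
  · rintro x ⟨y, _, rfl⟩
    exact y.2
  · rw [Nat.card_congr (Subgroup.equivMapOfInjective _ _ A.subtype_injective).symm.toEquiv,
      Nat.card_congr (Subgroup.equivMapOfInjective _ _ e.injective).symm.toEquiv, P.card_eq_multiplicity, hc]
  · rintro g hg x ⟨y, ⟨z, hz, rfl⟩, rfl⟩
    refine ⟨e (e.symm ⟨g, hg⟩ * z * (e.symm ⟨g, hg⟩)⁻¹), ⟨_, hP.conj_mem z hz (e.symm ⟨g, hg⟩), rfl⟩, ?_⟩
    simp

/-- Sylow's theorem -/
theorem syl (p α r : ℕ) (hp : p.Prime) (hα : 1 ≤ α) (hr : ¬ p ∣ r)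
    (hd : ∀ d, d ∣ r → d % p = 1 → d = 1) : NormalSylow (p ^ α * r) := by
  intro B _ _ hB
  have hpF : Fact p.Prime := ⟨hp⟩
  have hr0 : r ≠ 0 := fun h => hr (h ▸ dvd_zero p)
  refine ⟨p, hp, Dvd.dvd.mul_right (dvd_pow_self p (by omega)) r, default, ?_⟩
  have hfin : Finite (Sylow p B) := inferInstance
  have h1 := card_sylow_modEq_one p B
  obtain ⟨P, -⟩ : ∃ P : Sylow p B, True := ⟨default, trivial⟩
  have h2 := P.card_dvd_index
  have h3 : (P : Subgroup B).index = r := by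
    have h4 := (P : Subgroup B).card_mul_index
    rw [P.card_eq_multiplicity, hB] at h4
    have h5 : (p ^ α * r).factorization p = α := by
      rw [Nat.factorization_mul (pow_ne_zero _ hp.ne_zero) hr0, hp.factorization_pow]
      simp [Nat.factorization_eq_zero_of_not_dvd hr]
    rw [h5] at h4
    exact Nat.eq_of_mul_eq_mul_left (pow_pos hp.pos α) h4
  rw [h3] at h2
  have h6 : Nat.card (Sylow p B) % p = 1 := by
    have := h1
    unfold Nat.ModEq at this
    rw [this]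
    exact Nat.mod_eq_of_lt hp.one_lt
  have h7 := hd _ h2 h6
  have h8 : Subsingleton (Sylow p B) := (Nat.card_eq_one_iff_unique.1 h7).1
  exact Sylow.normal_of_subsingleton _

end Pool.H67.CT
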