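import Pool.Agent.H67.CR.Gqf
import Pool.Agent.H67.CT.Fin
import Pool.Agent.H67.CT.Trn

/-!
# Coregular points: the theorem
-/

set_option autoImplicit false

namespace Pool.H67.CT

open Finset Classical
open Pool.H67.CR
open Pool.H67.CS
open Pool.H63.GQ

theorem gq_sylow {P L : Type*} [Fintype P] [Fintype L] {I : P → L → Prop} {q : ℕ} (h : Q I q)
    (hq : 2 ≤ q) (hpp : ¬ IsPrimePow q) (hN : NormalSylow q) (x : P) : ¬ ∀ l, I x l → RegLine I q l :=
  fun hreg => co_sylow (gq_co h x hreg) hq hpp (fun A hA => trn hN A hA)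

theorem gq_good {P L : Type*} [Fintype P] [Fintype L] {I : P → L → Prop} {q : ℕ} (h : Q I q)
    (p α r : ℕ) (hp : p.Prime) (hα : 1 ≤ α) (hr : ¬ p ∣ r) (hr2 : 2 ≤ r) (hq : q = p ^ α * r)
    (hg : Good p α r) (x : P) : ¬ ∀ l, I x l → RegLine I q l :=
  fun hreg => co_good (gq_co h x hreg) p α r hp hα hr hr2 hq hg

end Pool.H67.CT
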