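import Pool.Agent.H67.CT.Base

/-!
# Path: enumeration of a rooted spine

`RSp P ρ Sp rk`: `Sp` is stable under the parent function `P`, the rank decreases along `P`, and
every vertex has at most one child in `Sp` (other than the root itself).

Proof of `enum`.  For `x ∈ Sp` some iterate `P^[n] x = ρ` (strong induction on `rk x`); let
`δ x = Nat.find` of it (or define `δ` by well-founded recursion).  `δ ρ = 0`, `δ x = 0 → x = ρ`,
and `δ x = δ (P x) + 1` for `x ∈ Sp`, `x ≠ ρ` (`Function.iterate_succ_apply`).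
`δ` is injective on `Sp` (induction on the common value, `inj`).  The image `δ(Sp)` is downward
closed (`δ (P x) + 1 = δ x`), hence it is `range Sp.card` (a finite downward closed set of naturals
of cardinality `n` is `range n`).  Let `e i` be the element `x ∈ Sp` with `δ x = i` (and `ρ` for
`i ≥ Sp.card`).
-/

set_option autoImplicit false

open Finset

namespace Pool.Agent.H67.CT

structure RSp {X : Type*} (P : X → X) (ρ : X) (Sp : Finset X) (rk : X → ℕ) : Prop where
  root : ρ ∈ Sp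
  Pρ : P ρ = ρ
  PSp : ∀ x ∈ Sp, P x ∈ Sp
  rkP : ∀ x ∈ Sp, x ≠ ρ → rk (P x) < rk x
  inj : ∀ x ∈ Sp, ∀ y ∈ Sp, x ≠ ρ → y ≠ ρ → P x = P y → x = y

theorem Path_reach {X : Type*} [DecidableEq X] {P : X → X} {ρ : X} {Sp : Finset X} {rk : X → ℕ}
    (h : RSp P ρ Sp rk) : ∀ (n : ℕ) (x : X), x ∈ Sp → rk x ≤ n → ∃ k, P^[k] x = ρ := by
  intro n
  induction n with
  | zero =>
    intro x hx hn
    by_cases hxr : x = ρ
    · exact ⟨0, hxr⟩
    · have := h.rkP x hx hxr
      omega
  | succ n ih =>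
    intro x hx hn
    by_cases hxr : x = ρ
    · exact ⟨0, hxr⟩
    · have h1 := h.rkP x hx hxr
      obtain ⟨k, hk⟩ := ih (P x) (h.PSp x hx) (by omega)
      exact ⟨k + 1, by rw [Function.iterate_succ_apply]; exact hk⟩

theorem RSp.enum {X : Type*} [DecidableEq X] {P : X → X} {ρ : X} {Sp : Finset X} {rk : X → ℕ}
    (h : RSp P ρ Sp rk) : ∃ e : ℕ → X, e 0 = ρ ∧ (∀ i, i + 1 < Sp.card → P (e (i + 1)) = e i) ∧
      (∀ i < Sp.card, e i ∈ Sp) ∧ (∀ i < Sp.card, ∀ j < Sp.card, e i = e j → i = j) ∧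
      (∀ x ∈ Sp, ∃ i < Sp.card, e i = x) := by
  classical
  have hex : ∀ x ∈ Sp, ∃ k, P^[k] x = ρ := fun x hx => Path_reach h (rk x) x hx le_rfl
  -- the depth
  let δ : X → ℕ := fun x => if hx : x ∈ Sp then Nat.find (hex x hx) else 0
  have hδ : ∀ x (hx : x ∈ Sp), δ x = Nat.find (hex x hx) := fun x hx => by simp [δ, hx]
  have hδρ : δ ρ = 0 := by
    rw [hδ ρ h.root, Nat.find_eq_zero]; rfl
  have hδ0 : ∀ x ∈ Sp, δ x = 0 → x = ρ := by
    intro x hx h0
    rw [hδ x hx, Nat.find_eq_zero] at h0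
    exact h0
  have hδs : ∀ x ∈ Sp, x ≠ ρ → δ x = δ (P x) + 1 := by
    intro x hx hxr
    rw [hδ x hx, hδ (P x) (h.PSp x hx)]
    rw [Nat.find_eq_iff]
    constructor
    · rw [Function.iterate_succ_apply]
      exact Nat.find_spec (hex (P x) (h.PSp x hx))
    · intro k hk
      cases k with
      | zero => exact hxr
      | succ k =>
        rw [Function.iterate_succ_apply]
        exact Nat.find_min (hex (P x) (h.PSp x hx)) (by omega)
  have hinj : ∀ n, ∀ x ∈ Sp, ∀ y ∈ Sp, δ x = n → δ y = n → x = y := by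
    intro n
    induction n with
    | zero =>
      intro x hx y hy h1 h2
      rw [hδ0 x hx h1, hδ0 y hy h2]
    | succ n ih =>
      intro x hx y hy h1 h2
      have hxr : x ≠ ρ := by rintro rfl; omega
      have hyr : y ≠ ρ := by rintro rfl; omega
      have h3 := hδs x hx hxr
      have h4 := hδs y hy hyr
      exact h.inj x hx y hy hxr hyr
        (ih (P x) (h.PSp x hx) (P y) (h.PSp y hy) (by omega) (by omega))
  have hinjOn : Set.InjOn δ Sp := fun x hx y hy hxy => hinj (δ y) x hx y hy hxy rfl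
  -- the image is downward closed
  have hdown : ∀ n, ∀ x ∈ Sp, δ x = n → ∀ i ≤ n, ∃ y ∈ Sp, δ y = i := by
    intro n
    induction n with
    | zero =>
      intro x hx h1 i hi
      exact ⟨x, hx, by omega⟩
    | succ n ih =>
      intro x hx h1 i hi
      rcases Nat.lt_or_ge i (n + 1) with h2 | h2
      · have hxr : x ≠ ρ := by rintro rfl; omega
        have h3 := hδs x hx hxr
        exact ih (P x) (h.PSp x hx) (by omega) i (by omega)
      · exact ⟨x, hx, by omega⟩
  have hcardim : (Sp.image δ).card = Sp.card := card_image_of_injOn hinjOn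
  have hlt : ∀ x ∈ Sp, δ x < Sp.card := by
    intro x hx
    have h1 : range (δ x + 1) ⊆ Sp.image δ := by
      intro i hi
      obtain ⟨y, hy, hyi⟩ := hdown (δ x) x hx rfl i (by rw [mem_range] at hi; omega)
      exact mem_image.2 ⟨y, hy, hyi⟩
    have h2 := card_le_card h1
    rw [card_range, hcardim] at h2
    omega
  have himg : Sp.image δ = range Sp.card := by
    apply eq_of_subset_of_card_le
    · intro i hi
      obtain ⟨x, hx, rfl⟩ := mem_image.1 hi
      exact mem_range.2 (hlt x hx)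
    · rw [card_range, hcardim]
  have hex2 : ∀ i, ∃ x, (i < Sp.card → x ∈ Sp ∧ δ x = i) ∧ (¬ i < Sp.card → x = ρ) := by
    intro i
    by_cases hi : i < Sp.card
    · have : i ∈ Sp.image δ := by rw [himg]; exact mem_range.2 hi
      obtain ⟨x, hx, hxi⟩ := mem_image.1 this
      exact ⟨x, fun _ => ⟨hx, hxi⟩, fun hn => (hn hi).elim⟩
    · exact ⟨ρ, fun hn => (hi hn).elim, fun _ => rfl⟩
  choose e he1 he2 using hex2
  have hcpos : 0 < Sp.card := card_pos.2 ⟨ρ, h.root⟩
  refine ⟨e, ?_, ?_, ?_, ?_, ?_⟩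
  · obtain ⟨h1, h2⟩ := he1 0 hcpos
    exact hδ0 _ h1 h2
  · intro i hi
    obtain ⟨h1, h2⟩ := he1 (i + 1) hi
    obtain ⟨h3, h4⟩ := he1 i (by omega)
    have hr : e (i + 1) ≠ ρ := by
      intro hr; rw [hr, hδρ] at h2; omega
    have h5 := hδs _ h1 hr
    exact hinj i _ (h.PSp _ h1) _ h3 (by omega) h4
  · intro i hi
    exact (he1 i hi).1
  · intro i hi j hj hij
    rw [← (he1 i hi).2, ← (he1 j hj).2, hij]
  · intro x hx
    refine ⟨δ x, hlt x hx, ?_⟩
    obtain ⟨h1, h2⟩ := he1 (δ x) (hlt x hx)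
    exact hinj (δ x) _ h1 _ hx h2 rfl

theorem CatStr.rsp {X J : Type} [AddCommGroup J] {I : ℕ} (s : CatStr X J I) :
    RSp s.P s.ρ s.Sp s.rk :=
  ⟨s.root, s.Pρ, fun x _ => s.PSp x, fun x _ => s.rkP x, s.injSp⟩

end Pool.Agent.H67.CT
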