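import Mathlib

/-!
# Rem: sets with at most one exit for a permutation

Proof of `removal`: induction, decreasing the cardinality from `card Y - 1` to `L`.
Start: `A = univ.erase y0` (an `i` with `π i ∉ A` has `π i = y0`).  Step from `A` (`card = L + 1`) to
cardinality `L`: if some `x ∈ A` has `π.symm x ∉ A`, take `A.erase x`: for `i ∈ A.erase x` with
`π i ∉ A.erase x`, `π i = x` would give `i = π.symm x ∉ A`; so `π i ∉ A` and there is at most one.
Otherwise `π.symm` maps `A` into `A`, hence `π` maps `A` into `A` (finite), there is no exit at all; take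
`A.erase x` for any `x ∈ A`: the only exit is `π.symm x`.
-/

set_option autoImplicit false

open Finset

namespace Pool.Agent.H67.CT

theorem removal {Y : Type*} [Fintype Y] [DecidableEq Y] (π : Equiv.Perm Y) (y0 : Y) (L : ℕ)
    (hL : L + 1 ≤ Fintype.card Y) : ∃ A : Finset Y, y0 ∉ A ∧ A.card = L ∧
      ∀ i ∈ A, ∀ j ∈ A, π i ∉ A → π j ∉ A → i = j := by
  obtain ⟨d, hd⟩ : ∃ d, Fintype.card Y = L + 1 + d := ⟨Fintype.card Y - (L + 1), by omega⟩
  clear hL
  induction d generalizing L with
  | zero =>
    refine ⟨univ.erase y0, notMem_erase y0 _, ?_, ?_⟩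
    · rw [card_erase_of_mem (mem_univ _), card_univ, hd]; omega
    · intro i _ j _ h1 h2
      rw [mem_erase, not_and_or] at h1 h2
      have h3 : π i = y0 := by
        rcases h1 with h | h
        · exact not_not.1 h
        · exact (h (mem_univ _)).elim
      have h4 : π j = y0 := by
        rcases h2 with h | h
        · exact not_not.1 h
        · exact (h (mem_univ _)).elim
      exact π.injective (h3.trans h4.symm)
  | succ d ih =>
    obtain ⟨A, hA0, hAc, hA⟩ := ih (L + 1) (by omega)
    by_cases hex : ∃ x ∈ A, π.symm x ∉ A
    · obtain ⟨x, hx, hxs⟩ := hex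
      refine ⟨A.erase x, fun h => hA0 (mem_erase.1 h).2, ?_, ?_⟩
      · rw [card_erase_of_mem hx, hAc]; omega
      · have key : ∀ i ∈ A.erase x, π i ∉ A.erase x → π i ∉ A := by
          intro i hi hpi hpA
          by_cases hix : π i = x
          · apply hxs
            rw [← hix, Equiv.symm_apply_apply]
            exact (mem_erase.1 hi).2
          · exact hpi (mem_erase.2 ⟨hix, hpA⟩)
        intro i hi j hj h1 h2
        exact hA i (mem_erase.1 hi).2 j (mem_erase.1 hj).2 (key i hi h1) (key j hj h2)
    · push Not at hex
      -- the set is invariant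
      have himg : A.image π.symm = A := by
        apply eq_of_subset_of_card_le
        · intro y hy
          obtain ⟨x, hx, rfl⟩ := mem_image.1 hy
          exact hex x hx
        · rw [card_image_of_injective _ π.symm.injective]
      have hinv : ∀ i ∈ A, π i ∈ A := by
        intro i hi
        rw [← himg, mem_image] at hi
        obtain ⟨x, hx, rfl⟩ := hi
        rw [Equiv.apply_symm_apply]; exact hx
      obtain ⟨x, hx⟩ : A.Nonempty := by rw [← card_pos, hAc]; omega
      refine ⟨A.erase x, fun h => hA0 (mem_erase.1 h).2, ?_, ?_⟩
      · rw [card_erase_of_mem hx, hAc]; omega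
      · intro i hi j hj h1 h2
        rw [mem_erase, not_and_or] at h1 h2
        have h3 : π i = x := by
          rcases h1 with h | h
          · exact not_not.1 h
          · exact (h (hinv i (mem_erase.1 hi).2)).elim
        have h4 : π j = x := by
          rcases h2 with h | h
          · exact not_not.1 h
          · exact (h (hinv j (mem_erase.1 hj).2)).elim
        exact π.injective (h3.trans h4.symm)

end Pool.Agent.H67.CT
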